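import Pool.Agent.Lib.MP_cf17a0_co.KE

set_option autoImplicit false
set_option maxRecDepth 100000

namespace Pool.Agent.SignedQ.KE.Five

def h100 : sheet 100 100 208 11126 38 24 [(1, 5 * 100, 525, 1, 1)] = true := by decide +kernel

def h101 : sheet 101 101 217 11591 38 24 [(1, 5 * 101, 531, 1, 1)] = true := by decide +kernel

def h102 : sheet 102 102 211 11807 38 24 [(1, 5 * 102, 536, 1, 1)] = true := by decide +kernel

def h103 : sheet 103 103 221 12026 39 25 [(1, 5 * 103, 541, 1, 1)] = true := by decide +kernel

def h104 : sheet 104 104 215 12247 39 25 [(1, 5 * 104, 546, 1, 1)] = true := by decide +kernel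

def h105 : sheet 105 105 224 12470 39 25 [(1, 5 * 105, 552, 1, 1)] = true := by decide +kernel

def h106 : sheet 106 106 220 12694 40 26 [(1, 5 * 106, 557, 1, 1)] = true := by decide +kernel

def h107 : sheet 107 107 229 12921 40 26 [(1, 5 * 107, 562, 1, 1)] = true := by decide +kernel

def h108 : sheet 108 108 223 13150 40 26 [(1, 5 * 108, 567, 1, 1)] = true := by decide +kernel

def h109 : sheet 109 109 232 13381 40 26 [(1, 5 * 109, 573, 1, 1)] = true := by decide +kernel

end Pool.Agent.SignedQ.KE.Five
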