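import Pool.Agent.Lib.MP_cf17a0_co.KE

set_option autoImplicit false
set_option maxRecDepth 100000

namespace Pool.Agent.SignedQ.KE.Five

def h110 : sheet 110 110 227 13613 41 27 [(1, 5 * 110, 578, 1, 1)] = true := by decide +kernel

def h111 : sheet 111 111 236 13848 41 27 [(1, 5 * 111, 583, 1, 1)] = true := by decide +kernel

def h112 : sheet 112 112 231 14085 41 27 [(1, 5 * 112, 588, 1, 1)] = true := by decide +kernel

def h113 : sheet 113 113 240 14324 41 27 [(1, 5 * 113, 594, 1, 1)] = true := by decide +kernel

def h114 : sheet 114 114 235 14564 42 28 [(1, 5 * 114, 599, 1, 1)] = true := by decide +kernel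

def h115 : sheet 115 115 244 14807 42 28 [(1, 5 * 115, 604, 1, 1)] = true := by decide +kernel

def h116 : sheet 116 116 238 15052 42 28 [(1, 5 * 116, 609, 1, 1)] = true := by decide +kernel

def h117 : sheet 117 117 248 15299 43 29 [(1, 5 * 117, 615, 1, 1)] = true := by decide +kernel

def h118 : sheet 118 118 243 15547 43 29 [(1, 5 * 118, 620, 1, 1)] = true := by decide +kernel

def h119 : sheet 119 119 252 15798 43 29 [(1, 5 * 119, 625, 1, 1)] = true := by decide +kernel

end Pool.Agent.SignedQ.KE.Five
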