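import Pool.Agent.Lib.MP_cf17a0_co.KE

set_option autoImplicit false
set_option maxRecDepth 100000

namespace Pool.Agent.SignedQ.KE.Five

def h120 : sheet 120 120 246 16051 43 29 [(1, 5 * 120, 630, 1, 1)] = true := by decide +kernel

def h121 : sheet 121 121 253 16608 45 30 [(1, 5 * 121, 636, 1, 1)] = true := by decide +kernel

def h122 : sheet 122 122 256 16867 45 30 [(1, 5 * 122, 641, 1, 1)] = true := by decide +kernel

def h123 : sheet 123 123 257 17129 45 30 [(1, 5 * 123, 646, 1, 1)] = true := by decide +kernel

def h124 : sheet 124 124 260 17392 46 31 [(1, 5 * 124, 651, 1, 1)] = true := by decide +kernel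

def h125 : sheet 125 125 261 17657 46 31 [(1, 5 * 125, 657, 1, 1)] = true := by decide +kernel

def h126 : sheet 126 126 263 17924 46 31 [(1, 5 * 126, 662, 1, 1)] = true := by decide +kernel

def h127 : sheet 127 127 264 18194 46 31 [(1, 5 * 127, 667, 1, 1)] = true := by decide +kernel

def h128 : sheet 128 128 268 18465 47 32 [(1, 5 * 128, 672, 1, 1)] = true := by decide +kernel

def h129 : sheet 129 129 269 18738 47 32 [(1, 5 * 129, 678, 1, 1)] = true := by decide +kernel

end Pool.Agent.SignedQ.KE.Five
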