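import Pool.Agent.Lib.MP_cf17a0_co.S1.FD.K167

set_option autoImplicit false
set_option maxRecDepth 100000

namespace Pool.Agent.SignedQ.KE.K152

def l0 : List (Nat × Nat × Nat × Nat × Nat) :=
  [(1, 0, 507, 0, 1)]

def h0 : sheet 152 152 277 15315 52 38 l0 = true := by decide +kernel

def l1 : List (Nat × Nat × Nat × Nat × Nat) :=
  [(1, 507, 579, 0, 1)]

def h1 : sheet 152 152 309 20787 53 38 l1 = true := by decide +kernel

def l2 : List (Nat × Nat × Nat × Nat × Nat) :=
  [(1, 579, 627, 0, 1)]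

def h2 : sheet 152 152 326 24435 53 38 l2 = true := by decide +kernel

def l3 : List (Nat × Nat × Nat × Nat × Nat) :=
  [(1, 627, 669, 0, 1)]

def h3 : sheet 152 152 338 27627 53 38 l3 = true := by decide +kernel

def l4 : List (Nat × Nat × Nat × Nat × Nat) :=
  [(1, 669, 702, 0, 1)]

def h4 : sheet 152 152 346 30135 53 38 l4 = true := by decide +kernel

def l5 : List (Nat × Nat × Nat × Nat × Nat) :=
  [(1, 702, 735, 0, 1)]

def h5 : sheet 152 152 354 32643 53 38 l5 = true := by decide +kernel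

def l6 : List (Nat × Nat × Nat × Nat × Nat) :=
  [(1, 735, 760, 0, 1)]

def h6 : sheet 152 152 361 34695 54 38 l6 = true := by decide +kernel

theorem cv : Nat.ble 760 (cov 152 (l0 ++ (l1 ++ (l2 ++ (l3 ++ (l4 ++ (l5 ++ (l6))))))) 0 0 0) = true := by decide +kernel

end Pool.Agent.SignedQ.KE.K152
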