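import Pool.Agent.Lib.MP_cf17a0_co.S1.FD.K166

set_option autoImplicit false
set_option maxRecDepth 100000

namespace Pool.Agent.SignedQ.KE.K153

def l0 : List (Nat × Nat × Nat × Nat × Nat) :=
  [(1, 0, 531, 0, 1)]

def h0 : sheet 153 153 297 17099 54 39 l0 = true := by decide +kernel

def l1 : List (Nat × Nat × Nat × Nat × Nat) :=
  [(1, 531, 588, 0, 1)]

def h1 : sheet 153 153 314 21459 54 39 l1 = true := by decide +kernel

def l2 : List (Nat × Nat × Nat × Nat × Nat) :=
  [(1, 588, 636, 0, 1)]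

def h2 : sheet 153 153 329 25131 54 39 l2 = true := by decide +kernel

def l3 : List (Nat × Nat × Nat × Nat × Nat) :=
  [(1, 636, 678, 0, 1)]

def h3 : sheet 153 153 341 28344 54 39 l3 = true := by decide +kernel

def l4 : List (Nat × Nat × Nat × Nat × Nat) :=
  [(1, 678, 711, 0, 1)]

def h4 : sheet 153 153 358 30869 54 39 l4 = true := by decide +kernel

def l5 : List (Nat × Nat × Nat × Nat × Nat) :=
  [(1, 711, 738, 0, 1)]

def h5 : sheet 153 153 357 32934 55 39 l5 = true := by decide +kernel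

def l6 : List (Nat × Nat × Nat × Nat × Nat) :=
  [(1, 738, 765, 0, 1)]

def h6 : sheet 153 153 371 35000 55 39 l6 = true := by decide +kernel

theorem cv : Nat.ble 765 (cov 153 (l0 ++ (l1 ++ (l2 ++ (l3 ++ (l4 ++ (l5 ++ (l6))))))) 0 0 0) = true := by decide +kernel

end Pool.Agent.SignedQ.KE.K153
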