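import Pool.Agent.Lib.MP_cf17a0_co.S1.FD.K165

set_option autoImplicit false
set_option maxRecDepth 100000

namespace Pool.Agent.SignedQ.KE.K154

def l0 : List (Nat × Nat × Nat × Nat × Nat) :=
  [(1, 0, 537, 0, 1)]

def h0 : sheet 154 154 293 17518 54 39 l0 = true := by decide +kernel

def l1 : List (Nat × Nat × Nat × Nat × Nat) :=
  [(1, 537, 594, 0, 1)]

def h1 : sheet 154 154 316 21907 54 39 l1 = true := by decide +kernel

def l2 : List (Nat × Nat × Nat × Nat × Nat) :=
  [(1, 594, 642, 0, 1)]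

def h2 : sheet 154 154 332 25603 54 39 l2 = true := by decide +kernel

def l3 : List (Nat × Nat × Nat × Nat × Nat) :=
  [(1, 642, 684, 0, 1)]

def h3 : sheet 154 154 344 28837 54 39 l3 = true := by decide +kernel

def l4 : List (Nat × Nat × Nat × Nat × Nat) :=
  [(1, 684, 717, 0, 1)]

def h4 : sheet 154 154 353 31378 54 39 l4 = true := by decide +kernel

def l5 : List (Nat × Nat × Nat × Nat × Nat) :=
  [(1, 717, 744, 0, 1)]

def h5 : sheet 154 154 360 33457 55 39 l5 = true := by decide +kernel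

def l6 : List (Nat × Nat × Nat × Nat × Nat) :=
  [(1, 744, 770, 0, 1)]

def h6 : sheet 154 154 366 35536 55 39 l6 = true := by decide +kernel

theorem cv : Nat.ble 770 (cov 154 (l0 ++ (l1 ++ (l2 ++ (l3 ++ (l4 ++ (l5 ++ (l6))))))) 0 0 0) = true := by decide +kernel

end Pool.Agent.SignedQ.KE.K154
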