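import Pool.Agent.Lib.MP_cf17a0_co.S1.FD.K164

set_option autoImplicit false
set_option maxRecDepth 100000

namespace Pool.Agent.SignedQ.KE.K155

def l0 : List (Nat × Nat × Nat × Nat × Nat) :=
  [(1, 0, 489, 0, 1)]

def h0 : sheet 155 155 270 13757 53 39 l0 = true := by decide +kernel

def l1 : List (Nat × Nat × Nat × Nat × Nat) :=
  [(1, 489, 570, 0, 1)]

def h1 : sheet 155 155 307 20035 54 39 l1 = true := by decide +kernel

def l2 : List (Nat × Nat × Nat × Nat × Nat) :=
  [(1, 570, 618, 0, 1)]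

def h2 : sheet 155 155 325 23755 54 39 l2 = true := by decide +kernel

def l3 : List (Nat × Nat × Nat × Nat × Nat) :=
  [(1, 618, 657, 0, 1)]

def h3 : sheet 155 155 344 26777 54 39 l3 = true := by decide +kernel

def l4 : List (Nat × Nat × Nat × Nat × Nat) :=
  [(1, 657, 690, 0, 1)]

def h4 : sheet 155 155 346 29335 54 39 l4 = true := by decide +kernel

def l5 : List (Nat × Nat × Nat × Nat × Nat) :=
  [(1, 690, 723, 0, 1)]

def h5 : sheet 155 155 362 31892 54 39 l5 = true := by decide +kernel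

def l6 : List (Nat × Nat × Nat × Nat × Nat) :=
  [(1, 723, 750, 0, 1)]

def h6 : sheet 155 155 362 33985 55 39 l6 = true := by decide +kernel

def l7 : List (Nat × Nat × Nat × Nat × Nat) :=
  [(1, 750, 775, 0, 1)]

def h7 : sheet 155 155 376 36077 55 39 l7 = true := by decide +kernel

theorem cv : Nat.ble 775 (cov 155 (l0 ++ (l1 ++ (l2 ++ (l3 ++ (l4 ++ (l5 ++ (l6 ++ (l7)))))))) 0 0 0) = true := by decide +kernel

end Pool.Agent.SignedQ.KE.K155
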