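import Pool.Agent.Lib.MP_cf17a0_co.S1.FD.K163

set_option autoImplicit false
set_option maxRecDepth 100000

namespace Pool.Agent.SignedQ.KE.K156

def l0 : List (Nat × Nat × Nat × Nat × Nat) :=
  [(1, 0, 492, 0, 1)]

def h0 : sheet 156 156 264 13924 53 39 l0 = true := by decide +kernel

def l1 : List (Nat × Nat × Nat × Nat × Nat) :=
  [(1, 492, 570, 0, 1)]

def h1 : sheet 156 156 307 20008 54 39 l1 = true := by decide +kernel

def l2 : List (Nat × Nat × Nat × Nat × Nat) :=
  [(1, 570, 618, 0, 1)]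

def h2 : sheet 156 156 325 23752 54 39 l2 = true := by decide +kernel

def l3 : List (Nat × Nat × Nat × Nat × Nat) :=
  [(1, 618, 660, 0, 1)]

def h3 : sheet 156 156 338 27028 54 39 l3 = true := by decide +kernel

def l4 : List (Nat × Nat × Nat × Nat × Nat) :=
  [(1, 660, 693, 0, 1)]

def h4 : sheet 156 156 348 29602 54 39 l4 = true := by decide +kernel

def l5 : List (Nat × Nat × Nat × Nat × Nat) :=
  [(1, 693, 726, 0, 1)]

def h5 : sheet 156 156 356 32176 54 39 l5 = true := by decide +kernel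

def l6 : List (Nat × Nat × Nat × Nat × Nat) :=
  [(1, 726, 753, 0, 1)]

def h6 : sheet 156 156 364 34282 55 39 l6 = true := by decide +kernel

def l7 : List (Nat × Nat × Nat × Nat × Nat) :=
  [(1, 753, 780, 0, 1)]

def h7 : sheet 156 156 370 36388 55 39 l7 = true := by decide +kernel

theorem cv : Nat.ble 780 (cov 156 (l0 ++ (l1 ++ (l2 ++ (l3 ++ (l4 ++ (l5 ++ (l6 ++ (l7)))))))) 0 0 0) = true := by decide +kernel

end Pool.Agent.SignedQ.KE.K156
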