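import Pool.Agent.Lib.MP_cf17a0_co.S1.FD.K162

set_option autoImplicit false
set_option maxRecDepth 100000

namespace Pool.Agent.SignedQ.KE.K157

def l0 : List (Nat × Nat × Nat × Nat × Nat) :=
  [(1, 0, 513, 0, 1)]

def h0 : sheet 157 157 286 15505 54 40 l0 = true := by decide +kernel

def l1 : List (Nat × Nat × Nat × Nat × Nat) :=
  [(1, 513, 576, 0, 1)]

def h1 : sheet 157 157 311 20450 55 40 l1 = true := by decide +kernel

def l2 : List (Nat × Nat × Nat × Nat × Nat) :=
  [(1, 576, 624, 0, 1)]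

def h2 : sheet 157 157 329 24218 55 40 l2 = true := by decide +kernel

def l3 : List (Nat × Nat × Nat × Nat × Nat) :=
  [(1, 624, 666, 0, 1)]

def h3 : sheet 157 157 342 27515 55 40 l3 = true := by decide +kernel

def l4 : List (Nat × Nat × Nat × Nat × Nat) :=
  [(1, 666, 699, 0, 1)]

def h4 : sheet 157 157 359 30106 55 40 l4 = true := by decide +kernel

def l5 : List (Nat × Nat × Nat × Nat × Nat) :=
  [(1, 699, 732, 0, 1)]

def h5 : sheet 157 157 359 32696 55 40 l5 = true := by decide +kernel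

def l6 : List (Nat × Nat × Nat × Nat × Nat) :=
  [(1, 732, 759, 0, 1)]

def h6 : sheet 157 157 375 34816 56 40 l6 = true := by decide +kernel

def l7 : List (Nat × Nat × Nat × Nat × Nat) :=
  [(1, 759, 785, 0, 1)]

def h7 : sheet 157 157 373 36935 56 40 l7 = true := by decide +kernel

theorem cv : Nat.ble 785 (cov 157 (l0 ++ (l1 ++ (l2 ++ (l3 ++ (l4 ++ (l5 ++ (l6 ++ (l7)))))))) 0 0 0) = true := by decide +kernel

end Pool.Agent.SignedQ.KE.K157
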