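import Pool.Agent.Lib.MP_cf17a0_co.S1.FD.K161

set_option autoImplicit false
set_option maxRecDepth 100000

namespace Pool.Agent.SignedQ.KE.K158

def l0 : List (Nat × Nat × Nat × Nat × Nat) :=
  [(1, 0, 522, 0, 1)]

def h0 : sheet 158 158 283 16156 54 40 l0 = true := by decide +kernel

def l1 : List (Nat × Nat × Nat × Nat × Nat) :=
  [(1, 522, 588, 0, 1)]

def h1 : sheet 158 158 316 21370 55 40 l1 = true := by decide +kernel

def l2 : List (Nat × Nat × Nat × Nat × Nat) :=
  [(1, 588, 636, 0, 1)]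

def h2 : sheet 158 158 333 25162 55 40 l2 = true := by decide +kernel

def l3 : List (Nat × Nat × Nat × Nat × Nat) :=
  [(1, 636, 678, 0, 1)]

def h3 : sheet 158 158 346 28480 55 40 l3 = true := by decide +kernel

def l4 : List (Nat × Nat × Nat × Nat × Nat) :=
  [(1, 678, 711, 0, 1)]

def h4 : sheet 158 158 356 31087 55 40 l4 = true := by decide +kernel

def l5 : List (Nat × Nat × Nat × Nat × Nat) :=
  [(1, 711, 738, 0, 1)]

def h5 : sheet 158 158 363 33220 56 40 l5 = true := by decide +kernel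

def l6 : List (Nat × Nat × Nat × Nat × Nat) :=
  [(1, 738, 765, 0, 1)]

def h6 : sheet 158 158 370 35353 56 40 l6 = true := by decide +kernel

def l7 : List (Nat × Nat × Nat × Nat × Nat) :=
  [(1, 765, 790, 0, 1)]

def h7 : sheet 158 158 375 37486 56 40 l7 = true := by decide +kernel

theorem cv : Nat.ble 790 (cov 158 (l0 ++ (l1 ++ (l2 ++ (l3 ++ (l4 ++ (l5 ++ (l6 ++ (l7)))))))) 0 0 0) = true := by decide +kernel

end Pool.Agent.SignedQ.KE.K158
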