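import Pool.Agent.Lib.MP_cf17a0_co.S1.FD.K175

set_option autoImplicit false
set_option maxRecDepth 100000

namespace Pool.Agent.SignedQ.KE.K160

def l0 : List (Nat × Nat × Nat × Nat × Nat) :=
  [(1, 0, 501, 0, 1), (1, 501, 570, 0, 1)]

def h0 : sheet 160 160 308 19881 55 40 l0 = true := by decide +kernel

def l1 : List (Nat × Nat × Nat × Nat × Nat) :=
  [(1, 570, 615, 0, 1)]

def h1 : sheet 160 160 327 23481 55 40 l1 = true := by decide +kernel

def l2 : List (Nat × Nat × Nat × Nat × Nat) :=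
  [(1, 615, 654, 0, 1)]

def h2 : sheet 160 160 340 26601 55 40 l2 = true := by decide +kernel

def l3 : List (Nat × Nat × Nat × Nat × Nat) :=
  [(1, 654, 687, 0, 1)]

def h3 : sheet 160 160 351 29241 55 40 l3 = true := by decide +kernel

def l4 : List (Nat × Nat × Nat × Nat × Nat) :=
  [(1, 687, 720, 0, 1)]

def h4 : sheet 160 160 359 31881 55 40 l4 = true := by decide +kernel

def l5 : List (Nat × Nat × Nat × Nat × Nat) :=
  [(1, 720, 747, 0, 1)]

def h5 : sheet 160 160 367 34041 56 40 l5 = true := by decide +kernel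

def l6 : List (Nat × Nat × Nat × Nat × Nat) :=
  [(1, 747, 774, 0, 1)]

def h6 : sheet 160 160 373 36201 56 40 l6 = true := by decide +kernel

def l7 : List (Nat × Nat × Nat × Nat × Nat) :=
  [(1, 774, 800, 0, 1)]

def h7 : sheet 160 160 380 38361 56 40 l7 = true := by decide +kernel

theorem cv : Nat.ble 800 (cov 160 (l0 ++ (l1 ++ (l2 ++ (l3 ++ (l4 ++ (l5 ++ (l6 ++ (l7)))))))) 0 0 0) = true := by decide +kernel

end Pool.Agent.SignedQ.KE.K160
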