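import Pool.Agent.Lib.MP_cf17a0_co.S1.FD.K172

set_option autoImplicit false
set_option maxRecDepth 100000

namespace Pool.Agent.SignedQ.KE.K161

def l0 : List (Nat × Nat × Nat × Nat × Nat) :=
  [(1, 0, 504, 0, 1)]

def h0 : sheet 161 161 272 14531 55 41 l0 = true := by decide +kernel

def l1 : List (Nat × Nat × Nat × Nat × Nat) :=
  [(1, 504, 576, 0, 1)]

def h1 : sheet 161 161 313 20327 56 41 l1 = true := by decide +kernel

def l2 : List (Nat × Nat × Nat × Nat × Nat) :=
  [(1, 576, 624, 0, 1)]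

def h2 : sheet 161 161 332 24191 56 41 l2 = true := by decide +kernel

def l3 : List (Nat × Nat × Nat × Nat × Nat) :=
  [(1, 624, 666, 0, 1)]

def h3 : sheet 161 161 345 27572 56 41 l3 = true := by decide +kernel

def l4 : List (Nat × Nat × Nat × Nat × Nat) :=
  [(1, 666, 699, 0, 1)]

def h4 : sheet 161 161 363 30229 56 41 l4 = true := by decide +kernel

def l5 : List (Nat × Nat × Nat × Nat × Nat) :=
  [(1, 699, 732, 0, 1)]

def h5 : sheet 161 161 365 32885 57 41 l5 = true := by decide +kernel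

def l6 : List (Nat × Nat × Nat × Nat × Nat) :=
  [(1, 732, 759, 0, 1)]

def h6 : sheet 161 161 379 35059 57 41 l6 = true := by decide +kernel

def l7 : List (Nat × Nat × Nat × Nat × Nat) :=
  [(1, 759, 786, 0, 1)]

def h7 : sheet 161 161 378 37232 57 41 l7 = true := by decide +kernel

def l8 : List (Nat × Nat × Nat × Nat × Nat) :=
  [(1, 786, 805, 0, 1)]

def h8 : sheet 161 161 390 38923 57 41 l8 = true := by decide +kernel

theorem cv : Nat.ble 805 (cov 161 (l0 ++ (l1 ++ (l2 ++ (l3 ++ (l4 ++ (l5 ++ (l6 ++ (l7 ++ (l8))))))))) 0 0 0) = true := by decide +kernel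

end Pool.Agent.SignedQ.KE.K161
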