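import Pool.Agent.Lib.MP_cf17a0_co.S1.FD.K173

set_option autoImplicit false
set_option maxRecDepth 100000

namespace Pool.Agent.SignedQ.KE.K162

def l0 : List (Nat × Nat × Nat × Nat × Nat) :=
  [(1, 0, 507, 0, 1), (1, 507, 576, 0, 1)]

def h0 : sheet 162 162 312 20291 56 41 l0 = true := by decide +kernel

def l1 : List (Nat × Nat × Nat × Nat × Nat) :=
  [(1, 576, 621, 0, 1)]

def h1 : sheet 162 162 331 23936 56 41 l1 = true := by decide +kernel

def l2 : List (Nat × Nat × Nat × Nat × Nat) :=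
  [(1, 621, 663, 0, 1)]

def h2 : sheet 162 162 346 27338 56 41 l2 = true := by decide +kernel

def l3 : List (Nat × Nat × Nat × Nat × Nat) :=
  [(1, 663, 696, 0, 1)]

def h3 : sheet 162 162 355 30011 56 41 l3 = true := by decide +kernel

def l4 : List (Nat × Nat × Nat × Nat × Nat) :=
  [(1, 696, 729, 0, 1)]

def h4 : sheet 162 162 364 32684 56 41 l4 = true := by decide +kernel

def l5 : List (Nat × Nat × Nat × Nat × Nat) :=
  [(1, 729, 756, 0, 1)]

def h5 : sheet 162 162 372 34871 57 41 l5 = true := by decide +kernel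

def l6 : List (Nat × Nat × Nat × Nat × Nat) :=
  [(1, 756, 783, 0, 1)]

def h6 : sheet 162 162 379 37058 57 41 l6 = true := by decide +kernel

def l7 : List (Nat × Nat × Nat × Nat × Nat) :=
  [(1, 783, 810, 0, 1)]

def h7 : sheet 162 162 384 39245 57 41 l7 = true := by decide +kernel

theorem cv : Nat.ble 810 (cov 162 (l0 ++ (l1 ++ (l2 ++ (l3 ++ (l4 ++ (l5 ++ (l6 ++ (l7)))))))) 0 0 0) = true := by decide +kernel

end Pool.Agent.SignedQ.KE.K162
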