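import Pool.Agent.Lib.MP_cf17a0_co.S1.FD.K169

set_option autoImplicit false
set_option maxRecDepth 100000

namespace Pool.Agent.SignedQ.KE.K163

def l0 : List (Nat × Nat × Nat × Nat × Nat) :=
  [(1, 0, 555, 0, 1)]

def h0 : sheet 163 163 310 18542 56 41 l0 = true := by decide +kernel

def l1 : List (Nat × Nat × Nat × Nat × Nat) :=
  [(1, 555, 609, 0, 1)]

def h1 : sheet 163 163 334 22943 56 41 l1 = true := by decide +kernel

def l2 : List (Nat × Nat × Nat × Nat × Nat) :=
  [(1, 609, 648, 0, 1)]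

def h2 : sheet 163 163 341 26122 56 41 l2 = true := by decide +kernel

def l3 : List (Nat × Nat × Nat × Nat × Nat) :=
  [(1, 648, 681, 0, 1)]

def h3 : sheet 163 163 359 28811 56 41 l3 = true := by decide +kernel

def l4 : List (Nat × Nat × Nat × Nat × Nat) :=
  [(1, 681, 714, 0, 1)]

def h4 : sheet 163 163 361 31501 56 41 l4 = true := by decide +kernel

def l5 : List (Nat × Nat × Nat × Nat × Nat) :=
  [(1, 714, 741, 0, 1)]

def h5 : sheet 163 163 377 33701 57 41 l5 = true := by decide +kernel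

def l6 : List (Nat × Nat × Nat × Nat × Nat) :=
  [(1, 741, 768, 0, 1)]

def h6 : sheet 163 163 375 35902 57 41 l6 = true := by decide +kernel

def l7 : List (Nat × Nat × Nat × Nat × Nat) :=
  [(1, 768, 795, 0, 1)]

def h7 : sheet 163 163 390 38102 57 41 l7 = true := by decide +kernel

def l8 : List (Nat × Nat × Nat × Nat × Nat) :=
  [(1, 795, 815, 0, 1)]

def h8 : sheet 163 163 386 39814 57 41 l8 = true := by decide +kernel

theorem cv : Nat.ble 815 (cov 163 (l0 ++ (l1 ++ (l2 ++ (l3 ++ (l4 ++ (l5 ++ (l6 ++ (l7 ++ (l8))))))))) 0 0 0) = true := by decide +kernel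

end Pool.Agent.SignedQ.KE.K163
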