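import Pool.Agent.Lib.MP_cf17a0_co.S1.FD.K170

set_option autoImplicit false
set_option maxRecDepth 100000

namespace Pool.Agent.SignedQ.KE.K164

def l0 : List (Nat × Nat × Nat × Nat × Nat) :=
  [(1, 0, 561, 0, 1)]

def h0 : sheet 164 164 307 18984 57 42 l0 = true := by decide +kernel

def l1 : List (Nat × Nat × Nat × Nat × Nat) :=
  [(1, 561, 615, 0, 1)]

def h1 : sheet 164 164 331 23412 57 42 l1 = true := by decide +kernel

def l2 : List (Nat × Nat × Nat × Nat × Nat) :=
  [(1, 615, 654, 0, 1)]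

def h2 : sheet 164 164 344 26610 57 42 l2 = true := by decide +kernel

def l3 : List (Nat × Nat × Nat × Nat × Nat) :=
  [(1, 654, 687, 0, 1)]

def h3 : sheet 164 164 355 29316 57 42 l3 = true := by decide +kernel

def l4 : List (Nat × Nat × Nat × Nat × Nat) :=
  [(1, 687, 720, 0, 1)]

def h4 : sheet 164 164 364 32022 57 42 l4 = true := by decide +kernel

def l5 : List (Nat × Nat × Nat × Nat × Nat) :=
  [(1, 720, 747, 0, 1)]

def h5 : sheet 164 164 373 34236 58 42 l5 = true := by decide +kernel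

def l6 : List (Nat × Nat × Nat × Nat × Nat) :=
  [(1, 747, 774, 0, 1)]

def h6 : sheet 164 164 379 36450 58 42 l6 = true := by decide +kernel

def l7 : List (Nat × Nat × Nat × Nat × Nat) :=
  [(1, 774, 801, 0, 1)]

def h7 : sheet 164 164 386 38664 58 42 l7 = true := by decide +kernel

def l8 : List (Nat × Nat × Nat × Nat × Nat) :=
  [(1, 801, 820, 0, 1)]

def h8 : sheet 164 164 390 40386 58 42 l8 = true := by decide +kernel

theorem cv : Nat.ble 820 (cov 164 (l0 ++ (l1 ++ (l2 ++ (l3 ++ (l4 ++ (l5 ++ (l6 ++ (l7 ++ (l8))))))))) 0 0 0) = true := by decide +kernel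

end Pool.Agent.SignedQ.KE.K164
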