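import Pool.Agent.Lib.MP_cf17a0_co.S1.FD.K171

set_option autoImplicit false
set_option maxRecDepth 100000

namespace Pool.Agent.SignedQ.KE.K165

def l0 : List (Nat × Nat × Nat × Nat × Nat) :=
  [(1, 0, 564, 0, 1)]

def h0 : sheet 165 165 308 19182 57 42 l0 = true := by decide +kernel

def l1 : List (Nat × Nat × Nat × Nat × Nat) :=
  [(1, 564, 618, 0, 1)]

def h1 : sheet 165 165 332 23637 57 42 l1 = true := by decide +kernel

def l2 : List (Nat × Nat × Nat × Nat × Nat) :=
  [(1, 618, 657, 0, 1)]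

def h2 : sheet 165 165 353 26855 57 42 l2 = true := by decide +kernel

def l3 : List (Nat × Nat × Nat × Nat × Nat) :=
  [(1, 657, 690, 0, 1)]

def h3 : sheet 165 165 356 29577 57 42 l3 = true := by decide +kernel

def l4 : List (Nat × Nat × Nat × Nat × Nat) :=
  [(1, 690, 723, 0, 1)]

def h4 : sheet 165 165 373 32300 57 42 l4 = true := by decide +kernel

def l5 : List (Nat × Nat × Nat × Nat × Nat) :=
  [(1, 723, 750, 0, 1)]

def h5 : sheet 165 165 374 34527 58 42 l5 = true := by decide +kernel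

def l6 : List (Nat × Nat × Nat × Nat × Nat) :=
  [(1, 750, 777, 0, 1)]

def h6 : sheet 165 165 388 36755 58 42 l6 = true := by decide +kernel

def l7 : List (Nat × Nat × Nat × Nat × Nat) :=
  [(1, 777, 804, 0, 1)]

def h7 : sheet 165 165 387 38982 58 42 l7 = true := by decide +kernel

def l8 : List (Nat × Nat × Nat × Nat × Nat) :=
  [(1, 804, 825, 0, 1)]

def h8 : sheet 165 165 399 40715 58 42 l8 = true := by decide +kernel

theorem cv : Nat.ble 825 (cov 165 (l0 ++ (l1 ++ (l2 ++ (l3 ++ (l4 ++ (l5 ++ (l6 ++ (l7 ++ (l8))))))))) 0 0 0) = true := by decide +kernel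

end Pool.Agent.SignedQ.KE.K165
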