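import Pool.Agent.Lib.MP_cf17a0_co.S1.FD.K174

set_option autoImplicit false
set_option maxRecDepth 100000

namespace Pool.Agent.SignedQ.KE.K166

def l0 : List (Nat × Nat × Nat × Nat × Nat) :=
  [(1, 0, 519, 0, 1), (1, 519, 582, 0, 1)]

def h0 : sheet 166 166 316 20626 57 42 l0 = true := by decide +kernel

def l1 : List (Nat × Nat × Nat × Nat × Nat) :=
  [(1, 582, 627, 0, 1)]

def h1 : sheet 166 166 336 24361 57 42 l1 = true := by decide +kernel

def l2 : List (Nat × Nat × Nat × Nat × Nat) :=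
  [(1, 627, 669, 0, 1)]

def h2 : sheet 166 166 351 27847 57 42 l2 = true := by decide +kernel

def l3 : List (Nat × Nat × Nat × Nat × Nat) :=
  [(1, 669, 702, 0, 1)]

def h3 : sheet 166 166 360 30586 57 42 l3 = true := by decide +kernel

def l4 : List (Nat × Nat × Nat × Nat × Nat) :=
  [(1, 702, 735, 0, 1)]

def h4 : sheet 166 166 371 33325 58 42 l4 = true := by decide +kernel

def l5 : List (Nat × Nat × Nat × Nat × Nat) :=
  [(1, 735, 762, 0, 1)]

def h5 : sheet 166 166 377 35566 58 42 l5 = true := by decide +kernel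

def l6 : List (Nat × Nat × Nat × Nat × Nat) :=
  [(1, 762, 789, 0, 1)]

def h6 : sheet 166 166 385 37807 58 42 l6 = true := by decide +kernel

def l7 : List (Nat × Nat × Nat × Nat × Nat) :=
  [(1, 789, 810, 0, 1)]

def h7 : sheet 166 166 389 39550 58 42 l7 = true := by decide +kernel

def l8 : List (Nat × Nat × Nat × Nat × Nat) :=
  [(1, 810, 830, 0, 1)]

def h8 : sheet 166 166 394 41293 58 42 l8 = true := by decide +kernel

theorem cv : Nat.ble 830 (cov 166 (l0 ++ (l1 ++ (l2 ++ (l3 ++ (l4 ++ (l5 ++ (l6 ++ (l7 ++ (l8))))))))) 0 0 0) = true := by decide +kernel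

end Pool.Agent.SignedQ.KE.K166
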