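import Pool.Agent.Lib.MP_cf17a0_co.S1.FD.K168

set_option autoImplicit false
set_option maxRecDepth 100000

namespace Pool.Agent.SignedQ.KE.K167

def l0 : List (Nat × Nat × Nat × Nat × Nat) :=
  [(1, 0, 564, 0, 1)]

def h0 : sheet 167 167 308 19081 57 42 l0 = true := by decide +kernel

def l1 : List (Nat × Nat × Nat × Nat × Nat) :=
  [(1, 564, 612, 0, 1)]

def h1 : sheet 167 167 330 23089 57 42 l1 = true := by decide +kernel

def l2 : List (Nat × Nat × Nat × Nat × Nat) :=
  [(1, 612, 648, 0, 1)]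

def h2 : sheet 167 167 344 26095 57 42 l2 = true := by decide +kernel

def l3 : List (Nat × Nat × Nat × Nat × Nat) :=
  [(1, 648, 681, 0, 1)]

def h3 : sheet 167 167 362 28850 57 42 l3 = true := by decide +kernel

def l4 : List (Nat × Nat × Nat × Nat × Nat) :=
  [(1, 681, 714, 0, 1)]

def h4 : sheet 167 167 364 31606 57 42 l4 = true := by decide +kernel

def l5 : List (Nat × Nat × Nat × Nat × Nat) :=
  [(1, 714, 741, 0, 1)]

def h5 : sheet 167 167 381 33860 58 42 l5 = true := by decide +kernel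

def l6 : List (Nat × Nat × Nat × Nat × Nat) :=
  [(1, 741, 768, 0, 1)]

def h6 : sheet 167 167 380 36115 58 42 l6 = true := by decide +kernel

def l7 : List (Nat × Nat × Nat × Nat × Nat) :=
  [(1, 768, 795, 0, 1)]

def h7 : sheet 167 167 394 38369 58 42 l7 = true := by decide +kernel

def l8 : List (Nat × Nat × Nat × Nat × Nat) :=
  [(1, 795, 816, 0, 1)]

def h8 : sheet 167 167 391 40123 58 42 l8 = true := by decide +kernel

def l9 : List (Nat × Nat × Nat × Nat × Nat) :=
  [(1, 816, 835, 0, 1)]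

def g9 : KL.sheet 167 167 404 41876 58 42 l9 = true := by decide +kernel

theorem h9 : sheet 167 167 404 41876 58 42 l9 = true := KL.sheet_ok g9

theorem cv : Nat.ble 835 (cov 167 (l0 ++ (l1 ++ (l2 ++ (l3 ++ (l4 ++ (l5 ++ (l6 ++ (l7 ++ (l8 ++ (l9)))))))))) 0 0 0) = true := by decide +kernel

end Pool.Agent.SignedQ.KE.K167
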