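import Pool.Agent.Lib.MP_cf17a0_co.S1.FD.K183

set_option autoImplicit false
set_option maxRecDepth 100000

namespace Pool.Agent.SignedQ.KE.K168

def l0 : List (Nat × Nat × Nat × Nat × Nat) :=
  [(1, 0, 567, 0, 1)]

def h0 : sheet 168 168 311 19279 58 43 l0 = true := by decide +kernel

def l1 : List (Nat × Nat × Nat × Nat × Nat) :=
  [(1, 567, 615, 0, 1)]

def h1 : sheet 168 168 333 23311 58 43 l1 = true := by decide +kernel

def l2 : List (Nat × Nat × Nat × Nat × Nat) :=
  [(1, 615, 651, 0, 1)]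

def h2 : sheet 168 168 346 26335 58 43 l2 = true := by decide +kernel

def l3 : List (Nat × Nat × Nat × Nat × Nat) :=
  [(1, 651, 684, 0, 1)]

def h3 : sheet 168 168 357 29107 58 43 l3 = true := by decide +kernel

def l4 : List (Nat × Nat × Nat × Nat × Nat) :=
  [(1, 684, 717, 0, 1)]

def h4 : sheet 168 168 368 31879 58 43 l4 = true := by decide +kernel

def l5 : List (Nat × Nat × Nat × Nat × Nat) :=
  [(1, 717, 744, 0, 1)]

def h5 : sheet 168 168 375 34147 59 43 l5 = true := by decide +kernel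

def l6 : List (Nat × Nat × Nat × Nat × Nat) :=
  [(1, 744, 771, 0, 1)]

def h6 : sheet 168 168 383 36415 59 43 l6 = true := by decide +kernel

def l7 : List (Nat × Nat × Nat × Nat × Nat) :=
  [(1, 771, 798, 0, 1)]

def h7 : sheet 168 168 389 38683 59 43 l7 = true := by decide +kernel

def l8 : List (Nat × Nat × Nat × Nat × Nat) :=
  [(1, 798, 819, 0, 1)]

def h8 : sheet 168 168 395 40447 59 43 l8 = true := by decide +kernel

def l9 : List (Nat × Nat × Nat × Nat × Nat) :=
  [(1, 819, 840, 0, 1)]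

def g9 : KL.sheet 168 168 399 42211 59 43 l9 = true := by decide +kernel

theorem h9 : sheet 168 168 399 42211 59 43 l9 = true := KL.sheet_ok g9

theorem cv : Nat.ble 840 (cov 168 (l0 ++ (l1 ++ (l2 ++ (l3 ++ (l4 ++ (l5 ++ (l6 ++ (l7 ++ (l8 ++ (l9)))))))))) 0 0 0) = true := by decide +kernel

end Pool.Agent.SignedQ.KE.K168
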