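import Pool.Agent.Lib.MP_cf17a0_co.S1.FD.K182

set_option autoImplicit false
set_option maxRecDepth 100000

namespace Pool.Agent.SignedQ.KE.K169

def l0 : List (Nat × Nat × Nat × Nat × Nat) :=
  [(1, 0, 570, 0, 1)]

def h0 : sheet 169 169 312 19478 58 43 l0 = true := by decide +kernel

def l1 : List (Nat × Nat × Nat × Nat × Nat) :=
  [(1, 570, 621, 0, 1)]

def h1 : sheet 169 169 342 23788 58 43 l1 = true := by decide +kernel

def l2 : List (Nat × Nat × Nat × Nat × Nat) :=
  [(1, 621, 663, 0, 1)]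

def h2 : sheet 169 169 358 27337 58 43 l2 = true := by decide +kernel

def l3 : List (Nat × Nat × Nat × Nat × Nat) :=
  [(1, 663, 696, 0, 1)]

def h3 : sheet 169 169 361 30125 58 43 l3 = true := by decide +kernel

def l4 : List (Nat × Nat × Nat × Nat × Nat) :=
  [(1, 696, 729, 0, 1)]

def h4 : sheet 169 169 380 32914 59 43 l4 = true := by decide +kernel

def l5 : List (Nat × Nat × Nat × Nat × Nat) :=
  [(1, 729, 756, 0, 1)]

def h5 : sheet 169 169 379 35195 59 43 l5 = true := by decide +kernel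

def l6 : List (Nat × Nat × Nat × Nat × Nat) :=
  [(1, 756, 783, 0, 1)]

def h6 : sheet 169 169 394 37477 59 43 l6 = true := by decide +kernel

def l7 : List (Nat × Nat × Nat × Nat × Nat) :=
  [(1, 783, 804, 0, 1)]

def h7 : sheet 169 169 391 39251 59 43 l7 = true := by decide +kernel

def l8 : List (Nat × Nat × Nat × Nat × Nat) :=
  [(1, 804, 825, 0, 1)]

def h8 : sheet 169 169 404 41026 59 43 l8 = true := by decide +kernel

def l9 : List (Nat × Nat × Nat × Nat × Nat) :=
  [(1, 825, 845, 0, 1)]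

def g9 : KL.sheet 169 169 401 42800 59 43 l9 = true := by decide +kernel

theorem h9 : sheet 169 169 401 42800 59 43 l9 = true := KL.sheet_ok g9

theorem cv : Nat.ble 845 (cov 169 (l0 ++ (l1 ++ (l2 ++ (l3 ++ (l4 ++ (l5 ++ (l6 ++ (l7 ++ (l8 ++ (l9)))))))))) 0 0 0) = true := by decide +kernel

end Pool.Agent.SignedQ.KE.K169
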