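import Pool.Agent.Lib.MP_cf17a0_co.S1.FD.K179

set_option autoImplicit false
set_option maxRecDepth 100000

namespace Pool.Agent.SignedQ.KE.K172

def l0 : List (Nat × Nat × Nat × Nat × Nat) :=
  [(1, 0, 576, 0, 1)]

def h0 : sheet 172 172 314 19824 59 44 l0 = true := by decide +kernel

def l1 : List (Nat × Nat × Nat × Nat × Nat) :=
  [(1, 576, 624, 0, 1)]

def h1 : sheet 172 172 337 23952 59 44 l1 = true := by decide +kernel

def l2 : List (Nat × Nat × Nat × Nat × Nat) :=
  [(1, 624, 660, 0, 1)]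

def h2 : sheet 172 172 351 27048 59 44 l2 = true := by decide +kernel

def l3 : List (Nat × Nat × Nat × Nat × Nat) :=
  [(1, 660, 693, 0, 1)]

def h3 : sheet 172 172 364 29886 59 44 l3 = true := by decide +kernel

def l4 : List (Nat × Nat × Nat × Nat × Nat) :=
  [(1, 693, 726, 0, 1)]

def h4 : sheet 172 172 373 32724 59 44 l4 = true := by decide +kernel

def l5 : List (Nat × Nat × Nat × Nat × Nat) :=
  [(1, 726, 753, 0, 1)]

def h5 : sheet 172 172 382 35046 60 44 l5 = true := by decide +kernel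

def l6 : List (Nat × Nat × Nat × Nat × Nat) :=
  [(1, 753, 780, 0, 1)]

def h6 : sheet 172 172 389 37368 60 44 l6 = true := by decide +kernel

def l7 : List (Nat × Nat × Nat × Nat × Nat) :=
  [(1, 780, 801, 0, 1)]

def h7 : sheet 172 172 395 39174 60 44 l7 = true := by decide +kernel

def l8 : List (Nat × Nat × Nat × Nat × Nat) :=
  [(1, 801, 822, 0, 1)]

def h8 : sheet 172 172 399 40980 60 44 l8 = true := by decide +kernel

def l9 : List (Nat × Nat × Nat × Nat × Nat) :=
  [(1, 822, 843, 0, 1)]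

def g9 : KL.sheet 172 172 405 42786 60 44 l9 = true := by decide +kernel

theorem h9 : sheet 172 172 405 42786 60 44 l9 = true := KL.sheet_ok g9

def l10 : List (Nat × Nat × Nat × Nat × Nat) :=
  [(1, 843, 860, 0, 1)]

def g10 : KL.sheet 172 172 409 44334 60 44 l10 = true := by decide +kernel

theorem h10 : sheet 172 172 409 44334 60 44 l10 = true := KL.sheet_ok g10

theorem cv : Nat.ble 860 (cov 172 (l0 ++ (l1 ++ (l2 ++ (l3 ++ (l4 ++ (l5 ++ (l6 ++ (l7 ++ (l8 ++ (l9 ++ (l10))))))))))) 0 0 0) = true := by decide +kernel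

end Pool.Agent.SignedQ.KE.K172
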