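import Pool.Agent.Lib.MP_cf17a0_co.S1.FD.K178

set_option autoImplicit false
set_option maxRecDepth 100000

namespace Pool.Agent.SignedQ.KE.K173

def l0 : List (Nat × Nat × Nat × Nat × Nat) :=
  [(1, 0, 582, 0, 1)]

def h0 : sheet 173 173 318 20285 59 44 l0 = true := by decide +kernel

def l1 : List (Nat × Nat × Nat × Nat × Nat) :=
  [(1, 582, 630, 0, 1)]

def h1 : sheet 173 173 340 24437 59 44 l1 = true := by decide +kernel

def l2 : List (Nat × Nat × Nat × Nat × Nat) :=
  [(1, 630, 669, 0, 1)]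

def h2 : sheet 173 173 363 27811 59 44 l2 = true := by decide +kernel

def l3 : List (Nat × Nat × Nat × Nat × Nat) :=
  [(1, 669, 702, 0, 1)]

def h3 : sheet 173 173 366 30665 59 44 l3 = true := by decide +kernel

def l4 : List (Nat × Nat × Nat × Nat × Nat) :=
  [(1, 702, 729, 0, 1)]

def h4 : sheet 173 173 383 33001 60 44 l4 = true := by decide +kernel

def l5 : List (Nat × Nat × Nat × Nat × Nat) :=
  [(1, 729, 756, 0, 1)]

def h5 : sheet 173 173 383 35336 60 44 l5 = true := by decide +kernel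

def l6 : List (Nat × Nat × Nat × Nat × Nat) :=
  [(1, 756, 783, 0, 1)]

def h6 : sheet 173 173 398 37672 60 44 l6 = true := by decide +kernel

def l7 : List (Nat × Nat × Nat × Nat × Nat) :=
  [(1, 783, 804, 0, 1)]

def h7 : sheet 173 173 396 39488 60 44 l7 = true := by decide +kernel

def l8 : List (Nat × Nat × Nat × Nat × Nat) :=
  [(1, 804, 825, 0, 1)]

def g8 : KL.sheet 173 173 409 41305 60 44 l8 = true := by decide +kernel

theorem h8 : sheet 173 173 409 41305 60 44 l8 = true := KL.sheet_ok g8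

def l9 : List (Nat × Nat × Nat × Nat × Nat) :=
  [(1, 825, 846, 0, 1)]

def g9 : KL.sheet 173 173 406 43121 60 44 l9 = true := by decide +kernel

theorem h9 : sheet 173 173 406 43121 60 44 l9 = true := KL.sheet_ok g9

def l10 : List (Nat × Nat × Nat × Nat × Nat) :=
  [(1, 846, 865, 0, 1)]

def g10 : KL.sheet 173 173 419 44938 60 44 l10 = true := by decide +kernel

theorem h10 : sheet 173 173 419 44938 60 44 l10 = true := KL.sheet_ok g10

theorem cv : Nat.ble 865 (cov 173 (l0 ++ (l1 ++ (l2 ++ (l3 ++ (l4 ++ (l5 ++ (l6 ++ (l7 ++ (l8 ++ (l9 ++ (l10))))))))))) 0 0 0) = true := by decide +kernel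

end Pool.Agent.SignedQ.KE.K173
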