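import Pool.Agent.Lib.MP_cf17a0_co.S1.FD.K177

set_option autoImplicit false
set_option maxRecDepth 100000

namespace Pool.Agent.SignedQ.KE.K174

def l0 : List (Nat × Nat × Nat × Nat × Nat) :=
  [(1, 0, 582, 0, 1)]

def h0 : sheet 174 174 317 20228 59 44 l0 = true := by decide +kernel

def l1 : List (Nat × Nat × Nat × Nat × Nat) :=
  [(1, 582, 630, 0, 1)]

def h1 : sheet 174 174 340 24404 59 44 l1 = true := by decide +kernel

def l2 : List (Nat × Nat × Nat × Nat × Nat) :=
  [(1, 630, 666, 0, 1)]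

def h2 : sheet 174 174 354 27536 59 44 l2 = true := by decide +kernel

def l3 : List (Nat × Nat × Nat × Nat × Nat) :=
  [(1, 666, 699, 0, 1)]

def h3 : sheet 174 174 367 30407 59 44 l3 = true := by decide +kernel

def l4 : List (Nat × Nat × Nat × Nat × Nat) :=
  [(1, 699, 732, 0, 1)]

def h4 : sheet 174 174 377 33278 60 44 l4 = true := by decide +kernel

def l5 : List (Nat × Nat × Nat × Nat × Nat) :=
  [(1, 732, 759, 0, 1)]

def h5 : sheet 174 174 386 35627 60 44 l5 = true := by decide +kernel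

def l6 : List (Nat × Nat × Nat × Nat × Nat) :=
  [(1, 759, 786, 0, 1)]

def h6 : sheet 174 174 392 37976 60 44 l6 = true := by decide +kernel

def l7 : List (Nat × Nat × Nat × Nat × Nat) :=
  [(1, 786, 807, 0, 1)]

def h7 : sheet 174 174 398 39803 60 44 l7 = true := by decide +kernel

def l8 : List (Nat × Nat × Nat × Nat × Nat) :=
  [(1, 807, 828, 0, 1)]

def g8 : KL.sheet 174 174 402 41630 60 44 l8 = true := by decide +kernel

theorem h8 : sheet 174 174 402 41630 60 44 l8 = true := KL.sheet_ok g8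

def l9 : List (Nat × Nat × Nat × Nat × Nat) :=
  [(1, 828, 849, 0, 1)]

def g9 : KL.sheet 174 174 408 43457 60 44 l9 = true := by decide +kernel

theorem h9 : sheet 174 174 408 43457 60 44 l9 = true := KL.sheet_ok g9

def l10 : List (Nat × Nat × Nat × Nat × Nat) :=
  [(1, 849, 870, 0, 1)]

def g10 : KL.sheet 174 174 412 45284 60 44 l10 = true := by decide +kernel

theorem h10 : sheet 174 174 412 45284 60 44 l10 = true := KL.sheet_ok g10

theorem cv : Nat.ble 870 (cov 174 (l0 ++ (l1 ++ (l2 ++ (l3 ++ (l4 ++ (l5 ++ (l6 ++ (l7 ++ (l8 ++ (l9 ++ (l10))))))))))) 0 0 0) = true := by decide +kernel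

end Pool.Agent.SignedQ.KE.K174
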