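import Pool.Agent.Lib.MP_cf17a0_co.S1.FD.K176

set_option autoImplicit false
set_option maxRecDepth 100000

namespace Pool.Agent.SignedQ.KE.K175

def l0 : List (Nat × Nat × Nat × Nat × Nat) :=
  [(1, 0, 561, 0, 1)]

def h0 : sheet 175 175 312 18332 60 45 l0 = true := by decide +kernel

def l1 : List (Nat × Nat × Nat × Nat × Nat) :=
  [(1, 561, 609, 0, 1)]

def h1 : sheet 175 175 339 22532 60 45 l1 = true := by decide +kernel

def l2 : List (Nat × Nat × Nat × Nat × Nat) :=
  [(1, 609, 654, 0, 1)]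

def h2 : sheet 175 175 351 26470 60 45 l2 = true := by decide +kernel

def l3 : List (Nat × Nat × Nat × Nat × Nat) :=
  [(1, 654, 687, 0, 1)]

def h3 : sheet 175 175 371 29357 60 45 l3 = true := by decide +kernel

def l4 : List (Nat × Nat × Nat × Nat × Nat) :=
  [(1, 687, 720, 0, 1)]

def h4 : sheet 175 175 374 32245 60 45 l4 = true := by decide +kernel

def l5 : List (Nat × Nat × Nat × Nat × Nat) :=
  [(1, 720, 747, 0, 1)]

def h5 : sheet 175 175 391 34607 61 45 l5 = true := by decide +kernel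

def l6 : List (Nat × Nat × Nat × Nat × Nat) :=
  [(1, 747, 774, 0, 1)]

def h6 : sheet 175 175 391 36970 61 45 l6 = true := by decide +kernel

def l7 : List (Nat × Nat × Nat × Nat × Nat) :=
  [(1, 774, 795, 0, 1)]

def h7 : sheet 175 175 404 38807 61 45 l7 = true := by decide +kernel

def l8 : List (Nat × Nat × Nat × Nat × Nat) :=
  [(1, 795, 816, 0, 1)]

def h8 : sheet 175 175 402 40645 61 45 l8 = true := by decide +kernel

def l9 : List (Nat × Nat × Nat × Nat × Nat) :=
  [(1, 816, 837, 0, 1)]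

def g9 : KL.sheet 175 175 415 42482 61 45 l9 = true := by decide +kernel

theorem h9 : sheet 175 175 415 42482 61 45 l9 = true := KL.sheet_ok g9

def l10 : List (Nat × Nat × Nat × Nat × Nat) :=
  [(1, 837, 855, 0, 1)]

def g10 : KL.sheet 175 175 419 44057 61 45 l10 = true := by decide +kernel

theorem h10 : sheet 175 175 419 44057 61 45 l10 = true := KL.sheet_ok g10

def l11 : List (Nat × Nat × Nat × Nat × Nat) :=
  [(1, 855, 875, 0, 1)]

def g11 : KL.sheet 175 175 415 45895 61 45 l11 = true := by decide +kernel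

theorem h11 : sheet 175 175 415 45895 61 45 l11 = true := KL.sheet_ok g11

theorem cv : Nat.ble 875 (cov 175 (l0 ++ (l1 ++ (l2 ++ (l3 ++ (l4 ++ (l5 ++ (l6 ++ (l7 ++ (l8 ++ (l9 ++ (l10 ++ (l11)))))))))))) 0 0 0) = true := by decide +kernel

end Pool.Agent.SignedQ.KE.K175
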