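import Pool.Agent.Lib.MP_cf17a0_co.S1.FD.K184

set_option autoImplicit false
set_option maxRecDepth 100000

namespace Pool.Agent.SignedQ.KE.K176

def l0 : List (Nat × Nat × Nat × Nat × Nat) :=
  [(1, 0, 582, 0, 1)]

def h0 : sheet 176 176 317 20109 60 45 l0 = true := by decide +kernel

def l1 : List (Nat × Nat × Nat × Nat × Nat) :=
  [(1, 582, 627, 0, 1)]

def h1 : sheet 176 176 341 24069 60 45 l1 = true := by decide +kernel

def l2 : List (Nat × Nat × Nat × Nat × Nat) :=
  [(1, 627, 663, 0, 1)]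

def h2 : sheet 176 176 356 27237 60 45 l2 = true := by decide +kernel

def l3 : List (Nat × Nat × Nat × Nat × Nat) :=
  [(1, 663, 696, 0, 1)]

def h3 : sheet 176 176 366 30141 60 45 l3 = true := by decide +kernel

def l4 : List (Nat × Nat × Nat × Nat × Nat) :=
  [(1, 696, 729, 0, 1)]

def h4 : sheet 176 176 379 33045 61 45 l4 = true := by decide +kernel

def l5 : List (Nat × Nat × Nat × Nat × Nat) :=
  [(1, 729, 756, 0, 1)]

def h5 : sheet 176 176 386 35421 61 45 l5 = true := by decide +kernel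

def l6 : List (Nat × Nat × Nat × Nat × Nat) :=
  [(1, 756, 783, 0, 1)]

def h6 : sheet 176 176 395 37797 61 45 l6 = true := by decide +kernel

def l7 : List (Nat × Nat × Nat × Nat × Nat) :=
  [(1, 783, 804, 0, 1)]

def h7 : sheet 176 176 399 39645 61 45 l7 = true := by decide +kernel

def l8 : List (Nat × Nat × Nat × Nat × Nat) :=
  [(1, 804, 825, 0, 1)]

def g8 : KL.sheet 176 176 405 41493 61 45 l8 = true := by decide +kernel

theorem h8 : sheet 176 176 405 41493 61 45 l8 = true := KL.sheet_ok g8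

def l9 : List (Nat × Nat × Nat × Nat × Nat) :=
  [(1, 825, 846, 0, 1)]

def g9 : KL.sheet 176 176 410 43341 61 45 l9 = true := by decide +kernel

theorem h9 : sheet 176 176 410 43341 61 45 l9 = true := KL.sheet_ok g9

def l10 : List (Nat × Nat × Nat × Nat × Nat) :=
  [(1, 846, 864, 0, 1)]

def g10 : KL.sheet 176 176 414 44925 61 45 l10 = true := by decide +kernel

theorem h10 : sheet 176 176 414 44925 61 45 l10 = true := KL.sheet_ok g10

def l11 : List (Nat × Nat × Nat × Nat × Nat) :=
  [(1, 864, 880, 0, 1)]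

def g11 : KL.sheet 176 176 418 46509 61 45 l11 = true := by decide +kernel

theorem h11 : sheet 176 176 418 46509 61 45 l11 = true := KL.sheet_ok g11

theorem cv : Nat.ble 880 (cov 176 (l0 ++ (l1 ++ (l2 ++ (l3 ++ (l4 ++ (l5 ++ (l6 ++ (l7 ++ (l8 ++ (l9 ++ (l10 ++ (l11)))))))))))) 0 0 0) = true := by decide +kernel

end Pool.Agent.SignedQ.KE.K176
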