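import Pool.Agent.Lib.MP_cf17a0_co.S1.FD.K185

set_option autoImplicit false
set_option maxRecDepth 100000

namespace Pool.Agent.SignedQ.KE.K177

def l0 : List (Nat × Nat × Nat × Nat × Nat) :=
  [(1, 0, 588, 0, 1)]

def h0 : sheet 177 177 321 20577 60 45 l0 = true := by decide +kernel

def l1 : List (Nat × Nat × Nat × Nat × Nat) :=
  [(1, 588, 636, 0, 1)]

def h1 : sheet 177 177 345 24825 60 45 l1 = true := by decide +kernel

def l2 : List (Nat × Nat × Nat × Nat × Nat) :=
  [(1, 636, 672, 0, 1)]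

def h2 : sheet 177 177 359 28011 60 45 l2 = true := by decide +kernel

def l3 : List (Nat × Nat × Nat × Nat × Nat) :=
  [(1, 672, 705, 0, 1)]

def h3 : sheet 177 177 378 30932 60 45 l3 = true := by decide +kernel

def l4 : List (Nat × Nat × Nat × Nat × Nat) :=
  [(1, 705, 732, 0, 1)]

def h4 : sheet 177 177 380 33321 61 45 l4 = true := by decide +kernel

def l5 : List (Nat × Nat × Nat × Nat × Nat) :=
  [(1, 732, 759, 0, 1)]

def h5 : sheet 177 177 396 35711 61 45 l5 = true := by decide +kernel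

def l6 : List (Nat × Nat × Nat × Nat × Nat) :=
  [(1, 759, 786, 0, 1)]

def h6 : sheet 177 177 396 38100 61 45 l6 = true := by decide +kernel

def l7 : List (Nat × Nat × Nat × Nat × Nat) :=
  [(1, 786, 807, 0, 1)]

def h7 : sheet 177 177 409 39959 61 45 l7 = true := by decide +kernel

def l8 : List (Nat × Nat × Nat × Nat × Nat) :=
  [(1, 807, 828, 0, 1)]

def g8 : KL.sheet 177 177 406 41817 61 45 l8 = true := by decide +kernel

theorem h8 : sheet 177 177 406 41817 61 45 l8 = true := KL.sheet_ok g8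

def l9 : List (Nat × Nat × Nat × Nat × Nat) :=
  [(1, 828, 849, 0, 1)]

def g9 : KL.sheet 177 177 419 43676 61 45 l9 = true := by decide +kernel

theorem h9 : sheet 177 177 419 43676 61 45 l9 = true := KL.sheet_ok g9

def l10 : List (Nat × Nat × Nat × Nat × Nat) :=
  [(1, 849, 867, 0, 1)]

def g10 : KL.sheet 177 177 423 45269 61 45 l10 = true := by decide +kernel

theorem h10 : sheet 177 177 423 45269 61 45 l10 = true := KL.sheet_ok g10

def l11 : List (Nat × Nat × Nat × Nat × Nat) :=
  [(1, 867, 885, 0, 1)]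

def g11 : KL.sheet 177 177 427 46862 61 45 l11 = true := by decide +kernel

theorem h11 : sheet 177 177 427 46862 61 45 l11 = true := KL.sheet_ok g11

theorem cv : Nat.ble 885 (cov 177 (l0 ++ (l1 ++ (l2 ++ (l3 ++ (l4 ++ (l5 ++ (l6 ++ (l7 ++ (l8 ++ (l9 ++ (l10 ++ (l11)))))))))))) 0 0 0) = true := by decide +kernel

end Pool.Agent.SignedQ.KE.K177
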