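import Pool.Agent.Lib.MP_cf17a0_co.S1.FD.K186

set_option autoImplicit false
set_option maxRecDepth 100000

namespace Pool.Agent.SignedQ.KE.K178

def l0 : List (Nat × Nat × Nat × Nat × Nat) :=
  [(1, 0, 567, 0, 1)]

def h0 : sheet 178 178 308 18646 60 45 l0 = true := by decide +kernel

def l1 : List (Nat × Nat × Nat × Nat × Nat) :=
  [(1, 567, 612, 0, 1)]

def h1 : sheet 178 178 333 22651 60 45 l1 = true := by decide +kernel

def l2 : List (Nat × Nat × Nat × Nat × Nat) :=
  [(1, 612, 654, 0, 1)]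

def h2 : sheet 178 178 351 26389 60 45 l2 = true := by decide +kernel

def l3 : List (Nat × Nat × Nat × Nat × Nat) :=
  [(1, 654, 687, 0, 1)]

def h3 : sheet 178 178 365 29326 60 45 l3 = true := by decide +kernel

def l4 : List (Nat × Nat × Nat × Nat × Nat) :=
  [(1, 687, 720, 0, 1)]

def h4 : sheet 178 178 375 32263 60 45 l4 = true := by decide +kernel

def l5 : List (Nat × Nat × Nat × Nat × Nat) :=
  [(1, 720, 747, 0, 1)]

def h5 : sheet 178 178 386 34666 61 45 l5 = true := by decide +kernel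

def l6 : List (Nat × Nat × Nat × Nat × Nat) :=
  [(1, 747, 774, 0, 1)]

def h6 : sheet 178 178 393 37069 61 45 l6 = true := by decide +kernel

def l7 : List (Nat × Nat × Nat × Nat × Nat) :=
  [(1, 774, 795, 0, 1)]

def h7 : sheet 178 178 399 38938 61 45 l7 = true := by decide +kernel

def l8 : List (Nat × Nat × Nat × Nat × Nat) :=
  [(1, 795, 816, 0, 1)]

def h8 : sheet 178 178 404 40807 61 45 l8 = true := by decide +kernel

def l9 : List (Nat × Nat × Nat × Nat × Nat) :=
  [(1, 816, 837, 0, 1)]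

def g9 : KL.sheet 178 178 410 42676 61 45 l9 = true := by decide +kernel

theorem h9 : sheet 178 178 410 42676 61 45 l9 = true := KL.sheet_ok g9

def l10 : List (Nat × Nat × Nat × Nat × Nat) :=
  [(1, 837, 855, 0, 1)]

def g10 : KL.sheet 178 178 414 44278 61 45 l10 = true := by decide +kernel

theorem h10 : sheet 178 178 414 44278 61 45 l10 = true := KL.sheet_ok g10

def l11 : List (Nat × Nat × Nat × Nat × Nat) :=
  [(1, 855, 873, 0, 1)]

def g11 : KL.sheet 178 178 418 45880 61 45 l11 = true := by decide +kernel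

theorem h11 : sheet 178 178 418 45880 61 45 l11 = true := KL.sheet_ok g11

def l12 : List (Nat × Nat × Nat × Nat × Nat) :=
  [(1, 873, 890, 0, 1)]

def g12 : KL.sheet 178 178 422 47482 61 45 l12 = true := by decide +kernel

theorem h12 : sheet 178 178 422 47482 61 45 l12 = true := KL.sheet_ok g12

theorem cv : Nat.ble 890 (cov 178 (l0 ++ (l1 ++ (l2 ++ (l3 ++ (l4 ++ (l5 ++ (l6 ++ (l7 ++ (l8 ++ (l9 ++ (l10 ++ (l11 ++ (l12))))))))))))) 0 0 0) = true := by decide +kernel

end Pool.Agent.SignedQ.KE.K178
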