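import Pool.Agent.Lib.MP_cf17a0_co.S1.FD.K188

set_option autoImplicit false
set_option maxRecDepth 100000

namespace Pool.Agent.SignedQ.KE.K179

def l0 : List (Nat × Nat × Nat × Nat × Nat) :=
  [(1, 0, 570, 0, 1)]

def h0 : sheet 179 179 310 18841 61 46 l0 = true := by decide +kernel

def l1 : List (Nat × Nat × Nat × Nat × Nat) :=
  [(1, 570, 618, 0, 1)]

def h1 : sheet 179 179 337 23137 61 46 l1 = true := by decide +kernel

def l2 : List (Nat × Nat × Nat × Nat × Nat) :=
  [(1, 618, 660, 0, 1)]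

def h2 : sheet 179 179 356 26896 61 46 l2 = true := by decide +kernel

def l3 : List (Nat × Nat × Nat × Nat × Nat) :=
  [(1, 660, 693, 0, 1)]

def h3 : sheet 179 179 376 29849 61 46 l3 = true := by decide +kernel

def l4 : List (Nat × Nat × Nat × Nat × Nat) :=
  [(1, 693, 726, 0, 1)]

def h4 : sheet 179 179 380 32803 62 46 l4 = true := by decide +kernel

def l5 : List (Nat × Nat × Nat × Nat × Nat) :=
  [(1, 726, 753, 0, 1)]

def h5 : sheet 179 179 396 35219 62 46 l5 = true := by decide +kernel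

def l6 : List (Nat × Nat × Nat × Nat × Nat) :=
  [(1, 753, 780, 0, 1)]

def h6 : sheet 179 179 396 37636 62 46 l6 = true := by decide +kernel

def l7 : List (Nat × Nat × Nat × Nat × Nat) :=
  [(1, 780, 801, 0, 1)]

def h7 : sheet 179 179 410 39515 62 46 l7 = true := by decide +kernel

def l8 : List (Nat × Nat × Nat × Nat × Nat) :=
  [(1, 801, 822, 0, 1)]

def g8 : KL.sheet 179 179 407 41395 62 46 l8 = true := by decide +kernel

theorem h8 : sheet 179 179 407 41395 62 46 l8 = true := KL.sheet_ok g8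

def l9 : List (Nat × Nat × Nat × Nat × Nat) :=
  [(1, 822, 843, 0, 1)]

def g9 : KL.sheet 179 179 421 43274 62 46 l9 = true := by decide +kernel

theorem h9 : sheet 179 179 421 43274 62 46 l9 = true := KL.sheet_ok g9

def l10 : List (Nat × Nat × Nat × Nat × Nat) :=
  [(1, 843, 861, 0, 1)]

def g10 : KL.sheet 179 179 425 44885 62 46 l10 = true := by decide +kernel

theorem h10 : sheet 179 179 425 44885 62 46 l10 = true := KL.sheet_ok g10

def l11 : List (Nat × Nat × Nat × Nat × Nat) :=
  [(1, 861, 879, 0, 1)]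

def g11 : KL.sheet 179 179 429 46496 62 46 l11 = true := by decide +kernel

theorem h11 : sheet 179 179 429 46496 62 46 l11 = true := KL.sheet_ok g11

def l12 : List (Nat × Nat × Nat × Nat × Nat) :=
  [(1, 879, 895, 0, 1)]

def g12 : KL.sheet 179 179 433 48107 62 46 l12 = true := by decide +kernel

theorem h12 : sheet 179 179 433 48107 62 46 l12 = true := KL.sheet_ok g12

theorem cv : Nat.ble 895 (cov 179 (l0 ++ (l1 ++ (l2 ++ (l3 ++ (l4 ++ (l5 ++ (l6 ++ (l7 ++ (l8 ++ (l9 ++ (l10 ++ (l11 ++ (l12))))))))))))) 0 0 0) = true := by decide +kernel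

end Pool.Agent.SignedQ.KE.K179
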