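import Pool.Agent.Lib.MP_cf17a0_co.S1.FD.K189

set_option autoImplicit false
set_option maxRecDepth 100000

namespace Pool.Agent.SignedQ.KE.K180

def l0 : List (Nat × Nat × Nat × Nat × Nat) :=
  [(1, 0, 594, 0, 1)]

def h0 : sheet 180 180 323 20926 61 46 l0 = true := by decide +kernel

def l1 : List (Nat × Nat × Nat × Nat × Nat) :=
  [(1, 594, 639, 0, 1)]

def h1 : sheet 180 180 348 24976 61 46 l1 = true := by decide +kernel

def l2 : List (Nat × Nat × Nat × Nat × Nat) :=
  [(1, 639, 675, 0, 1)]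

def h2 : sheet 180 180 362 28216 61 46 l2 = true := by decide +kernel

def l3 : List (Nat × Nat × Nat × Nat × Nat) :=
  [(1, 675, 708, 0, 1)]

def h3 : sheet 180 180 373 31186 61 46 l3 = true := by decide +kernel

def l4 : List (Nat × Nat × Nat × Nat × Nat) :=
  [(1, 708, 735, 0, 1)]

def h4 : sheet 180 180 384 33616 62 46 l4 = true := by decide +kernel

def l5 : List (Nat × Nat × Nat × Nat × Nat) :=
  [(1, 735, 762, 0, 1)]

def h5 : sheet 180 180 392 36046 62 46 l5 = true := by decide +kernel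

def l6 : List (Nat × Nat × Nat × Nat × Nat) :=
  [(1, 762, 783, 0, 1)]

def h6 : sheet 180 180 399 37936 62 46 l6 = true := by decide +kernel

def l7 : List (Nat × Nat × Nat × Nat × Nat) :=
  [(1, 783, 804, 0, 1)]

def h7 : sheet 180 180 403 39826 62 46 l7 = true := by decide +kernel

def l8 : List (Nat × Nat × Nat × Nat × Nat) :=
  [(1, 804, 825, 0, 1)]

def g8 : KL.sheet 180 180 410 41716 62 46 l8 = true := by decide +kernel

theorem h8 : sheet 180 180 410 41716 62 46 l8 = true := KL.sheet_ok g8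

def l9 : List (Nat × Nat × Nat × Nat × Nat) :=
  [(1, 825, 846, 0, 1)]

def g9 : KL.sheet 180 180 414 43606 62 46 l9 = true := by decide +kernel

theorem h9 : sheet 180 180 414 43606 62 46 l9 = true := KL.sheet_ok g9

def l10 : List (Nat × Nat × Nat × Nat × Nat) :=
  [(1, 846, 864, 0, 1)]

def g10 : KL.sheet 180 180 418 45226 62 46 l10 = true := by decide +kernel

theorem h10 : sheet 180 180 418 45226 62 46 l10 = true := KL.sheet_ok g10

def l11 : List (Nat × Nat × Nat × Nat × Nat) :=
  [(1, 864, 882, 0, 1)]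

def g11 : KL.sheet 180 180 423 46846 62 46 l11 = true := by decide +kernel

theorem h11 : sheet 180 180 423 46846 62 46 l11 = true := KL.sheet_ok g11

def l12 : List (Nat × Nat × Nat × Nat × Nat) :=
  [(1, 882, 900, 0, 1)]

def g12 : KL.sheet 180 180 427 48466 62 46 l12 = true := by decide +kernel

theorem h12 : sheet 180 180 427 48466 62 46 l12 = true := KL.sheet_ok g12

theorem cv : Nat.ble 900 (cov 180 (l0 ++ (l1 ++ (l2 ++ (l3 ++ (l4 ++ (l5 ++ (l6 ++ (l7 ++ (l8 ++ (l9 ++ (l10 ++ (l11 ++ (l12))))))))))))) 0 0 0) = true := by decide +kernel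

end Pool.Agent.SignedQ.KE.K180
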