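import Pool.Agent.Lib.MP_cf17a0_co.S1.FD.K187

set_option autoImplicit false
set_option maxRecDepth 100000

namespace Pool.Agent.SignedQ.KE.K182

def l0 : List (Nat × Nat × Nat × Nat × Nat) :=
  [(1, 0, 564, 0, 1)]

def h0 : sheet 182 182 302 18064 62 47 l0 = true := by decide +kernel

def l1 : List (Nat × Nat × Nat × Nat × Nat) :=
  [(1, 564, 618, 0, 1)]

def h1 : sheet 182 182 337 22978 62 47 l1 = true := by decide +kernel

def l2 : List (Nat × Nat × Nat × Nat × Nat) :=
  [(1, 618, 654, 0, 1)]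

def h2 : sheet 182 182 354 26254 62 47 l2 = true := by decide +kernel

def l3 : List (Nat × Nat × Nat × Nat × Nat) :=
  [(1, 654, 690, 0, 1)]

def h3 : sheet 182 182 369 29530 62 47 l3 = true := by decide +kernel

def l4 : List (Nat × Nat × Nat × Nat × Nat) :=
  [(1, 690, 723, 0, 1)]

def h4 : sheet 182 182 381 32533 62 47 l4 = true := by decide +kernel

def l5 : List (Nat × Nat × Nat × Nat × Nat) :=
  [(1, 723, 750, 0, 1)]

def h5 : sheet 182 182 390 34990 63 47 l5 = true := by decide +kernel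

def l6 : List (Nat × Nat × Nat × Nat × Nat) :=
  [(1, 750, 777, 0, 1)]

def h6 : sheet 182 182 399 37447 63 47 l6 = true := by decide +kernel

def l7 : List (Nat × Nat × Nat × Nat × Nat) :=
  [(1, 777, 798, 0, 1)]

def h7 : sheet 182 182 404 39358 63 47 l7 = true := by decide +kernel

def l8 : List (Nat × Nat × Nat × Nat × Nat) :=
  [(1, 798, 819, 0, 1)]

def g8 : KL.sheet 182 182 411 41269 63 47 l8 = true := by decide +kernel

theorem h8 : sheet 182 182 411 41269 63 47 l8 = true := KL.sheet_ok g8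

def l9 : List (Nat × Nat × Nat × Nat × Nat) :=
  [(1, 819, 840, 0, 1)]

def g9 : KL.sheet 182 182 415 43180 63 47 l9 = true := by decide +kernel

theorem h9 : sheet 182 182 415 43180 63 47 l9 = true := KL.sheet_ok g9

def l10 : List (Nat × Nat × Nat × Nat × Nat) :=
  [(1, 840, 858, 0, 1)]

def g10 : KL.sheet 182 182 420 44818 63 47 l10 = true := by decide +kernel

theorem h10 : sheet 182 182 420 44818 63 47 l10 = true := KL.sheet_ok g10

def l11 : List (Nat × Nat × Nat × Nat × Nat) :=
  [(1, 858, 876, 0, 1)]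

def g11 : KL.sheet 182 182 424 46456 63 47 l11 = true := by decide +kernel

theorem h11 : sheet 182 182 424 46456 63 47 l11 = true := KL.sheet_ok g11

def l12 : List (Nat × Nat × Nat × Nat × Nat) :=
  [(1, 876, 894, 0, 1)]

def g12 : KL.sheet 182 182 428 48094 63 47 l12 = true := by decide +kernel

theorem h12 : sheet 182 182 428 48094 63 47 l12 = true := KL.sheet_ok g12

def l13 : List (Nat × Nat × Nat × Nat × Nat) :=
  [(1, 894, 910, 0, 1)]

def g13 : KL.sheet 182 182 432 49732 63 47 l13 = true := by decide +kernel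

theorem h13 : sheet 182 182 432 49732 63 47 l13 = true := KL.sheet_ok g13

theorem cv : Nat.ble 910 (cov 182 (l0 ++ (l1 ++ (l2 ++ (l3 ++ (l4 ++ (l5 ++ (l6 ++ (l7 ++ (l8 ++ (l9 ++ (l10 ++ (l11 ++ (l12 ++ (l13)))))))))))))) 0 0 0) = true := by decide +kernel

end Pool.Agent.SignedQ.KE.K182
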