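import Pool.Agent.Lib.MP_cf17a0_co.S1.FD.K190

set_option autoImplicit false
set_option maxRecDepth 100000

namespace Pool.Agent.SignedQ.KE.K183

def l0 : List (Nat × Nat × Nat × Nat × Nat) :=
  [(1, 0, 600, 0, 1)]

def h0 : sheet 183 183 328 21275 62 47 l0 = true := by decide +kernel

def l1 : List (Nat × Nat × Nat × Nat × Nat) :=
  [(1, 600, 642, 0, 1)]

def h1 : sheet 183 183 350 25118 62 47 l1 = true := by decide +kernel

def l2 : List (Nat × Nat × Nat × Nat × Nat) :=
  [(1, 642, 675, 0, 1)]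

def h2 : sheet 183 183 371 28137 62 47 l2 = true := by decide +kernel

def l3 : List (Nat × Nat × Nat × Nat × Nat) :=
  [(1, 675, 708, 0, 1)]

def h3 : sheet 183 183 376 31157 62 47 l3 = true := by decide +kernel

def l4 : List (Nat × Nat × Nat × Nat × Nat) :=
  [(1, 708, 735, 0, 1)]

def h4 : sheet 183 183 394 33627 63 47 l4 = true := by decide +kernel

def l5 : List (Nat × Nat × Nat × Nat × Nat) :=
  [(1, 735, 762, 0, 1)]

def h5 : sheet 183 183 395 36098 63 47 l5 = true := by decide +kernel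

def l6 : List (Nat × Nat × Nat × Nat × Nat) :=
  [(1, 762, 783, 0, 1)]

def h6 : sheet 183 183 409 38019 63 47 l6 = true := by decide +kernel

def l7 : List (Nat × Nat × Nat × Nat × Nat) :=
  [(1, 783, 804, 0, 1)]

def h7 : sheet 183 183 407 39941 63 47 l7 = true := by decide +kernel

def l8 : List (Nat × Nat × Nat × Nat × Nat) :=
  [(1, 804, 825, 0, 1)]

def g8 : KL.sheet 183 183 420 41862 63 47 l8 = true := by decide +kernel

theorem h8 : sheet 183 183 420 41862 63 47 l8 = true := KL.sheet_ok g8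

def l9 : List (Nat × Nat × Nat × Nat × Nat) :=
  [(1, 825, 846, 0, 1)]

def g9 : KL.sheet 183 183 418 43784 63 47 l9 = true := by decide +kernel

theorem h9 : sheet 183 183 418 43784 63 47 l9 = true := KL.sheet_ok g9

def l10 : List (Nat × Nat × Nat × Nat × Nat) :=
  [(1, 846, 864, 0, 1)]

def g10 : KL.sheet 183 183 422 45431 63 47 l10 = true := by decide +kernel

theorem h10 : sheet 183 183 422 45431 63 47 l10 = true := KL.sheet_ok g10

def l11 : List (Nat × Nat × Nat × Nat × Nat) :=
  [(1, 864, 882, 0, 1)]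

def g11 : KL.sheet 183 183 426 47078 63 47 l11 = true := by decide +kernel

theorem h11 : sheet 183 183 426 47078 63 47 l11 = true := KL.sheet_ok g11

def l12 : List (Nat × Nat × Nat × Nat × Nat) :=
  [(1, 882, 900, 0, 1)]

def g12 : KL.sheet 183 183 431 48725 63 47 l12 = true := by decide +kernel

theorem h12 : sheet 183 183 431 48725 63 47 l12 = true := KL.sheet_ok g12

def l13 : List (Nat × Nat × Nat × Nat × Nat) :=
  [(1, 900, 915, 0, 1)]

def g13 : KL.sheet 183 183 442 50097 63 47 l13 = true := by decide +kernel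

theorem h13 : sheet 183 183 442 50097 63 47 l13 = true := KL.sheet_ok g13

theorem cv : Nat.ble 915 (cov 183 (l0 ++ (l1 ++ (l2 ++ (l3 ++ (l4 ++ (l5 ++ (l6 ++ (l7 ++ (l8 ++ (l9 ++ (l10 ++ (l11 ++ (l12 ++ (l13)))))))))))))) 0 0 0) = true := by decide +kernel

end Pool.Agent.SignedQ.KE.K183
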