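import Pool.Agent.Lib.MP_cf17a0_co.S1.FD.K197

set_option autoImplicit false
set_option maxRecDepth 100000

namespace Pool.Agent.SignedQ.KE.K186

def l0 : List (Nat × Nat × Nat × Nat × Nat) :=
  [(1, 0, 606, 0, 1)]

def h0 : sheet 186 186 330 21623 63 48 l0 = true := by decide +kernel

def l1 : List (Nat × Nat × Nat × Nat × Nat) :=
  [(1, 606, 645, 0, 1)]

def h1 : sheet 186 186 352 25250 63 48 l1 = true := by decide +kernel

def l2 : List (Nat × Nat × Nat × Nat × Nat) :=
  [(1, 645, 678, 0, 1)]

def h2 : sheet 186 186 366 28319 63 48 l2 = true := by decide +kernel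

def l3 : List (Nat × Nat × Nat × Nat × Nat) :=
  [(1, 678, 708, 0, 1)]

def h3 : sheet 186 186 378 31109 63 48 l3 = true := by decide +kernel

def l4 : List (Nat × Nat × Nat × Nat × Nat) :=
  [(1, 708, 735, 0, 1)]

def h4 : sheet 186 186 389 33620 64 48 l4 = true := by decide +kernel

def l5 : List (Nat × Nat × Nat × Nat × Nat) :=
  [(1, 735, 762, 0, 1)]

def h5 : sheet 186 186 397 36131 64 48 l5 = true := by decide +kernel

def l6 : List (Nat × Nat × Nat × Nat × Nat) :=
  [(1, 762, 783, 0, 1)]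

def h6 : sheet 186 186 405 38084 64 48 l6 = true := by decide +kernel

def l7 : List (Nat × Nat × Nat × Nat × Nat) :=
  [(1, 783, 804, 0, 1)]

def h7 : sheet 186 186 410 40037 64 48 l7 = true := by decide +kernel

def l8 : List (Nat × Nat × Nat × Nat × Nat) :=
  [(1, 804, 825, 0, 1)]

def g8 : KL.sheet 186 186 416 41990 64 48 l8 = true := by decide +kernel

theorem h8 : sheet 186 186 416 41990 64 48 l8 = true := KL.sheet_ok g8

def l9 : List (Nat × Nat × Nat × Nat × Nat) :=
  [(1, 825, 846, 0, 1)]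

def g9 : KL.sheet 186 186 421 43943 64 48 l9 = true := by decide +kernel

theorem h9 : sheet 186 186 421 43943 64 48 l9 = true := KL.sheet_ok g9

def l10 : List (Nat × Nat × Nat × Nat × Nat) :=
  [(1, 846, 864, 0, 1)]

def g10 : KL.sheet 186 186 426 45617 64 48 l10 = true := by decide +kernel

theorem h10 : sheet 186 186 426 45617 64 48 l10 = true := KL.sheet_ok g10

def l11 : List (Nat × Nat × Nat × Nat × Nat) :=
  [(1, 864, 882, 0, 1)]

def g11 : KL.sheet 186 186 430 47291 64 48 l11 = true := by decide +kernel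

theorem h11 : sheet 186 186 430 47291 64 48 l11 = true := KL.sheet_ok g11

def l12 : List (Nat × Nat × Nat × Nat × Nat) :=
  [(1, 882, 900, 0, 1)]

def g12 : KL.sheet 186 186 434 48965 64 48 l12 = true := by decide +kernel

theorem h12 : sheet 186 186 434 48965 64 48 l12 = true := KL.sheet_ok g12

def l13 : List (Nat × Nat × Nat × Nat × Nat) :=
  [(1, 900, 915, 0, 1)]

def g13 : KL.sheet 186 186 438 50360 64 48 l13 = true := by decide +kernel

theorem h13 : sheet 186 186 438 50360 64 48 l13 = true := KL.sheet_ok g13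

def l14 : List (Nat × Nat × Nat × Nat × Nat) :=
  [(1, 915, 930, 0, 1)]

def g14 : KL.sheet 186 186 441 51755 64 48 l14 = true := by decide +kernel

theorem h14 : sheet 186 186 441 51755 64 48 l14 = true := KL.sheet_ok g14

theorem cv : Nat.ble 930 (cov 186 (l0 ++ (l1 ++ (l2 ++ (l3 ++ (l4 ++ (l5 ++ (l6 ++ (l7 ++ (l8 ++ (l9 ++ (l10 ++ (l11 ++ (l12 ++ (l13 ++ (l14))))))))))))))) 0 0 0) = true := by decide +kernel

end Pool.Agent.SignedQ.KE.K186
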