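import Pool.Agent.Lib.MP_cf17a0_co.S1.FD.K196

set_option autoImplicit false
set_option maxRecDepth 100000

namespace Pool.Agent.SignedQ.KE.K187

def l0 : List (Nat × Nat × Nat × Nat × Nat) :=
  [(1, 0, 612, 0, 1)]

def h0 : sheet 187 187 334 22114 63 48 l0 = true := by decide +kernel

def l1 : List (Nat × Nat × Nat × Nat × Nat) :=
  [(1, 612, 654, 0, 1)]

def h1 : sheet 187 187 356 26041 63 48 l1 = true := by decide +kernel

def l2 : List (Nat × Nat × Nat × Nat × Nat) :=
  [(1, 654, 687, 0, 1)]

def h2 : sheet 187 187 378 29126 63 48 l2 = true := by decide +kernel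

def l3 : List (Nat × Nat × Nat × Nat × Nat) :=
  [(1, 687, 720, 0, 1)]

def h3 : sheet 187 187 383 32212 63 48 l3 = true := by decide +kernel

def l4 : List (Nat × Nat × Nat × Nat × Nat) :=
  [(1, 720, 747, 0, 1)]

def h4 : sheet 187 187 401 34736 64 48 l4 = true := by decide +kernel

def l5 : List (Nat × Nat × Nat × Nat × Nat) :=
  [(1, 747, 774, 0, 1)]

def h5 : sheet 187 187 402 37261 64 48 l5 = true := by decide +kernel

def l6 : List (Nat × Nat × Nat × Nat × Nat) :=
  [(1, 774, 795, 0, 1)]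

def h6 : sheet 187 187 416 39224 64 48 l6 = true := by decide +kernel

def l7 : List (Nat × Nat × Nat × Nat × Nat) :=
  [(1, 795, 816, 0, 1)]

def g7 : KL.sheet 187 187 414 41188 64 48 l7 = true := by decide +kernel

theorem h7 : sheet 187 187 414 41188 64 48 l7 = true := KL.sheet_ok g7

def l8 : List (Nat × Nat × Nat × Nat × Nat) :=
  [(1, 816, 837, 0, 1)]

def g8 : KL.sheet 187 187 428 43151 64 48 l8 = true := by decide +kernel

theorem h8 : sheet 187 187 428 43151 64 48 l8 = true := KL.sheet_ok g8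

def l9 : List (Nat × Nat × Nat × Nat × Nat) :=
  [(1, 837, 855, 0, 1)]

def g9 : KL.sheet 187 187 432 44834 64 48 l9 = true := by decide +kernel

theorem h9 : sheet 187 187 432 44834 64 48 l9 = true := KL.sheet_ok g9

def l10 : List (Nat × Nat × Nat × Nat × Nat) :=
  [(1, 855, 873, 0, 1)]

def g10 : KL.sheet 187 187 437 46517 64 48 l10 = true := by decide +kernel

theorem h10 : sheet 187 187 437 46517 64 48 l10 = true := KL.sheet_ok g10

def l11 : List (Nat × Nat × Nat × Nat × Nat) :=
  [(1, 873, 891, 0, 1)]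

def g11 : KL.sheet 187 187 441 48200 64 48 l11 = true := by decide +kernel

theorem h11 : sheet 187 187 441 48200 64 48 l11 = true := KL.sheet_ok g11

def l12 : List (Nat × Nat × Nat × Nat × Nat) :=
  [(1, 891, 906, 0, 1)]

def g12 : KL.sheet 187 187 437 49603 64 48 l12 = true := by decide +kernel

theorem h12 : sheet 187 187 437 49603 64 48 l12 = true := KL.sheet_ok g12

def l13 : List (Nat × Nat × Nat × Nat × Nat) :=
  [(1, 906, 921, 0, 1)]

def g13 : KL.sheet 187 187 448 51005 64 48 l13 = true := by decide +kernel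

theorem h13 : sheet 187 187 448 51005 64 48 l13 = true := KL.sheet_ok g13

def l14 : List (Nat × Nat × Nat × Nat × Nat) :=
  [(1, 921, 935, 0, 1)]

def g14 : KL.sheet 187 187 443 52408 64 48 l14 = true := by decide +kernel

theorem h14 : sheet 187 187 443 52408 64 48 l14 = true := KL.sheet_ok g14

theorem cv : Nat.ble 935 (cov 187 (l0 ++ (l1 ++ (l2 ++ (l3 ++ (l4 ++ (l5 ++ (l6 ++ (l7 ++ (l8 ++ (l9 ++ (l10 ++ (l11 ++ (l12 ++ (l13 ++ (l14))))))))))))))) 0 0 0) = true := by decide +kernel

end Pool.Agent.SignedQ.KE.K187
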