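import Pool.Agent.Lib.MP_cf17a0_co.S1.FD.K195

set_option autoImplicit false
set_option maxRecDepth 100000

namespace Pool.Agent.SignedQ.KE.K188

def l0 : List (Nat × Nat × Nat × Nat × Nat) :=
  [(1, 0, 594, 0, 1)]

def h0 : sheet 188 188 320 20352 63 48 l0 = true := by decide +kernel

def l1 : List (Nat × Nat × Nat × Nat × Nat) :=
  [(1, 594, 639, 0, 1)]

def h1 : sheet 188 188 349 24582 63 48 l1 = true := by decide +kernel

def l2 : List (Nat × Nat × Nat × Nat × Nat) :=
  [(1, 639, 678, 0, 1)]

def h2 : sheet 188 188 366 28248 63 48 l2 = true := by decide +kernel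

def l3 : List (Nat × Nat × Nat × Nat × Nat) :=
  [(1, 678, 705, 0, 1)]

def h3 : sheet 188 188 378 30786 63 48 l3 = true := by decide +kernel

def l4 : List (Nat × Nat × Nat × Nat × Nat) :=
  [(1, 705, 732, 0, 1)]

def h4 : sheet 188 188 388 33324 64 48 l4 = true := by decide +kernel

def l5 : List (Nat × Nat × Nat × Nat × Nat) :=
  [(1, 732, 759, 0, 1)]

def h5 : sheet 188 188 398 35862 64 48 l5 = true := by decide +kernel

def l6 : List (Nat × Nat × Nat × Nat × Nat) :=
  [(1, 759, 780, 0, 1)]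

def h6 : sheet 188 188 404 37836 64 48 l6 = true := by decide +kernel

def l7 : List (Nat × Nat × Nat × Nat × Nat) :=
  [(1, 780, 801, 0, 1)]

def h7 : sheet 188 188 411 39810 64 48 l7 = true := by decide +kernel

def l8 : List (Nat × Nat × Nat × Nat × Nat) :=
  [(1, 801, 822, 0, 1)]

def g8 : KL.sheet 188 188 416 41784 64 48 l8 = true := by decide +kernel

theorem h8 : sheet 188 188 416 41784 64 48 l8 = true := KL.sheet_ok g8

def l9 : List (Nat × Nat × Nat × Nat × Nat) :=
  [(1, 822, 843, 0, 1)]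

def g9 : KL.sheet 188 188 423 43758 64 48 l9 = true := by decide +kernel

theorem h9 : sheet 188 188 423 43758 64 48 l9 = true := KL.sheet_ok g9

def l10 : List (Nat × Nat × Nat × Nat × Nat) :=
  [(1, 843, 861, 0, 1)]

def g10 : KL.sheet 188 188 427 45450 64 48 l10 = true := by decide +kernel

theorem h10 : sheet 188 188 427 45450 64 48 l10 = true := KL.sheet_ok g10

def l11 : List (Nat × Nat × Nat × Nat × Nat) :=
  [(1, 861, 879, 0, 1)]

def g11 : KL.sheet 188 188 432 47142 64 48 l11 = true := by decide +kernel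

theorem h11 : sheet 188 188 432 47142 64 48 l11 = true := KL.sheet_ok g11

def l12 : List (Nat × Nat × Nat × Nat × Nat) :=
  [(1, 879, 897, 0, 1)]

def g12 : KL.sheet 188 188 436 48834 64 48 l12 = true := by decide +kernel

theorem h12 : sheet 188 188 436 48834 64 48 l12 = true := KL.sheet_ok g12

def l13 : List (Nat × Nat × Nat × Nat × Nat) :=
  [(1, 897, 912, 0, 1)]

def g13 : KL.sheet 188 188 439 50244 64 48 l13 = true := by decide +kernel

theorem h13 : sheet 188 188 439 50244 64 48 l13 = true := KL.sheet_ok g13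

def l14 : List (Nat × Nat × Nat × Nat × Nat) :=
  [(1, 912, 927, 0, 1)]

def g14 : KL.sheet 188 188 443 51654 64 48 l14 = true := by decide +kernel

theorem h14 : sheet 188 188 443 51654 64 48 l14 = true := KL.sheet_ok g14

def l15 : List (Nat × Nat × Nat × Nat × Nat) :=
  [(1, 927, 940, 0, 1)]

def g15 : KL.sheet 188 188 446 53064 64 48 l15 = true := by decide +kernel

theorem h15 : sheet 188 188 446 53064 64 48 l15 = true := KL.sheet_ok g15

theorem cv : Nat.ble 940 (cov 188 (l0 ++ (l1 ++ (l2 ++ (l3 ++ (l4 ++ (l5 ++ (l6 ++ (l7 ++ (l8 ++ (l9 ++ (l10 ++ (l11 ++ (l12 ++ (l13 ++ (l14 ++ (l15)))))))))))))))) 0 0 0) = true := by decide +kernel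

end Pool.Agent.SignedQ.KE.K188
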