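import Pool.Agent.Lib.MP_cf17a0_co.S1.FD.K194

set_option autoImplicit false
set_option maxRecDepth 100000

namespace Pool.Agent.SignedQ.KE.K189

def l0 : List (Nat × Nat × Nat × Nat × Nat) :=
  [(1, 0, 597, 0, 1)]

def h0 : sheet 189 189 330 20555 64 49 l0 = true := by decide +kernel

def l1 : List (Nat × Nat × Nat × Nat × Nat) :=
  [(1, 597, 642, 0, 1)]

def h1 : sheet 189 189 351 24807 64 49 l1 = true := by decide +kernel

def l2 : List (Nat × Nat × Nat × Nat × Nat) :=
  [(1, 642, 681, 0, 1)]

def h2 : sheet 189 189 376 28493 64 49 l2 = true := by decide +kernel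

def l3 : List (Nat × Nat × Nat × Nat × Nat) :=
  [(1, 681, 708, 0, 1)]

def h3 : sheet 189 189 380 31044 64 49 l3 = true := by decide +kernel

def l4 : List (Nat × Nat × Nat × Nat × Nat) :=
  [(1, 708, 735, 0, 1)]

def h4 : sheet 189 189 399 33596 65 49 l4 = true := by decide +kernel

def l5 : List (Nat × Nat × Nat × Nat × Nat) :=
  [(1, 735, 762, 0, 1)]

def h5 : sheet 189 189 400 36147 65 49 l5 = true := by decide +kernel

def l6 : List (Nat × Nat × Nat × Nat × Nat) :=
  [(1, 762, 783, 0, 1)]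

def h6 : sheet 189 189 415 38132 65 49 l6 = true := by decide +kernel

def l7 : List (Nat × Nat × Nat × Nat × Nat) :=
  [(1, 783, 804, 0, 1)]

def h7 : sheet 189 189 413 40116 65 49 l7 = true := by decide +kernel

def l8 : List (Nat × Nat × Nat × Nat × Nat) :=
  [(1, 804, 825, 0, 1)]

def g8 : KL.sheet 189 189 427 42101 65 49 l8 = true := by decide +kernel

theorem h8 : sheet 189 189 427 42101 65 49 l8 = true := KL.sheet_ok g8

def l9 : List (Nat × Nat × Nat × Nat × Nat) :=
  [(1, 825, 846, 0, 1)]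

def g9 : KL.sheet 189 189 425 44085 65 49 l9 = true := by decide +kernel

theorem h9 : sheet 189 189 425 44085 65 49 l9 = true := KL.sheet_ok g9

def l10 : List (Nat × Nat × Nat × Nat × Nat) :=
  [(1, 846, 864, 0, 1)]

def g10 : KL.sheet 189 189 429 45786 65 49 l10 = true := by decide +kernel

theorem h10 : sheet 189 189 429 45786 65 49 l10 = true := KL.sheet_ok g10

def l11 : List (Nat × Nat × Nat × Nat × Nat) :=
  [(1, 864, 882, 0, 1)]

def g11 : KL.sheet 189 189 434 47487 65 49 l11 = true := by decide +kernel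

theorem h11 : sheet 189 189 434 47487 65 49 l11 = true := KL.sheet_ok g11

def l12 : List (Nat × Nat × Nat × Nat × Nat) :=
  [(1, 882, 900, 0, 1)]

def g12 : KL.sheet 189 189 438 49188 65 49 l12 = true := by decide +kernel

theorem h12 : sheet 189 189 438 49188 65 49 l12 = true := KL.sheet_ok g12

def l13 : List (Nat × Nat × Nat × Nat × Nat) :=
  [(1, 900, 915, 0, 1)]

def g13 : KL.sheet 189 189 450 50606 65 49 l13 = true := by decide +kernel

theorem h13 : sheet 189 189 450 50606 65 49 l13 = true := KL.sheet_ok g13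

def l14 : List (Nat × Nat × Nat × Nat × Nat) :=
  [(1, 915, 930, 0, 1)]

def g14 : KL.sheet 189 189 445 52023 65 49 l14 = true := by decide +kernel

theorem h14 : sheet 189 189 445 52023 65 49 l14 = true := KL.sheet_ok g14

def l15 : List (Nat × Nat × Nat × Nat × Nat) :=
  [(1, 930, 945, 0, 1)]

def g15 : KL.sheet 189 189 457 53441 65 49 l15 = true := by decide +kernel

theorem h15 : sheet 189 189 457 53441 65 49 l15 = true := KL.sheet_ok g15

theorem cv : Nat.ble 945 (cov 189 (l0 ++ (l1 ++ (l2 ++ (l3 ++ (l4 ++ (l5 ++ (l6 ++ (l7 ++ (l8 ++ (l9 ++ (l10 ++ (l11 ++ (l12 ++ (l13 ++ (l14 ++ (l15)))))))))))))))) 0 0 0) = true := by decide +kernel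

end Pool.Agent.SignedQ.KE.K189
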