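import Pool.Agent.Lib.MP_cf17a0_co.KL

set_option autoImplicit false
set_option maxRecDepth 100000

namespace Pool.Agent.SignedQ.KE.K194

def l0 : List (Nat × Nat × Nat × Nat × Nat) :=
  [(1, 0, 609, 0, 1)]

def h0 : sheet 194 194 330 21292 65 50 l0 = true := by decide +kernel

def l1 : List (Nat × Nat × Nat × Nat × Nat) :=
  [(1, 609, 651, 0, 1)]

def h1 : sheet 194 194 356 25366 65 50 l1 = true := by decide +kernel

def l2 : List (Nat × Nat × Nat × Nat × Nat) :=
  [(1, 651, 687, 0, 1)]

def h2 : sheet 194 194 374 28858 65 50 l2 = true := by decide +kernel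

def l3 : List (Nat × Nat × Nat × Nat × Nat) :=
  [(1, 687, 714, 0, 1)]

def h3 : sheet 194 194 384 31477 65 50 l3 = true := by decide +kernel

def l4 : List (Nat × Nat × Nat × Nat × Nat) :=
  [(1, 714, 741, 0, 1)]

def h4 : sheet 194 194 397 34096 66 50 l4 = true := by decide +kernel

def l5 : List (Nat × Nat × Nat × Nat × Nat) :=
  [(1, 741, 768, 0, 1)]

def h5 : sheet 194 194 405 36715 66 50 l5 = true := by decide +kernel

def l6 : List (Nat × Nat × Nat × Nat × Nat) :=
  [(1, 768, 789, 0, 1)]

def h6 : sheet 194 194 413 38752 66 50 l6 = true := by decide +kernel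

def l7 : List (Nat × Nat × Nat × Nat × Nat) :=
  [(1, 789, 810, 0, 1)]

def g7 : KL.sheet 194 194 419 40789 66 50 l7 = true := by decide +kernel

theorem h7 : sheet 194 194 419 40789 66 50 l7 = true := KL.sheet_ok g7

def l8 : List (Nat × Nat × Nat × Nat × Nat) :=
  [(1, 810, 831, 0, 1)]

def g8 : KL.sheet 194 194 426 42826 66 50 l8 = true := by decide +kernel

theorem h8 : sheet 194 194 426 42826 66 50 l8 = true := KL.sheet_ok g8

def l9 : List (Nat × Nat × Nat × Nat × Nat) :=
  [(1, 831, 849, 0, 1)]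

def g9 : KL.sheet 194 194 431 44572 66 50 l9 = true := by decide +kernel

theorem h9 : sheet 194 194 431 44572 66 50 l9 = true := KL.sheet_ok g9

def l10 : List (Nat × Nat × Nat × Nat × Nat) :=
  [(1, 849, 867, 0, 1)]

def g10 : KL.sheet 194 194 436 46318 66 50 l10 = true := by decide +kernel

theorem h10 : sheet 194 194 436 46318 66 50 l10 = true := KL.sheet_ok g10

def l11 : List (Nat × Nat × Nat × Nat × Nat) :=
  [(1, 867, 885, 0, 1)]

def g11 : KL.sheet 194 194 440 48064 66 50 l11 = true := by decide +kernel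

theorem h11 : sheet 194 194 440 48064 66 50 l11 = true := KL.sheet_ok g11

def l12 : List (Nat × Nat × Nat × Nat × Nat) :=
  [(1, 885, 900, 0, 1)]

def g12 : KL.sheet 194 194 443 49519 66 50 l12 = true := by decide +kernel

theorem h12 : sheet 194 194 443 49519 66 50 l12 = true := KL.sheet_ok g12

def l13 : List (Nat × Nat × Nat × Nat × Nat) :=
  [(1, 900, 915, 0, 1)]

def g13 : KL.sheet 194 194 448 50974 66 50 l13 = true := by decide +kernel

theorem h13 : sheet 194 194 448 50974 66 50 l13 = true := KL.sheet_ok g13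

def l14 : List (Nat × Nat × Nat × Nat × Nat) :=
  [(1, 915, 930, 0, 1)]

def g14 : KL.sheet 194 194 451 52429 66 50 l14 = true := by decide +kernel

theorem h14 : sheet 194 194 451 52429 66 50 l14 = true := KL.sheet_ok g14

def l15 : List (Nat × Nat × Nat × Nat × Nat) :=
  [(1, 930, 945, 0, 1)]

def g15 : KL.sheet 194 194 455 53884 66 50 l15 = true := by decide +kernel

theorem h15 : sheet 194 194 455 53884 66 50 l15 = true := KL.sheet_ok g15

def l16 : List (Nat × Nat × Nat × Nat × Nat) :=
  [(1, 945, 960, 0, 1)]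

def g16 : KL.sheet 194 194 458 55339 66 50 l16 = true := by decide +kernel

theorem h16 : sheet 194 194 458 55339 66 50 l16 = true := KL.sheet_ok g16

def l17 : List (Nat × Nat × Nat × Nat × Nat) :=
  [(1, 960, 970, 0, 1)]

def g17 : KL.sheet 194 194 460 56503 66 50 l17 = true := by decide +kernel

theorem h17 : sheet 194 194 460 56503 66 50 l17 = true := KL.sheet_ok g17

theorem cv : Nat.ble 970 (cov 194 (l0 ++ (l1 ++ (l2 ++ (l3 ++ (l4 ++ (l5 ++ (l6 ++ (l7 ++ (l8 ++ (l9 ++ (l10 ++ (l11 ++ (l12 ++ (l13 ++ (l14 ++ (l15 ++ (l16 ++ (l17)))))))))))))))))) 0 0 0) = true := by decide +kernel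

end Pool.Agent.SignedQ.KE.K194
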