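import Pool.Agent.Lib.MP_cf17a0_co.KL

set_option autoImplicit false
set_option maxRecDepth 100000

namespace Pool.Agent.SignedQ.KE.K195

def l0 : List (Nat × Nat × Nat × Nat × Nat) :=
  [(1, 0, 633, 0, 1)]

def h0 : sheet 195 195 352 23547 65 50 l0 = true := by decide +kernel

def l1 : List (Nat × Nat × Nat × Nat × Nat) :=
  [(1, 633, 669, 0, 1)]

def h1 : sheet 195 195 372 27057 65 50 l1 = true := by decide +kernel

def l2 : List (Nat × Nat × Nat × Nat × Nat) :=
  [(1, 669, 699, 0, 1)]

def h2 : sheet 195 195 386 29982 65 50 l2 = true := by decide +kernel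

def l3 : List (Nat × Nat × Nat × Nat × Nat) :=
  [(1, 699, 726, 0, 1)]

def h3 : sheet 195 195 390 32615 65 50 l3 = true := by decide +kernel

def l4 : List (Nat × Nat × Nat × Nat × Nat) :=
  [(1, 726, 753, 0, 1)]

def h4 : sheet 195 195 408 35247 66 50 l4 = true := by decide +kernel

def l5 : List (Nat × Nat × Nat × Nat × Nat) :=
  [(1, 753, 774, 0, 1)]

def h5 : sheet 195 195 408 37295 66 50 l5 = true := by decide +kernel

def l6 : List (Nat × Nat × Nat × Nat × Nat) :=
  [(1, 774, 795, 0, 1)]

def h6 : sheet 195 195 423 39342 66 50 l6 = true := by decide +kernel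

def l7 : List (Nat × Nat × Nat × Nat × Nat) :=
  [(1, 795, 816, 0, 1)]

def g7 : KL.sheet 195 195 422 41390 66 50 l7 = true := by decide +kernel

theorem h7 : sheet 195 195 422 41390 66 50 l7 = true := KL.sheet_ok g7

def l8 : List (Nat × Nat × Nat × Nat × Nat) :=
  [(1, 816, 837, 0, 1)]

def g8 : KL.sheet 195 195 436 43437 66 50 l8 = true := by decide +kernel

theorem h8 : sheet 195 195 436 43437 66 50 l8 = true := KL.sheet_ok g8

def l9 : List (Nat × Nat × Nat × Nat × Nat) :=
  [(1, 837, 855, 0, 1)]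

def g9 : KL.sheet 195 195 441 45192 66 50 l9 = true := by decide +kernel

theorem h9 : sheet 195 195 441 45192 66 50 l9 = true := KL.sheet_ok g9

def l10 : List (Nat × Nat × Nat × Nat × Nat) :=
  [(1, 855, 873, 0, 1)]

def g10 : KL.sheet 195 195 445 46947 66 50 l10 = true := by decide +kernel

theorem h10 : sheet 195 195 445 46947 66 50 l10 = true := KL.sheet_ok g10

def l11 : List (Nat × Nat × Nat × Nat × Nat) :=
  [(1, 873, 891, 0, 1)]

def g11 : KL.sheet 195 195 450 48702 66 50 l11 = true := by decide +kernel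

theorem h11 : sheet 195 195 450 48702 66 50 l11 = true := KL.sheet_ok g11

def l12 : List (Nat × Nat × Nat × Nat × Nat) :=
  [(1, 891, 906, 0, 1)]

def g12 : KL.sheet 195 195 446 50165 66 50 l12 = true := by decide +kernel

theorem h12 : sheet 195 195 446 50165 66 50 l12 = true := KL.sheet_ok g12

def l13 : List (Nat × Nat × Nat × Nat × Nat) :=
  [(1, 906, 921, 0, 1)]

def g13 : KL.sheet 195 195 458 51627 66 50 l13 = true := by decide +kernel

theorem h13 : sheet 195 195 458 51627 66 50 l13 = true := KL.sheet_ok g13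

def l14 : List (Nat × Nat × Nat × Nat × Nat) :=
  [(1, 921, 936, 0, 1)]

def g14 : KL.sheet 195 195 453 53090 66 50 l14 = true := by decide +kernel

theorem h14 : sheet 195 195 453 53090 66 50 l14 = true := KL.sheet_ok g14

def l15 : List (Nat × Nat × Nat × Nat × Nat) :=
  [(1, 936, 951, 0, 1)]

def g15 : KL.sheet 195 195 465 54552 66 50 l15 = true := by decide +kernel

theorem h15 : sheet 195 195 465 54552 66 50 l15 = true := KL.sheet_ok g15

def l16 : List (Nat × Nat × Nat × Nat × Nat) :=
  [(1, 951, 963, 0, 1)]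

def g16 : KL.sheet 195 195 467 55722 66 50 l16 = true := by decide +kernel

theorem h16 : sheet 195 195 467 55722 66 50 l16 = true := KL.sheet_ok g16

def l17 : List (Nat × Nat × Nat × Nat × Nat) :=
  [(1, 963, 975, 0, 1)]

def g17 : KL.sheet 195 195 470 56892 66 50 l17 = true := by decide +kernel

theorem h17 : sheet 195 195 470 56892 66 50 l17 = true := KL.sheet_ok g17

theorem cv : Nat.ble 975 (cov 195 (l0 ++ (l1 ++ (l2 ++ (l3 ++ (l4 ++ (l5 ++ (l6 ++ (l7 ++ (l8 ++ (l9 ++ (l10 ++ (l11 ++ (l12 ++ (l13 ++ (l14 ++ (l15 ++ (l16 ++ (l17)))))))))))))))))) 0 0 0) = true := by decide +kernel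

end Pool.Agent.SignedQ.KE.K195
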