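import Pool.Agent.Lib.MP_cf17a0_co.KL

set_option autoImplicit false
set_option maxRecDepth 100000

namespace Pool.Agent.SignedQ.KE.K196

def l0 : List (Nat × Nat × Nat × Nat × Nat) :=
  [(1, 0, 636, 0, 1)]

def h0 : sheet 196 196 345 23766 65 50 l0 = true := by decide +kernel

def l1 : List (Nat × Nat × Nat × Nat × Nat) :=
  [(1, 636, 675, 0, 1)]

def h1 : sheet 196 196 368 27588 65 50 l1 = true := by decide +kernel

def l2 : List (Nat × Nat × Nat × Nat × Nat) :=
  [(1, 675, 708, 0, 1)]

def h2 : sheet 196 196 382 30822 65 50 l2 = true := by decide +kernel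

def l3 : List (Nat × Nat × Nat × Nat × Nat) :=
  [(1, 708, 738, 0, 1)]

def h3 : sheet 196 196 395 33762 66 50 l3 = true := by decide +kernel

def l4 : List (Nat × Nat × Nat × Nat × Nat) :=
  [(1, 738, 765, 0, 1)]

def h4 : sheet 196 196 406 36408 66 50 l4 = true := by decide +kernel

def l5 : List (Nat × Nat × Nat × Nat × Nat) :=
  [(1, 765, 786, 0, 1)]

def h5 : sheet 196 196 412 38466 66 50 l5 = true := by decide +kernel

def l6 : List (Nat × Nat × Nat × Nat × Nat) :=
  [(1, 786, 807, 0, 1)]

def g6 : KL.sheet 196 196 420 40524 66 50 l6 = true := by decide +kernel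

theorem h6 : sheet 196 196 420 40524 66 50 l6 = true := KL.sheet_ok g6

def l7 : List (Nat × Nat × Nat × Nat × Nat) :=
  [(1, 807, 828, 0, 1)]

def g7 : KL.sheet 196 196 425 42582 66 50 l7 = true := by decide +kernel

theorem h7 : sheet 196 196 425 42582 66 50 l7 = true := KL.sheet_ok g7

def l8 : List (Nat × Nat × Nat × Nat × Nat) :=
  [(1, 828, 846, 0, 1)]

def g8 : KL.sheet 196 196 431 44346 66 50 l8 = true := by decide +kernel

theorem h8 : sheet 196 196 431 44346 66 50 l8 = true := KL.sheet_ok g8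

def l9 : List (Nat × Nat × Nat × Nat × Nat) :=
  [(1, 846, 864, 0, 1)]

def g9 : KL.sheet 196 196 436 46110 66 50 l9 = true := by decide +kernel

theorem h9 : sheet 196 196 436 46110 66 50 l9 = true := KL.sheet_ok g9

def l10 : List (Nat × Nat × Nat × Nat × Nat) :=
  [(1, 864, 882, 0, 1)]

def g10 : KL.sheet 196 196 440 47874 66 50 l10 = true := by decide +kernel

theorem h10 : sheet 196 196 440 47874 66 50 l10 = true := KL.sheet_ok g10

def l11 : List (Nat × Nat × Nat × Nat × Nat) :=
  [(1, 882, 897, 0, 1)]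

def g11 : KL.sheet 196 196 445 49344 66 50 l11 = true := by decide +kernel

theorem h11 : sheet 196 196 445 49344 66 50 l11 = true := KL.sheet_ok g11

def l12 : List (Nat × Nat × Nat × Nat × Nat) :=
  [(1, 897, 912, 0, 1)]

def g12 : KL.sheet 196 196 448 50814 66 50 l12 = true := by decide +kernel

theorem h12 : sheet 196 196 448 50814 66 50 l12 = true := KL.sheet_ok g12

def l13 : List (Nat × Nat × Nat × Nat × Nat) :=
  [(1, 912, 927, 0, 1)]

def g13 : KL.sheet 196 196 453 52284 66 50 l13 = true := by decide +kernel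

theorem h13 : sheet 196 196 453 52284 66 50 l13 = true := KL.sheet_ok g13

def l14 : List (Nat × Nat × Nat × Nat × Nat) :=
  [(1, 927, 942, 0, 1)]

def g14 : KL.sheet 196 196 455 53754 66 50 l14 = true := by decide +kernel

theorem h14 : sheet 196 196 455 53754 66 50 l14 = true := KL.sheet_ok g14

def l15 : List (Nat × Nat × Nat × Nat × Nat) :=
  [(1, 942, 957, 0, 1)]

def g15 : KL.sheet 196 196 460 55224 66 50 l15 = true := by decide +kernel

theorem h15 : sheet 196 196 460 55224 66 50 l15 = true := KL.sheet_ok g15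

def l16 : List (Nat × Nat × Nat × Nat × Nat) :=
  [(1, 957, 969, 0, 1)]

def g16 : KL.sheet 196 196 462 56400 66 50 l16 = true := by decide +kernel

theorem h16 : sheet 196 196 462 56400 66 50 l16 = true := KL.sheet_ok g16

def l17 : List (Nat × Nat × Nat × Nat × Nat) :=
  [(1, 969, 980, 0, 1)]

def g17 : KL.sheet 196 196 465 57576 66 50 l17 = true := by decide +kernel

theorem h17 : sheet 196 196 465 57576 66 50 l17 = true := KL.sheet_ok g17

theorem cv : Nat.ble 980 (cov 196 (l0 ++ (l1 ++ (l2 ++ (l3 ++ (l4 ++ (l5 ++ (l6 ++ (l7 ++ (l8 ++ (l9 ++ (l10 ++ (l11 ++ (l12 ++ (l13 ++ (l14 ++ (l15 ++ (l16 ++ (l17)))))))))))))))))) 0 0 0) = true := by decide +kernel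

end Pool.Agent.SignedQ.KE.K196
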