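import Pool.Agent.Lib.MP_cf17a0_co.KL

set_option autoImplicit false
set_option maxRecDepth 100000

namespace Pool.Agent.SignedQ.KE.K197

def l0 : List (Nat × Nat × Nat × Nat × Nat) :=
  [(1, 0, 630, 0, 1)]

def h0 : sheet 197 197 343 23099 66 51 l0 = true := by decide +kernel

def l1 : List (Nat × Nat × Nat × Nat × Nat) :=
  [(1, 630, 666, 0, 1)]

def h1 : sheet 197 197 364 26645 66 51 l1 = true := by decide +kernel

def l2 : List (Nat × Nat × Nat × Nat × Nat) :=
  [(1, 666, 702, 0, 1)]

def h2 : sheet 197 197 381 30191 66 51 l2 = true := by decide +kernel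

def l3 : List (Nat × Nat × Nat × Nat × Nat) :=
  [(1, 702, 729, 0, 1)]

def h3 : sheet 197 197 401 32851 67 51 l3 = true := by decide +kernel

def l4 : List (Nat × Nat × Nat × Nat × Nat) :=
  [(1, 729, 756, 0, 1)]

def h4 : sheet 197 197 404 35510 67 51 l4 = true := by decide +kernel

def l5 : List (Nat × Nat × Nat × Nat × Nat) :=
  [(1, 756, 777, 0, 1)]

def h5 : sheet 197 197 419 37579 67 51 l5 = true := by decide +kernel

def l6 : List (Nat × Nat × Nat × Nat × Nat) :=
  [(1, 777, 798, 0, 1)]

def h6 : sheet 197 197 418 39647 67 51 l6 = true := by decide +kernel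

def l7 : List (Nat × Nat × Nat × Nat × Nat) :=
  [(1, 798, 819, 0, 1)]

def g7 : KL.sheet 197 197 432 41716 67 51 l7 = true := by decide +kernel

theorem h7 : sheet 197 197 432 41716 67 51 l7 = true := KL.sheet_ok g7

def l8 : List (Nat × Nat × Nat × Nat × Nat) :=
  [(1, 819, 840, 0, 1)]

def g8 : KL.sheet 197 197 431 43784 67 51 l8 = true := by decide +kernel

theorem h8 : sheet 197 197 431 43784 67 51 l8 = true := KL.sheet_ok g8

def l9 : List (Nat × Nat × Nat × Nat × Nat) :=
  [(1, 840, 858, 0, 1)]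

def g9 : KL.sheet 197 197 436 45557 67 51 l9 = true := by decide +kernel

theorem h9 : sheet 197 197 436 45557 67 51 l9 = true := KL.sheet_ok g9

def l10 : List (Nat × Nat × Nat × Nat × Nat) :=
  [(1, 858, 876, 0, 1)]

def g10 : KL.sheet 197 197 441 47330 67 51 l10 = true := by decide +kernel

theorem h10 : sheet 197 197 441 47330 67 51 l10 = true := KL.sheet_ok g10

def l11 : List (Nat × Nat × Nat × Nat × Nat) :=
  [(1, 876, 891, 0, 1)]

def g11 : KL.sheet 197 197 453 48808 67 51 l11 = true := by decide +kernel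

theorem h11 : sheet 197 197 453 48808 67 51 l11 = true := KL.sheet_ok g11

def l12 : List (Nat × Nat × Nat × Nat × Nat) :=
  [(1, 891, 906, 0, 1)]

def g12 : KL.sheet 197 197 449 50285 67 51 l12 = true := by decide +kernel

theorem h12 : sheet 197 197 449 50285 67 51 l12 = true := KL.sheet_ok g12

def l13 : List (Nat × Nat × Nat × Nat × Nat) :=
  [(1, 906, 921, 0, 1)]

def g13 : KL.sheet 197 197 460 51763 67 51 l13 = true := by decide +kernel

theorem h13 : sheet 197 197 460 51763 67 51 l13 = true := KL.sheet_ok g13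

def l14 : List (Nat × Nat × Nat × Nat × Nat) :=
  [(1, 921, 936, 0, 1)]

def g14 : KL.sheet 197 197 456 53240 67 51 l14 = true := by decide +kernel

theorem h14 : sheet 197 197 456 53240 67 51 l14 = true := KL.sheet_ok g14

def l15 : List (Nat × Nat × Nat × Nat × Nat) :=
  [(1, 936, 951, 0, 1)]

def g15 : KL.sheet 197 197 468 54718 67 51 l15 = true := by decide +kernel

theorem h15 : sheet 197 197 468 54718 67 51 l15 = true := KL.sheet_ok g15

def l16 : List (Nat × Nat × Nat × Nat × Nat) :=
  [(1, 951, 963, 0, 1)]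

def g16 : KL.sheet 197 197 470 55900 67 51 l16 = true := by decide +kernel

theorem h16 : sheet 197 197 470 55900 67 51 l16 = true := KL.sheet_ok g16

def l17 : List (Nat × Nat × Nat × Nat × Nat) :=
  [(1, 963, 975, 0, 1)]

def g17 : KL.sheet 197 197 473 57082 67 51 l17 = true := by decide +kernel

theorem h17 : sheet 197 197 473 57082 67 51 l17 = true := KL.sheet_ok g17

def l18 : List (Nat × Nat × Nat × Nat × Nat) :=
  [(1, 975, 985, 0, 1)]

def g18 : KL.sheet 197 197 476 58264 67 51 l18 = true := by decide +kernel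

theorem h18 : sheet 197 197 476 58264 67 51 l18 = true := KL.sheet_ok g18

theorem cv : Nat.ble 985 (cov 197 (l0 ++ (l1 ++ (l2 ++ (l3 ++ (l4 ++ (l5 ++ (l6 ++ (l7 ++ (l8 ++ (l9 ++ (l10 ++ (l11 ++ (l12 ++ (l13 ++ (l14 ++ (l15 ++ (l16 ++ (l17 ++ (l18))))))))))))))))))) 0 0 0) = true := by decide +kernel

end Pool.Agent.SignedQ.KE.K197
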