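import Pool.Agent.Lib.MP_cf17a0_co.KL

set_option autoImplicit false
set_option maxRecDepth 100000

namespace Pool.Agent.SignedQ.KE.K198

def l0 : List (Nat × Nat × Nat × Nat × Nat) :=
  [(1, 0, 642, 0, 1)]

def h0 : sheet 198 198 349 24206 66 51 l0 = true := by decide +kernel

def l1 : List (Nat × Nat × Nat × Nat × Nat) :=
  [(1, 642, 678, 0, 1)]

def h1 : sheet 198 198 369 27770 66 51 l1 = true := by decide +kernel

def l2 : List (Nat × Nat × Nat × Nat × Nat) :=
  [(1, 678, 708, 0, 1)]

def h2 : sheet 198 198 383 30740 66 51 l2 = true := by decide +kernel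

def l3 : List (Nat × Nat × Nat × Nat × Nat) :=
  [(1, 708, 735, 0, 1)]

def h3 : sheet 198 198 397 33413 67 51 l3 = true := by decide +kernel

def l4 : List (Nat × Nat × Nat × Nat × Nat) :=
  [(1, 735, 762, 0, 1)]

def h4 : sheet 198 198 406 36086 67 51 l4 = true := by decide +kernel

def l5 : List (Nat × Nat × Nat × Nat × Nat) :=
  [(1, 762, 783, 0, 1)]

def h5 : sheet 198 198 414 38165 67 51 l5 = true := by decide +kernel

def l6 : List (Nat × Nat × Nat × Nat × Nat) :=
  [(1, 783, 804, 0, 1)]

def g6 : KL.sheet 198 198 420 40244 67 51 l6 = true := by decide +kernel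

theorem h6 : sheet 198 198 420 40244 67 51 l6 = true := KL.sheet_ok g6

def l7 : List (Nat × Nat × Nat × Nat × Nat) :=
  [(1, 804, 825, 0, 1)]

def g7 : KL.sheet 198 198 428 42323 67 51 l7 = true := by decide +kernel

theorem h7 : sheet 198 198 428 42323 67 51 l7 = true := KL.sheet_ok g7

def l8 : List (Nat × Nat × Nat × Nat × Nat) :=
  [(1, 825, 843, 0, 1)]

def g8 : KL.sheet 198 198 433 44105 67 51 l8 = true := by decide +kernel

theorem h8 : sheet 198 198 433 44105 67 51 l8 = true := KL.sheet_ok g8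

def l9 : List (Nat × Nat × Nat × Nat × Nat) :=
  [(1, 843, 861, 0, 1)]

def g9 : KL.sheet 198 198 438 45887 67 51 l9 = true := by decide +kernel

theorem h9 : sheet 198 198 438 45887 67 51 l9 = true := KL.sheet_ok g9

def l10 : List (Nat × Nat × Nat × Nat × Nat) :=
  [(1, 861, 879, 0, 1)]

def g10 : KL.sheet 198 198 443 47669 67 51 l10 = true := by decide +kernel

theorem h10 : sheet 198 198 443 47669 67 51 l10 = true := KL.sheet_ok g10

def l11 : List (Nat × Nat × Nat × Nat × Nat) :=
  [(1, 879, 894, 0, 1)]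

def g11 : KL.sheet 198 198 446 49154 67 51 l11 = true := by decide +kernel

theorem h11 : sheet 198 198 446 49154 67 51 l11 = true := KL.sheet_ok g11

def l12 : List (Nat × Nat × Nat × Nat × Nat) :=
  [(1, 894, 909, 0, 1)]

def g12 : KL.sheet 198 198 451 50639 67 51 l12 = true := by decide +kernel

theorem h12 : sheet 198 198 451 50639 67 51 l12 = true := KL.sheet_ok g12

def l13 : List (Nat × Nat × Nat × Nat × Nat) :=
  [(1, 909, 924, 0, 1)]

def g13 : KL.sheet 198 198 454 52124 67 51 l13 = true := by decide +kernel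

theorem h13 : sheet 198 198 454 52124 67 51 l13 = true := KL.sheet_ok g13

def l14 : List (Nat × Nat × Nat × Nat × Nat) :=
  [(1, 924, 939, 0, 1)]

def g14 : KL.sheet 198 198 458 53609 67 51 l14 = true := by decide +kernel

theorem h14 : sheet 198 198 458 53609 67 51 l14 = true := KL.sheet_ok g14

def l15 : List (Nat × Nat × Nat × Nat × Nat) :=
  [(1, 939, 954, 0, 1)]

def g15 : KL.sheet 198 198 461 55094 67 51 l15 = true := by decide +kernel

theorem h15 : sheet 198 198 461 55094 67 51 l15 = true := KL.sheet_ok g15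

def l16 : List (Nat × Nat × Nat × Nat × Nat) :=
  [(1, 954, 966, 0, 1)]

def g16 : KL.sheet 198 198 464 56282 67 51 l16 = true := by decide +kernel

theorem h16 : sheet 198 198 464 56282 67 51 l16 = true := KL.sheet_ok g16

def l17 : List (Nat × Nat × Nat × Nat × Nat) :=
  [(1, 966, 978, 0, 1)]

def g17 : KL.sheet 198 198 466 57470 67 51 l17 = true := by decide +kernel

theorem h17 : sheet 198 198 466 57470 67 51 l17 = true := KL.sheet_ok g17

def l18 : List (Nat × Nat × Nat × Nat × Nat) :=
  [(1, 978, 990, 0, 1)]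

def g18 : KL.sheet 198 198 469 58658 67 51 l18 = true := by decide +kernel

theorem h18 : sheet 198 198 469 58658 67 51 l18 = true := KL.sheet_ok g18

theorem cv : Nat.ble 990 (cov 198 (l0 ++ (l1 ++ (l2 ++ (l3 ++ (l4 ++ (l5 ++ (l6 ++ (l7 ++ (l8 ++ (l9 ++ (l10 ++ (l11 ++ (l12 ++ (l13 ++ (l14 ++ (l15 ++ (l16 ++ (l17 ++ (l18))))))))))))))))))) 0 0 0) = true := by decide +kernel

end Pool.Agent.SignedQ.KE.K198
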