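import Pool.Agent.Lib.MP_cf17a0_co.KL

set_option autoImplicit false
set_option maxRecDepth 100000

namespace Pool.Agent.SignedQ.KE.K199

def l0 : List (Nat × Nat × Nat × Nat × Nat) :=
  [(1, 0, 624, 0, 1)]

def h0 : sheet 199 199 337 22339 66 51 l0 = true := by decide +kernel

def l1 : List (Nat × Nat × Nat × Nat × Nat) :=
  [(1, 624, 666, 0, 1)]

def h1 : sheet 199 199 364 26518 66 51 l1 = true := by decide +kernel

def l2 : List (Nat × Nat × Nat × Nat × Nat) :=
  [(1, 666, 702, 0, 1)]

def h2 : sheet 199 199 381 30100 66 51 l2 = true := by decide +kernel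

def l3 : List (Nat × Nat × Nat × Nat × Nat) :=
  [(1, 702, 729, 0, 1)]

def h3 : sheet 199 199 401 32786 67 51 l3 = true := by decide +kernel

def l4 : List (Nat × Nat × Nat × Nat × Nat) :=
  [(1, 729, 756, 0, 1)]

def h4 : sheet 199 199 405 35473 67 51 l4 = true := by decide +kernel

def l5 : List (Nat × Nat × Nat × Nat × Nat) :=
  [(1, 756, 777, 0, 1)]

def h5 : sheet 199 199 420 37562 67 51 l5 = true := by decide +kernel

def l6 : List (Nat × Nat × Nat × Nat × Nat) :=
  [(1, 777, 798, 0, 1)]

def h6 : sheet 199 199 419 39652 67 51 l6 = true := by decide +kernel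

def l7 : List (Nat × Nat × Nat × Nat × Nat) :=
  [(1, 798, 819, 0, 1)]

def g7 : KL.sheet 199 199 434 41741 67 51 l7 = true := by decide +kernel

theorem h7 : sheet 199 199 434 41741 67 51 l7 = true := KL.sheet_ok g7

def l8 : List (Nat × Nat × Nat × Nat × Nat) :=
  [(1, 819, 837, 0, 1)]

def g8 : KL.sheet 199 199 439 43532 67 51 l8 = true := by decide +kernel

theorem h8 : sheet 199 199 439 43532 67 51 l8 = true := KL.sheet_ok g8

def l9 : List (Nat × Nat × Nat × Nat × Nat) :=
  [(1, 837, 855, 0, 1)]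

def g9 : KL.sheet 199 199 444 45323 67 51 l9 = true := by decide +kernel

theorem h9 : sheet 199 199 444 45323 67 51 l9 = true := KL.sheet_ok g9

def l10 : List (Nat × Nat × Nat × Nat × Nat) :=
  [(1, 855, 873, 0, 1)]

def g10 : KL.sheet 199 199 450 47114 67 51 l10 = true := by decide +kernel

theorem h10 : sheet 199 199 450 47114 67 51 l10 = true := KL.sheet_ok g10

def l11 : List (Nat × Nat × Nat × Nat × Nat) :=
  [(1, 873, 888, 0, 1)]

def g11 : KL.sheet 199 199 446 48607 67 51 l11 = true := by decide +kernel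

theorem h11 : sheet 199 199 446 48607 67 51 l11 = true := KL.sheet_ok g11

def l12 : List (Nat × Nat × Nat × Nat × Nat) :=
  [(1, 888, 903, 0, 1)]

def g12 : KL.sheet 199 199 458 50099 67 51 l12 = true := by decide +kernel

theorem h12 : sheet 199 199 458 50099 67 51 l12 = true := KL.sheet_ok g12

def l13 : List (Nat × Nat × Nat × Nat × Nat) :=
  [(1, 903, 918, 0, 1)]

def g13 : KL.sheet 199 199 453 51592 67 51 l13 = true := by decide +kernel

theorem h13 : sheet 199 199 453 51592 67 51 l13 = true := KL.sheet_ok g13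

def l14 : List (Nat × Nat × Nat × Nat × Nat) :=
  [(1, 918, 933, 0, 1)]

def g14 : KL.sheet 199 199 465 53084 67 51 l14 = true := by decide +kernel

theorem h14 : sheet 199 199 465 53084 67 51 l14 = true := KL.sheet_ok g14

def l15 : List (Nat × Nat × Nat × Nat × Nat) :=
  [(1, 933, 948, 0, 1)]

def g15 : KL.sheet 199 199 461 54577 67 51 l15 = true := by decide +kernel

theorem h15 : sheet 199 199 461 54577 67 51 l15 = true := KL.sheet_ok g15

def l16 : List (Nat × Nat × Nat × Nat × Nat) :=
  [(1, 948, 960, 0, 1)]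

def g16 : KL.sheet 199 199 463 55771 67 51 l16 = true := by decide +kernel

theorem h16 : sheet 199 199 463 55771 67 51 l16 = true := KL.sheet_ok g16

def l17 : List (Nat × Nat × Nat × Nat × Nat) :=
  [(1, 960, 972, 0, 1)]

def g17 : KL.sheet 199 199 466 56965 67 51 l17 = true := by decide +kernel

theorem h17 : sheet 199 199 466 56965 67 51 l17 = true := KL.sheet_ok g17

def l18 : List (Nat × Nat × Nat × Nat × Nat) :=
  [(1, 972, 984, 0, 1)]

def g18 : KL.sheet 199 199 469 58159 67 51 l18 = true := by decide +kernel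

theorem h18 : sheet 199 199 469 58159 67 51 l18 = true := KL.sheet_ok g18

def l19 : List (Nat × Nat × Nat × Nat × Nat) :=
  [(1, 984, 995, 0, 1)]

def g19 : KL.sheet 199 199 471 59353 67 51 l19 = true := by decide +kernel

theorem h19 : sheet 199 199 471 59353 67 51 l19 = true := KL.sheet_ok g19

theorem cv : Nat.ble 995 (cov 199 (l0 ++ (l1 ++ (l2 ++ (l3 ++ (l4 ++ (l5 ++ (l6 ++ (l7 ++ (l8 ++ (l9 ++ (l10 ++ (l11 ++ (l12 ++ (l13 ++ (l14 ++ (l15 ++ (l16 ++ (l17 ++ (l18 ++ (l19)))))))))))))))))))) 0 0 0) = true := by decide +kernel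

end Pool.Agent.SignedQ.KE.K199
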