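import Pool.Agent.Lib.MP_cf17a0_co.S1.FD.K65

set_option autoImplicit false
set_option maxRecDepth 100000

namespace Pool.Agent.SignedQ.KE.K104

def l0 : List (Nat × Nat × Nat × Nat × Nat) :=
  [(1, 0, 400, 0, 1)]

def h0 : sheet 104 104 213 10011 39 25 l0 = true := by decide +kernel

def l1 : List (Nat × Nat × Nat × Nat × Nat) :=
  [(1, 400, 520, 0, 1)]

def h1 : sheet 104 104 246 16251 39 25 l1 = true := by decide +kernel

theorem cv : Nat.ble 520 (cov 104 (l0 ++ (l1)) 0 0 0) = true := by decide +kernel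

end Pool.Agent.SignedQ.KE.K104
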