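import Pool.Agent.Lib.MP_cf17a0_co.S1.FD.K75

set_option autoImplicit false
set_option maxRecDepth 100000

namespace Pool.Agent.SignedQ.KE.K116

def l0 : List (Nat × Nat × Nat × Nat × Nat) :=
  [(1, 0, 387, 0, 1)]

def h0 : sheet 116 116 211 8904 42 28 l0 = true := by decide +kernel

def l1 : List (Nat × Nat × Nat × Nat × Nat) :=
  [(1, 387, 504, 0, 1)]

def h1 : sheet 116 116 255 15690 42 28 l1 = true := by decide +kernel

def l2 : List (Nat × Nat × Nat × Nat × Nat) :=
  [(1, 504, 580, 0, 1)]

def h2 : sheet 116 116 275 20214 43 28 l2 = true := by decide +kernel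

theorem cv : Nat.ble 580 (cov 116 (l0 ++ (l1 ++ (l2))) 0 0 0) = true := by decide +kernel

end Pool.Agent.SignedQ.KE.K116
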