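import Pool.Agent.Lib.MP_cf17a0_co.S1.FD.K77

set_option autoImplicit false
set_option maxRecDepth 100000

namespace Pool.Agent.SignedQ.KE.K120

def l0 : List (Nat × Nat × Nat × Nat × Nat) :=
  [(1, 0, 444, 0, 1)]

def h0 : sheet 120 120 237 12151 43 29 l0 = true := by decide +kernel

def l1 : List (Nat × Nat × Nat × Nat × Nat) :=
  [(1, 444, 537, 0, 1)]

def h1 : sheet 120 120 269 17731 44 29 l1 = true := by decide +kernel

def l2 : List (Nat × Nat × Nat × Nat × Nat) :=
  [(1, 537, 600, 0, 1)]

def h2 : sheet 120 120 284 21511 44 29 l2 = true := by decide +kernel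

theorem cv : Nat.ble 600 (cov 120 (l0 ++ (l1 ++ (l2))) 0 0 0) = true := by decide +kernel

end Pool.Agent.SignedQ.KE.K120
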