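import Pool.Agent.Lib.MP_cf17a0_co.S1.FD.K79

set_option autoImplicit false
set_option maxRecDepth 100000

namespace Pool.Agent.SignedQ.KE.K124

def l0 : List (Nat × Nat × Nat × Nat × Nat) :=
  [(1, 0, 483, 0, 1)]

def h0 : sheet 124 124 256 14478 45 31 l0 = true := by decide +kernel

def l1 : List (Nat × Nat × Nat × Nat × Nat) :=
  [(1, 483, 558, 0, 1)]

def h1 : sheet 124 124 279 19128 46 31 l1 = true := by decide +kernel

def l2 : List (Nat × Nat × Nat × Nat × Nat) :=
  [(1, 558, 620, 0, 1)]

def h2 : sheet 124 124 295 23034 46 31 l2 = true := by decide +kernel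

theorem cv : Nat.ble 620 (cov 124 (l0 ++ (l1 ++ (l2))) 0 0 0) = true := by decide +kernel

end Pool.Agent.SignedQ.KE.K124
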