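import Pool.Agent.Lib.MP_cf17a0_co.S1.FD.K38

set_option autoImplicit false
set_option maxRecDepth 100000

namespace Pool.Agent.SignedQ.KE.K126

def l0 : List (Nat × Nat × Nat × Nat × Nat) :=
  [(1, 0, 387, 0, 1), (1, 387, 504, 0, 1)]

def h0 : sheet 126 126 263 15782 45 31 l0 = true := by decide +kernel

def l1 : List (Nat × Nat × Nat × Nat × Nat) :=
  [(1, 504, 582, 0, 1)]

def h1 : sheet 126 126 287 20696 46 31 l1 = true := by decide +kernel

def l2 : List (Nat × Nat × Nat × Nat × Nat) :=
  [(1, 582, 630, 0, 1)]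

def h2 : sheet 126 126 298 23720 46 31 l2 = true := by decide +kernel

theorem cv : Nat.ble 630 (cov 126 (l0 ++ (l1 ++ (l2))) 0 0 0) = true := by decide +kernel

end Pool.Agent.SignedQ.KE.K126
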