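import Pool.Agent.Lib.MP_cf17a0_co.S1.FD.K84

set_option autoImplicit false
set_option maxRecDepth 100000

namespace Pool.Agent.SignedQ.KE.K131

def l0 : List (Nat × Nat × Nat × Nat × Nat) :=
  [(1, 0, 492, 0, 1)]

def h0 : sheet 131 131 263 14968 46 32 l0 = true := by decide +kernel

def l1 : List (Nat × Nat × Nat × Nat × Nat) :=
  [(1, 492, 567, 0, 1)]

def h1 : sheet 131 131 295 19880 47 32 l1 = true := by decide +kernel

def l2 : List (Nat × Nat × Nat × Nat × Nat) :=
  [(1, 567, 615, 0, 1)]

def h2 : sheet 131 131 308 23024 47 32 l2 = true := by decide +kernel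

def l3 : List (Nat × Nat × Nat × Nat × Nat) :=
  [(1, 615, 655, 0, 1)]

def h3 : sheet 131 131 318 25775 47 32 l3 = true := by decide +kernel

theorem cv : Nat.ble 655 (cov 131 (l0 ++ (l1 ++ (l2 ++ (l3)))) 0 0 0) = true := by decide +kernel

end Pool.Agent.SignedQ.KE.K131
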