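import Pool.Agent.Lib.MP_cf17a0_co.S1.FD.K86

set_option autoImplicit false
set_option maxRecDepth 100000

namespace Pool.Agent.SignedQ.KE.K133

def l0 : List (Nat × Nat × Nat × Nat × Nat) :=
  [(1, 0, 501, 0, 1)]

def h0 : sheet 133 133 275 15529 47 33 l0 = true := by decide +kernel

def l1 : List (Nat × Nat × Nat × Nat × Nat) :=
  [(1, 501, 576, 0, 1)]

def h1 : sheet 133 133 293 20516 48 33 l1 = true := by decide +kernel

def l2 : List (Nat × Nat × Nat × Nat × Nat) :=
  [(1, 576, 624, 0, 1)]

def h2 : sheet 133 133 305 23708 48 33 l2 = true := by decide +kernel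

def l3 : List (Nat × Nat × Nat × Nat × Nat) :=
  [(1, 624, 665, 0, 1)]

def h3 : sheet 133 133 315 26501 48 33 l3 = true := by decide +kernel

theorem cv : Nat.ble 665 (cov 133 (l0 ++ (l1 ++ (l2 ++ (l3)))) 0 0 0) = true := by decide +kernel

end Pool.Agent.SignedQ.KE.K133
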