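import Pool.Agent.Lib.MP_cf17a0_co.S1.FD.K137

set_option autoImplicit false
set_option maxRecDepth 100000

namespace Pool.Agent.SignedQ.KE.K135

def l0 : List (Nat × Nat × Nat × Nat × Nat) :=
  [(1, 0, 525, 0, 1)]

def h0 : sheet 135 135 286 17112 49 34 l0 = true := by decide +kernel

def l1 : List (Nat × Nat × Nat × Nat × Nat) :=
  [(1, 525, 585, 0, 1)]

def h1 : sheet 135 135 305 21162 49 34 l1 = true := by decide +kernel

def l2 : List (Nat × Nat × Nat × Nat × Nat) :=
  [(1, 585, 633, 0, 1)]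

def h2 : sheet 135 135 318 24402 49 34 l2 = true := by decide +kernel

def l3 : List (Nat × Nat × Nat × Nat × Nat) :=
  [(1, 633, 675, 0, 1)]

def h3 : sheet 135 135 328 27237 49 34 l3 = true := by decide +kernel

theorem cv : Nat.ble 675 (cov 135 (l0 ++ (l1 ++ (l2 ++ (l3)))) 0 0 0) = true := by decide +kernel

end Pool.Agent.SignedQ.KE.K135
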