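import Pool.Agent.Lib.MP_cf17a0_co.S1.FD.K143

set_option autoImplicit false
set_option maxRecDepth 100000

namespace Pool.Agent.SignedQ.KE.K137

def l0 : List (Nat × Nat × Nat × Nat × Nat) :=
  [(1, 0, 441, 0, 1)]

def h0 : sheet 137 137 246 11338 48 34 l0 = true := by decide +kernel

def l1 : List (Nat × Nat × Nat × Nat × Nat) :=
  [(1, 441, 534, 0, 1)]

def h1 : sheet 137 137 283 17708 49 34 l1 = true := by decide +kernel

def l2 : List (Nat × Nat × Nat × Nat × Nat) :=
  [(1, 534, 597, 0, 1)]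

def h2 : sheet 137 137 310 22024 49 34 l2 = true := by decide +kernel

def l3 : List (Nat × Nat × Nat × Nat × Nat) :=
  [(1, 597, 645, 0, 1)]

def h3 : sheet 137 137 323 25312 49 34 l3 = true := by decide +kernel

def l4 : List (Nat × Nat × Nat × Nat × Nat) :=
  [(1, 645, 685, 0, 1)]

def h4 : sheet 137 137 332 28189 49 34 l4 = true := by decide +kernel

theorem cv : Nat.ble 685 (cov 137 (l0 ++ (l1 ++ (l2 ++ (l3 ++ (l4))))) 0 0 0) = true := by decide +kernel

end Pool.Agent.SignedQ.KE.K137
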