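import Pool.Agent.Lib.MP_cf17a0_co.S1.FD.K89

set_option autoImplicit false
set_option maxRecDepth 100000

namespace Pool.Agent.SignedQ.KE.K139

def l0 : List (Nat × Nat × Nat × Nat × Nat) :=
  [(1, 0, 480, 0, 1)]

def h0 : sheet 139 139 262 13936 49 35 l0 = true := by decide +kernel

def l1 : List (Nat × Nat × Nat × Nat × Nat) :=
  [(1, 480, 555, 0, 1)]

def h1 : sheet 139 139 299 19148 50 35 l1 = true := by decide +kernel

def l2 : List (Nat × Nat × Nat × Nat × Nat) :=
  [(1, 555, 603, 0, 1)]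

def h2 : sheet 139 139 314 22484 50 35 l2 = true := by decide +kernel

def l3 : List (Nat × Nat × Nat × Nat × Nat) :=
  [(1, 603, 654, 0, 1)]

def h3 : sheet 139 139 320 26029 50 35 l3 = true := by decide +kernel

def l4 : List (Nat × Nat × Nat × Nat × Nat) :=
  [(1, 654, 695, 0, 1)]

def h4 : sheet 139 139 329 28948 50 35 l4 = true := by decide +kernel

theorem cv : Nat.ble 695 (cov 139 (l0 ++ (l1 ++ (l2 ++ (l3 ++ (l4))))) 0 0 0) = true := by decide +kernel

end Pool.Agent.SignedQ.KE.K139
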