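import Pool.Agent.Lib.MP_cf17a0_co.S1.FD.K43

set_option autoImplicit false
set_option maxRecDepth 100000

namespace Pool.Agent.SignedQ.KE.K140

def l0 : List (Nat × Nat × Nat × Nat × Nat) :=
  [(1, 0, 495, 0, 1)]

def h0 : sheet 140 140 269 14946 49 35 l0 = true := by decide +kernel

def l1 : List (Nat × Nat × Nat × Nat × Nat) :=
  [(1, 495, 570, 0, 1)]

def h1 : sheet 140 140 297 20196 50 35 l1 = true := by decide +kernel

def l2 : List (Nat × Nat × Nat × Nat × Nat) :=
  [(1, 570, 618, 0, 1)]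

def h2 : sheet 140 140 311 23556 50 35 l2 = true := by decide +kernel

def l3 : List (Nat × Nat × Nat × Nat × Nat) :=
  [(1, 618, 660, 0, 1)]

def h3 : sheet 140 140 322 26496 50 35 l3 = true := by decide +kernel

def l4 : List (Nat × Nat × Nat × Nat × Nat) :=
  [(1, 660, 700, 0, 1)]

def h4 : sheet 140 140 332 29436 50 35 l4 = true := by decide +kernel

theorem cv : Nat.ble 700 (cov 140 (l0 ++ (l1 ++ (l2 ++ (l3 ++ (l4))))) 0 0 0) = true := by decide +kernel

end Pool.Agent.SignedQ.KE.K140
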