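import Pool.Agent.Lib.MP_cf17a0_co.S1.FD.K147

set_option autoImplicit false
set_option maxRecDepth 100000

namespace Pool.Agent.SignedQ.KE.K144

def l0 : List (Nat × Nat × Nat × Nat × Nat) :=
  [(1, 0, 534, 0, 1)]

def h0 : sheet 144 144 287 17605 51 36 l0 = true := by decide +kernel

def l1 : List (Nat × Nat × Nat × Nat × Nat) :=
  [(1, 534, 597, 0, 1)]

def h1 : sheet 144 144 310 22141 51 36 l1 = true := by decide +kernel

def l2 : List (Nat × Nat × Nat × Nat × Nat) :=
  [(1, 597, 645, 0, 1)]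

def h2 : sheet 144 144 323 25597 51 36 l2 = true := by decide +kernel

def l3 : List (Nat × Nat × Nat × Nat × Nat) :=
  [(1, 645, 687, 0, 1)]

def h3 : sheet 144 144 334 28621 51 36 l3 = true := by decide +kernel

def l4 : List (Nat × Nat × Nat × Nat × Nat) :=
  [(1, 687, 720, 0, 1)]

def h4 : sheet 144 144 341 30997 51 36 l4 = true := by decide +kernel

theorem cv : Nat.ble 720 (cov 144 (l0 ++ (l1 ++ (l2 ++ (l3 ++ (l4))))) 0 0 0) = true := by decide +kernel

end Pool.Agent.SignedQ.KE.K144
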