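import Pool.Agent.Lib.MP_cf17a0_co.S1.FD.K149

set_option autoImplicit false
set_option maxRecDepth 100000

namespace Pool.Agent.SignedQ.KE.K146

def l0 : List (Nat × Nat × Nat × Nat × Nat) :=
  [(1, 0, 492, 0, 1)]

def h0 : sheet 146 146 267 14491 51 37 l0 = true := by decide +kernel

def l1 : List (Nat × Nat × Nat × Nat × Nat) :=
  [(1, 492, 567, 0, 1)]

def h1 : sheet 146 146 302 19966 52 37 l1 = true := by decide +kernel

def l2 : List (Nat × Nat × Nat × Nat × Nat) :=
  [(1, 567, 615, 0, 1)]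

def h2 : sheet 146 146 317 23470 52 37 l2 = true := by decide +kernel

def l3 : List (Nat × Nat × Nat × Nat × Nat) :=
  [(1, 615, 654, 0, 1)]

def h3 : sheet 146 146 327 26317 52 37 l3 = true := by decide +kernel

def l4 : List (Nat × Nat × Nat × Nat × Nat) :=
  [(1, 654, 696, 0, 1)]

def h4 : sheet 146 146 338 29383 52 37 l4 = true := by decide +kernel

def l5 : List (Nat × Nat × Nat × Nat × Nat) :=
  [(1, 696, 730, 0, 1)]

def h5 : sheet 146 146 346 32011 52 37 l5 = true := by decide +kernel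

theorem cv : Nat.ble 730 (cov 146 (l0 ++ (l1 ++ (l2 ++ (l3 ++ (l4 ++ (l5)))))) 0 0 0) = true := by decide +kernel

end Pool.Agent.SignedQ.KE.K146
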