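import Pool.Agent.Lib.MP_cf17a0_co.S1.FD.K99

set_option autoImplicit false
set_option maxRecDepth 100000

namespace Pool.Agent.SignedQ.KE.K149

def l0 : List (Nat × Nat × Nat × Nat × Nat) :=
  [(1, 0, 471, 0, 1)]

def h0 : sheet 149 149 260 12778 51 37 l0 = true := by decide +kernel

def l1 : List (Nat × Nat × Nat × Nat × Nat) :=
  [(1, 471, 549, 0, 1)]

def h1 : sheet 149 149 303 18589 52 37 l1 = true := by decide +kernel

def l2 : List (Nat × Nat × Nat × Nat × Nat) :=
  [(1, 549, 597, 0, 1)]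

def h2 : sheet 149 149 320 22165 52 37 l2 = true := by decide +kernel

def l3 : List (Nat × Nat × Nat × Nat × Nat) :=
  [(1, 597, 645, 0, 1)]

def h3 : sheet 149 149 335 25741 52 37 l3 = true := by decide +kernel

def l4 : List (Nat × Nat × Nat × Nat × Nat) :=
  [(1, 645, 687, 0, 1)]

def h4 : sheet 149 149 346 28870 52 37 l4 = true := by decide +kernel

def l5 : List (Nat × Nat × Nat × Nat × Nat) :=
  [(1, 687, 720, 0, 1)]

def h5 : sheet 149 149 346 31328 52 37 l5 = true := by decide +kernel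

def l6 : List (Nat × Nat × Nat × Nat × Nat) :=
  [(1, 720, 745, 0, 1)]

def h6 : sheet 149 149 361 33340 53 37 l6 = true := by decide +kernel

theorem cv : Nat.ble 745 (cov 149 (l0 ++ (l1 ++ (l2 ++ (l3 ++ (l4 ++ (l5 ++ (l6))))))) 0 0 0) = true := by decide +kernel

end Pool.Agent.SignedQ.KE.K149
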