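import Pool.Agent.Lib.MP_cf17a0_co.S1.FD.K78

set_option autoImplicit false
set_option maxRecDepth 100000

namespace Pool.Agent.SignedQ.KE.K26

def l0 : List (Nat × Nat × Nat × Nat × Nat) :=
  [(1, 0, 97, 0, 1), (1, 97, 127, 0, 1), (1, 127, 166, 0, 2), (1, 166, 216, 0, 3), (1, 216, 281, 0, 4), (1, 281, 366, 0, 6), (1, 366, 476, 0, 8), (1, 476, 620, 0, 8)]

def h0 : sheet 26 26 98 7378 18 5 l0 = true := by decide +kernel

def l1 : List (Nat × Nat × Nat × Nat × Nat) :=
  [(1, 476, 620, 8, 3)]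

def h1 : sheet 26 26 89 4648 18 5 l1 = true := by decide +kernel

def l2 : List (Nat × Nat × Nat × Nat × Nat) :=
  [(1, 620, 806, 0, 14)]

def h2 : sheet 26 26 104 9796 19 5 l2 = true := by decide +kernel

theorem cv : Nat.ble 806 (cov 26 (l0 ++ (l1 ++ (l2))) 0 0 0) = true := by decide +kernel

end Pool.Agent.SignedQ.KE.K26
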