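import Pool.Agent.Lib.MP_cf17a0_co.S1.FD.K131

set_option autoImplicit false
set_option maxRecDepth 100000

namespace Pool.Agent.SignedQ.KE.K27

def l0 : List (Nat × Nat × Nat × Nat × Nat) :=
  [(1, 0, 101, 0, 1), (1, 101, 132, 0, 1), (1, 132, 172, 0, 2)]

def h0 : sheet 27 27 71 1601 16 5 l0 = true := by decide +kernel

def l1 : List (Nat × Nat × Nat × Nat × Nat) :=
  [(1, 172, 224, 0, 3), (1, 224, 292, 0, 4), (1, 292, 380, 0, 6), (1, 380, 494, 0, 8), (1, 494, 643, 0, 3)]

def h1 : sheet 27 27 108 7959 18 5 l1 = true := by decide +kernel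

def l2 : List (Nat × Nat × Nat × Nat × Nat) :=
  [(1, 494, 643, 3, 8), (1, 643, 837, 0, 4)]

def h2 : sheet 27 27 114 10551 19 5 l2 = true := by decide +kernel

def l3 : List (Nat × Nat × Nat × Nat × Nat) :=
  [(1, 643, 837, 4, 10)]

def h3 : sheet 27 27 111 9174 19 5 l3 = true := by decide +kernel

theorem cv : Nat.ble 837 (cov 27 (l0 ++ (l1 ++ (l2 ++ (l3)))) 0 0 0) = true := by decide +kernel

end Pool.Agent.SignedQ.KE.K27
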