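import Pool.Agent.Lib.MP_cf17a0_co.S1.FD.K83

set_option autoImplicit false
set_option maxRecDepth 100000

namespace Pool.Agent.SignedQ.KE.K28

def l0 : List (Nat × Nat × Nat × Nat × Nat) :=
  [(1, 0, 105, 0, 1), (1, 105, 137, 0, 1), (1, 137, 179, 0, 2), (1, 179, 233, 0, 3), (1, 233, 303, 0, 4), (1, 303, 394, 0, 6), (1, 394, 513, 0, 8), (1, 513, 667, 0, 1)]

def h0 : sheet 28 28 106 8562 19 5 l0 = true := by decide +kernel

def l1 : List (Nat × Nat × Nat × Nat × Nat) :=
  [(1, 513, 667, 1, 10), (1, 667, 868, 0, 2)]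

def h1 : sheet 28 28 111 11376 19 5 l1 = true := by decide +kernel

def l2 : List (Nat × Nat × Nat × Nat × Nat) :=
  [(1, 667, 868, 2, 12)]

def h2 : sheet 28 28 109 10536 19 5 l2 = true := by decide +kernel

theorem cv : Nat.ble 868 (cov 28 (l0 ++ (l1 ++ (l2))) 0 0 0) = true := by decide +kernel

end Pool.Agent.SignedQ.KE.K28
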