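import Pool.Agent.Lib.MP_cf17a0_co.S1.FD.K41

set_option autoImplicit false
set_option maxRecDepth 100000

namespace Pool.Agent.SignedQ.KE.K29

def l0 : List (Nat × Nat × Nat × Nat × Nat) :=
  [(1, 0, 108, 0, 1), (1, 108, 141, 0, 1), (1, 141, 184, 0, 2), (1, 184, 240, 0, 3)]

def h0 : sheet 29 29 83 2618 17 5 l0 = true := by decide +kernel

def l1 : List (Nat × Nat × Nat × Nat × Nat) :=
  [(1, 240, 313, 0, 4), (1, 313, 408, 0, 6), (1, 408, 531, 0, 8), (1, 531, 691, 0, 1)]

def h1 : sheet 29 29 116 9187 19 5 l1 = true := by decide +kernel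

def l2 : List (Nat × Nat × Nat × Nat × Nat) :=
  [(1, 531, 691, 1, 10), (1, 691, 899, 0, 1)]

def h2 : sheet 29 29 115 12188 19 5 l2 = true := by decide +kernel

def l3 : List (Nat × Nat × Nat × Nat × Nat) :=
  [(1, 691, 899, 1, 13)]

def h3 : sheet 29 29 120 11753 19 5 l3 = true := by decide +kernel

theorem cv : Nat.ble 899 (cov 29 (l0 ++ (l1 ++ (l2 ++ (l3)))) 0 0 0) = true := by decide +kernel

end Pool.Agent.SignedQ.KE.K29
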