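import Pool.Agent.Lib.MP_cf17a0_co.S1.FD.K108

set_option autoImplicit false
set_option maxRecDepth 100000

namespace Pool.Agent.SignedQ.KE.K30

def l0 : List (Nat × Nat × Nat × Nat × Nat) :=
  [(1, 0, 94, 0, 1), (1, 94, 123, 0, 1)]

def h0 : sheet 30 30 65 923 16 6 l0 = true := by decide +kernel

def l1 : List (Nat × Nat × Nat × Nat × Nat) :=
  [(1, 123, 160, 0, 2), (1, 160, 209, 0, 2), (1, 209, 272, 0, 4), (1, 272, 354, 0, 5), (1, 354, 461, 0, 7), (1, 461, 600, 0, 7)]

def h1 : sheet 30 30 108 8078 19 6 l1 = true := by decide +kernel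

def l2 : List (Nat × Nat × Nat × Nat × Nat) :=
  [(1, 461, 600, 7, 2)]

def h2 : sheet 30 30 96 5003 19 6 l2 = true := by decide +kernel

theorem cv : Nat.ble 600 (cov 30 (l0 ++ (l1 ++ (l2))) 0 0 0) = true := by decide +kernel

end Pool.Agent.SignedQ.KE.K30
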