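import Pool.Agent.Lib.MP_cf17a0_co.S1.FD.K32

set_option autoImplicit false
set_option maxRecDepth 100000

namespace Pool.Agent.SignedQ.KE.K31

def l0 : List (Nat × Nat × Nat × Nat × Nat) :=
  [(1, 0, 97, 0, 1), (1, 97, 127, 0, 1), (1, 127, 166, 0, 2), (1, 166, 216, 0, 2), (1, 216, 281, 0, 4), (1, 281, 366, 0, 5)]

def h0 : sheet 31 31 100 4690 19 6 l0 = true := by decide +kernel

def l1 : List (Nat × Nat × Nat × Nat × Nat) :=
  [(1, 366, 476, 0, 7), (1, 476, 620, 0, 9)]

def h1 : sheet 31 31 119 8642 20 6 l1 = true := by decide +kernel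

theorem cv : Nat.ble 620 (cov 31 (l0 ++ (l1)) 0 0 0) = true := by decide +kernel

end Pool.Agent.SignedQ.KE.K31
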