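import Pool.Agent.Lib.MP_cf17a0_co.S1.FD.K34

set_option autoImplicit false
set_option maxRecDepth 100000

namespace Pool.Agent.SignedQ.KE.K32

def l0 : List (Nat × Nat × Nat × Nat × Nat) :=
  [(1, 0, 100, 0, 1), (1, 100, 131, 0, 1)]

def h0 : sheet 32 32 68 1065 17 6 l0 = true := by decide +kernel

def l1 : List (Nat × Nat × Nat × Nat × Nat) :=
  [(1, 131, 171, 0, 2)]

def h1 : sheet 32 32 78 1689 17 6 l1 = true := by decide +kernel

def l2 : List (Nat × Nat × Nat × Nat × Nat) :=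
  [(1, 171, 223, 0, 2), (1, 223, 290, 0, 4), (1, 290, 378, 0, 5), (1, 378, 492, 0, 7), (1, 492, 640, 0, 1)]

def h2 : sheet 32 32 116 9225 20 6 l2 = true := by decide +kernel

def l3 : List (Nat × Nat × Nat × Nat × Nat) :=
  [(1, 492, 640, 1, 8)]

def h3 : sheet 32 32 115 8665 20 6 l3 = true := by decide +kernel

theorem cv : Nat.ble 640 (cov 32 (l0 ++ (l1 ++ (l2 ++ (l3)))) 0 0 0) = true := by decide +kernel

end Pool.Agent.SignedQ.KE.K32
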