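import Pool.Agent.Lib.MP_cf17a0_co.S1.FD.K118

set_option autoImplicit false
set_option maxRecDepth 100000

namespace Pool.Agent.SignedQ.KE.K33

def l0 : List (Nat × Nat × Nat × Nat × Nat) :=
  [(1, 0, 103, 0, 1), (1, 103, 135, 0, 1)]

def h0 : sheet 33 33 75 1115 17 6 l0 = true := by decide +kernel

def l1 : List (Nat × Nat × Nat × Nat × Nat) :=
  [(1, 135, 176, 0, 2), (1, 176, 230, 0, 2), (1, 230, 300, 0, 4), (1, 300, 390, 0, 5)]

def h1 : sheet 33 33 104 5322 19 6 l1 = true := by decide +kernel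

def l2 : List (Nat × Nat × Nat × Nat × Nat) :=
  [(1, 390, 507, 0, 7), (1, 507, 660, 0, 5)]

def h2 : sheet 33 33 123 9777 20 6 l2 = true := by decide +kernel

def l3 : List (Nat × Nat × Nat × Nat × Nat) :=
  [(1, 507, 660, 5, 4)]

def h3 : sheet 33 33 116 7022 19 6 l3 = true := by decide +kernel

theorem cv : Nat.ble 660 (cov 33 (l0 ++ (l1 ++ (l2 ++ (l3)))) 0 0 0) = true := by decide +kernel

end Pool.Agent.SignedQ.KE.K33
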