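import Pool.Agent.Lib.MP_cf17a0_co.S1.FD.K73

set_option autoImplicit false
set_option maxRecDepth 100000

namespace Pool.Agent.SignedQ.KE.K34

def l0 : List (Nat × Nat × Nat × Nat × Nat) :=
  [(1, 0, 107, 0, 1), (1, 107, 140, 0, 1)]

def h0 : sheet 34 34 74 1216 18 7 l0 = true := by decide +kernel

def l1 : List (Nat × Nat × Nat × Nat × Nat) :=
  [(1, 140, 182, 0, 2), (1, 182, 237, 0, 2), (1, 237, 309, 0, 4), (1, 309, 402, 0, 5), (1, 402, 523, 0, 7)]

def h1 : sheet 34 34 116 7744 20 7 l1 = true := by decide +kernel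

def l2 : List (Nat × Nat × Nat × Nat × Nat) :=
  [(1, 523, 680, 0, 9)]

def h2 : sheet 34 34 123 10396 21 7 l2 = true := by decide +kernel

theorem cv : Nat.ble 680 (cov 34 (l0 ++ (l1 ++ (l2))) 0 0 0) = true := by decide +kernel

end Pool.Agent.SignedQ.KE.K34
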