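import Pool.Agent.Lib.MP_cf17a0_co.S1.FD.K37

set_option autoImplicit false
set_option maxRecDepth 100000

namespace Pool.Agent.SignedQ.KE.K36

def l0 : List (Nat × Nat × Nat × Nat × Nat) :=
  [(1, 0, 113, 0, 1), (1, 113, 147, 0, 1)]

def h0 : sheet 36 36 77 1324 18 7 l0 = true := by decide +kernel

def l1 : List (Nat × Nat × Nat × Nat × Nat) :=
  [(1, 147, 192, 0, 2), (1, 192, 250, 0, 2), (1, 250, 326, 0, 4), (1, 326, 425, 0, 5), (1, 425, 553, 0, 7)]

def h1 : sheet 36 36 123 8668 21 7 l1 = true := by decide +kernel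

def l2 : List (Nat × Nat × Nat × Nat × Nat) :=
  [(1, 553, 720, 0, 9)]

def h2 : sheet 36 36 130 11638 21 7 l2 = true := by decide +kernel

theorem cv : Nat.ble 720 (cov 36 (l0 ++ (l1 ++ (l2))) 0 0 0) = true := by decide +kernel

end Pool.Agent.SignedQ.KE.K36
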