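import Pool.Agent.Lib.MP_cf17a0_co.S1.FD.K129

set_option autoImplicit false
set_option maxRecDepth 100000

namespace Pool.Agent.SignedQ.KE.K37

def l0 : List (Nat × Nat × Nat × Nat × Nat) :=
  [(1, 0, 116, 0, 1), (1, 116, 152, 0, 1), (1, 152, 198, 0, 2), (1, 198, 258, 0, 2), (1, 258, 336, 0, 4), (1, 336, 437, 0, 5), (1, 437, 569, 0, 4)]

def h0 : sheet 37 37 124 9149 21 7 l0 = true := by decide +kernel

def l1 : List (Nat × Nat × Nat × Nat × Nat) :=
  [(1, 437, 569, 4, 3)]

def h1 : sheet 37 37 114 6374 20 7 l1 = true := by decide +kernel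

def l2 : List (Nat × Nat × Nat × Nat × Nat) :=
  [(1, 569, 740, 0, 4)]

def h2 : sheet 37 37 140 12313 21 7 l2 = true := by decide +kernel

def l3 : List (Nat × Nat × Nat × Nat × Nat) :=
  [(1, 569, 740, 4, 5)]

def h3 : sheet 37 37 130 9630 21 7 l3 = true := by decide +kernel

theorem cv : Nat.ble 740 (cov 37 (l0 ++ (l1 ++ (l2 ++ (l3)))) 0 0 0) = true := by decide +kernel

end Pool.Agent.SignedQ.KE.K37
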