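import Pool.Agent.Lib.MP_cf17a0_co.S1.FD.K132

set_option autoImplicit false
set_option maxRecDepth 100000

namespace Pool.Agent.SignedQ.KE.K38

def l0 : List (Nat × Nat × Nat × Nat × Nat) :=
  [(1, 0, 120, 0, 1), (1, 120, 156, 0, 1)]

def h0 : sheet 38 38 81 1492 19 8 l0 = true := by decide +kernel

def l1 : List (Nat × Nat × Nat × Nat × Nat) :=
  [(1, 156, 203, 0, 2), (1, 203, 265, 0, 2), (1, 265, 345, 0, 4), (1, 345, 449, 0, 5), (1, 449, 584, 0, 2)]

def h1 : sheet 38 38 130 9643 22 8 l1 = true := by decide +kernel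

def l2 : List (Nat × Nat × Nat × Nat × Nat) :=
  [(1, 449, 584, 2, 5), (1, 584, 760, 0, 2)]

def h2 : sheet 38 38 137 13006 22 8 l2 = true := by decide +kernel

def l3 : List (Nat × Nat × Nat × Nat × Nat) :=
  [(1, 584, 760, 2, 7)]

def h3 : sheet 38 38 134 11543 22 8 l3 = true := by decide +kernel

theorem cv : Nat.ble 760 (cov 38 (l0 ++ (l1 ++ (l2 ++ (l3)))) 0 0 0) = true := by decide +kernel

end Pool.Agent.SignedQ.KE.K38
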