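import Pool.Agent.Lib.MP_cf17a0_co.S1.FD.K134

set_option autoImplicit false
set_option maxRecDepth 100000

namespace Pool.Agent.SignedQ.KE.K39

def l0 : List (Nat × Nat × Nat × Nat × Nat) :=
  [(1, 0, 123, 0, 1), (1, 123, 160, 0, 1)]

def h0 : sheet 39 39 84 1610 19 8 l0 = true := by decide +kernel

def l1 : List (Nat × Nat × Nat × Nat × Nat) :=
  [(1, 160, 209, 0, 2)]

def h1 : sheet 39 39 96 2546 20 8 l1 = true := by decide +kernel

def l2 : List (Nat × Nat × Nat × Nat × Nat) :=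
  [(1, 209, 272, 0, 2), (1, 272, 354, 0, 4), (1, 354, 461, 0, 5), (1, 461, 600, 0, 2)]

def h2 : sheet 39 39 132 10151 22 8 l2 = true := by decide +kernel

def l3 : List (Nat × Nat × Nat × Nat × Nat) :=
  [(1, 461, 600, 2, 5), (1, 600, 780, 0, 1)]

def h3 : sheet 39 39 139 13661 22 8 l3 = true := by decide +kernel

def l4 : List (Nat × Nat × Nat × Nat × Nat) :=
  [(1, 600, 780, 1, 8)]

def h4 : sheet 39 39 142 12881 22 8 l4 = true := by decide +kernel

theorem cv : Nat.ble 780 (cov 39 (l0 ++ (l1 ++ (l2 ++ (l3 ++ (l4))))) 0 0 0) = true := by decide +kernel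

end Pool.Agent.SignedQ.KE.K39
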