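import Pool.Agent.Lib.MP_cf17a0_co.S1.FD.K138

set_option autoImplicit false
set_option maxRecDepth 100000

namespace Pool.Agent.SignedQ.KE.K40

def l0 : List (Nat × Nat × Nat × Nat × Nat) :=
  [(1, 0, 126, 0, 1), (1, 126, 164, 0, 1)]

def h0 : sheet 40 40 86 1671 19 8 l0 = true := by decide +kernel

def l1 : List (Nat × Nat × Nat × Nat × Nat) :=
  [(1, 164, 214, 0, 2), (1, 214, 279, 0, 2), (1, 279, 363, 0, 4), (1, 363, 473, 0, 5)]

def h1 : sheet 40 40 127 7851 21 8 l1 = true := by decide +kernel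

def l2 : List (Nat × Nat × Nat × Nat × Nat) :=
  [(1, 473, 615, 0, 7)]

def h2 : sheet 40 40 136 10671 22 8 l2 = true := by decide +kernel

def l3 : List (Nat × Nat × Nat × Nat × Nat) :=
  [(1, 615, 800, 0, 2)]

def h3 : sheet 40 40 144 14391 22 8 l3 = true := by decide +kernel

def l4 : List (Nat × Nat × Nat × Nat × Nat) :=
  [(1, 615, 800, 2, 7)]

def h4 : sheet 40 40 141 12831 22 8 l4 = true := by decide +kernel

theorem cv : Nat.ble 800 (cov 40 (l0 ++ (l1 ++ (l2 ++ (l3 ++ (l4))))) 0 0 0) = true := by decide +kernel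

end Pool.Agent.SignedQ.KE.K40
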