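import Pool.Agent.Lib.MP_cf17a0_co.S1.FD.K141

set_option autoImplicit false
set_option maxRecDepth 100000

namespace Pool.Agent.SignedQ.KE.K41

def l0 : List (Nat × Nat × Nat × Nat × Nat) :=
  [(1, 0, 130, 0, 1), (1, 130, 169, 0, 1), (1, 169, 220, 0, 2), (1, 220, 286, 0, 2), (1, 286, 372, 0, 4), (1, 372, 484, 0, 5)]

def h0 : sheet 41 41 134 8252 22 8 l0 = true := by decide +kernel

def l1 : List (Nat × Nat × Nat × Nat × Nat) :=
  [(1, 484, 630, 0, 7)]

def h1 : sheet 41 41 138 11204 22 8 l1 = true := by decide +kernel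

def l2 : List (Nat × Nat × Nat × Nat × Nat) :=
  [(1, 630, 820, 0, 2)]

def h2 : sheet 41 41 146 15140 22 8 l2 = true := by decide +kernel

def l3 : List (Nat × Nat × Nat × Nat × Nat) :=
  [(1, 630, 820, 2, 7)]

def h3 : sheet 41 41 146 13500 22 8 l3 = true := by decide +kernel

theorem cv : Nat.ble 820 (cov 41 (l0 ++ (l1 ++ (l2 ++ (l3)))) 0 0 0) = true := by decide +kernel

end Pool.Agent.SignedQ.KE.K41
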