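import Pool.Agent.Lib.MP_cf17a0_co.S1.FD.K90

set_option autoImplicit false
set_option maxRecDepth 100000

namespace Pool.Agent.SignedQ.KE.K42

def l0 : List (Nat × Nat × Nat × Nat × Nat) :=
  [(1, 0, 133, 0, 1), (1, 133, 173, 0, 1)]

def h0 : sheet 42 42 90 1859 20 9 l0 = true := by decide +kernel

def l1 : List (Nat × Nat × Nat × Nat × Nat) :=
  [(1, 173, 225, 0, 2), (1, 225, 293, 0, 2), (1, 293, 381, 0, 4), (1, 381, 496, 0, 5)]

def h1 : sheet 42 42 134 8663 23 9 l1 = true := by decide +kernel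

def l2 : List (Nat × Nat × Nat × Nat × Nat) :=
  [(1, 496, 646, 0, 7)]

def h2 : sheet 42 42 143 11813 23 9 l2 = true := by decide +kernel

def l3 : List (Nat × Nat × Nat × Nat × Nat) :=
  [(1, 646, 840, 0, 1)]

def h3 : sheet 42 42 151 15845 23 9 l3 = true := by decide +kernel

def l4 : List (Nat × Nat × Nat × Nat × Nat) :=
  [(1, 646, 840, 1, 4)]

def h4 : sheet 42 42 150 14942 23 9 l4 = true := by decide +kernel

def l5 : List (Nat × Nat × Nat × Nat × Nat) :=
  [(1, 646, 840, 5, 4)]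

def h5 : sheet 42 42 141 11435 23 9 l5 = true := by decide +kernel

theorem cv : Nat.ble 840 (cov 42 (l0 ++ (l1 ++ (l2 ++ (l3 ++ (l4 ++ (l5)))))) 0 0 0) = true := by decide +kernel

end Pool.Agent.SignedQ.KE.K42
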