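import Pool.Agent.Lib.MP_cf17a0_co.S1.FD.K93

set_option autoImplicit false
set_option maxRecDepth 100000

namespace Pool.Agent.SignedQ.KE.K43

def l0 : List (Nat × Nat × Nat × Nat × Nat) :=
  [(1, 0, 146, 0, 1), (1, 146, 190, 0, 1)]

def h0 : sheet 43 43 97 2248 21 9 l0 = true := by decide +kernel

def l1 : List (Nat × Nat × Nat × Nat × Nat) :=
  [(1, 190, 248, 0, 2), (1, 248, 323, 0, 3), (1, 323, 420, 0, 4), (1, 420, 546, 0, 4)]

def h1 : sheet 43 43 138 9859 23 9 l1 = true := by decide +kernel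

def l2 : List (Nat × Nat × Nat × Nat × Nat) :=
  [(1, 420, 546, 4, 1)]

def h2 : sheet 43 43 121 6161 22 9 l2 = true := by decide +kernel

def l3 : List (Nat × Nat × Nat × Nat × Nat) :=
  [(1, 546, 711, 0, 3)]

def h3 : sheet 43 43 155 13406 23 9 l3 = true := by decide +kernel

def l4 : List (Nat × Nat × Nat × Nat × Nat) :=
  [(1, 546, 711, 3, 4), (1, 711, 860, 0, 1)]

def h4 : sheet 43 43 163 16631 24 9 l4 = true := by decide +kernel

def l5 : List (Nat × Nat × Nat × Nat × Nat) :=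
  [(1, 711, 860, 1, 6)]

def h5 : sheet 43 43 158 15664 23 9 l5 = true := by decide +kernel

def l6 : List (Nat × Nat × Nat × Nat × Nat) :=
  [(1, 711, 860, 7, 2)]

def h6 : sheet 43 43 143 10138 23 9 l6 = true := by decide +kernel

theorem cv : Nat.ble 860 (cov 43 (l0 ++ (l1 ++ (l2 ++ (l3 ++ (l4 ++ (l5 ++ (l6))))))) 0 0 0) = true := by decide +kernel

end Pool.Agent.SignedQ.KE.K43
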