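import Pool.Agent.Lib.MP_cf17a0_co.S1.FD.K56

set_option autoImplicit false
set_option maxRecDepth 100000

namespace Pool.Agent.SignedQ.KE.K48

def l0 : List (Nat × Nat × Nat × Nat × Nat) :=
  [(1, 0, 184, 0, 1)]

def h0 : sheet 48 48 98 2125 22 10 l0 = true := by decide +kernel

def l1 : List (Nat × Nat × Nat × Nat × Nat) :=
  [(1, 184, 240, 0, 1)]

def h1 : sheet 48 48 113 3421 22 10 l1 = true := by decide +kernel

def l2 : List (Nat × Nat × Nat × Nat × Nat) :=
  [(1, 240, 313, 0, 2), (1, 313, 407, 0, 3), (1, 407, 530, 0, 5)]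

def h2 : sheet 48 48 150 10405 24 10 l2 = true := by decide +kernel

def l3 : List (Nat × Nat × Nat × Nat × Nat) :=
  [(1, 530, 690, 0, 2)]

def h3 : sheet 48 48 160 14221 24 10 l3 = true := by decide +kernel

def l4 : List (Nat × Nat × Nat × Nat × Nat) :=
  [(1, 530, 690, 2, 4)]

def h4 : sheet 48 48 154 11941 24 10 l4 = true := by decide +kernel

def l5 : List (Nat × Nat × Nat × Nat × Nat) :=
  [(1, 690, 834, 0, 1)]

def h5 : sheet 48 48 168 17677 25 10 l5 = true := by decide +kernel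

def l6 : List (Nat × Nat × Nat × Nat × Nat) :=
  [(1, 690, 834, 1, 5)]

def h6 : sheet 48 48 166 16525 25 10 l6 = true := by decide +kernel

def l7 : List (Nat × Nat × Nat × Nat × Nat) :=
  [(1, 690, 834, 6, 2)]

def h7 : sheet 48 48 146 10765 24 10 l7 = true := by decide +kernel

def l8 : List (Nat × Nat × Nat × Nat × Nat) :=
  [(1, 834, 960, 0, 1)]

def h8 : sheet 48 48 173 20701 25 10 l8 = true := by decide +kernel

def l9 : List (Nat × Nat × Nat × Nat × Nat) :=
  [(1, 834, 960, 1, 3)]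

def h9 : sheet 48 48 171 19525 25 10 l9 = true := by decide +kernel

def l10 : List (Nat × Nat × Nat × Nat × Nat) :=
  [(1, 834, 960, 4, 5)]

def h10 : sheet 48 48 163 16189 24 10 l10 = true := by decide +kernel

theorem cv : Nat.ble 960 (cov 48 (l0 ++ (l1 ++ (l2 ++ (l3 ++ (l4 ++ (l5 ++ (l6 ++ (l7 ++ (l8 ++ (l9 ++ (l10))))))))))) 0 0 0) = true := by decide +kernel

end Pool.Agent.SignedQ.KE.K48
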