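import Pool.Agent.Lib.MP_cf17a0_co.S1.FD.K54

set_option autoImplicit false
set_option maxRecDepth 100000

namespace Pool.Agent.SignedQ.KE.K49

def l0 : List (Nat × Nat × Nat × Nat × Nat) :=
  [(1, 0, 149, 0, 1), (1, 149, 194, 0, 1)]

def h0 : sheet 49 49 108 2341 22 10 l0 = true := by decide +kernel

def l1 : List (Nat × Nat × Nat × Nat × Nat) :=
  [(1, 194, 253, 0, 2), (1, 253, 330, 0, 2), (1, 330, 430, 0, 3)]

def h1 : sheet 49 49 142 8147 23 10 l1 = true := by decide +kernel

def l2 : List (Nat × Nat × Nat × Nat × Nat) :=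
  [(1, 430, 560, 0, 5)]

def h2 : sheet 49 49 161 11308 24 10 l2 = true := by decide +kernel

def l3 : List (Nat × Nat × Nat × Nat × Nat) :=
  [(1, 560, 729, 0, 1)]

def h3 : sheet 49 49 171 15424 24 10 l3 = true := by decide +kernel

def l4 : List (Nat × Nat × Nat × Nat × Nat) :=
  [(1, 560, 729, 1, 5)]

def h4 : sheet 49 49 165 14223 24 10 l4 = true := by decide +kernel

def l5 : List (Nat × Nat × Nat × Nat × Nat) :=
  [(1, 729, 882, 0, 1)]

def h5 : sheet 49 49 171 19172 25 10 l5 = true := by decide +kernel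

def l6 : List (Nat × Nat × Nat × Nat × Nat) :=
  [(1, 729, 882, 1, 3)]

def h6 : sheet 49 49 177 18021 25 10 l6 = true := by decide +kernel

def l7 : List (Nat × Nat × Nat × Nat × Nat) :=
  [(1, 729, 882, 4, 4), (1, 882, 980, 0, 1)]

def h7 : sheet 49 49 183 21598 25 10 l7 = true := by decide +kernel

def l8 : List (Nat × Nat × Nat × Nat × Nat) :=
  [(1, 882, 980, 1, 5)]

def h8 : sheet 49 49 177 20348 25 10 l8 = true := by decide +kernel

def l9 : List (Nat × Nat × Nat × Nat × Nat) :=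
  [(1, 882, 980, 6, 3)]

def h9 : sheet 49 49 159 14468 24 10 l9 = true := by decide +kernel

theorem cv : Nat.ble 980 (cov 49 (l0 ++ (l1 ++ (l2 ++ (l3 ++ (l4 ++ (l5 ++ (l6 ++ (l7 ++ (l8 ++ (l9)))))))))) 0 0 0) = true := by decide +kernel

end Pool.Agent.SignedQ.KE.K49
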