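import Pool.Agent.Lib.MP_cf17a0_co.S1.FD.K53

set_option autoImplicit false
set_option maxRecDepth 100000

namespace Pool.Agent.SignedQ.KE.K50

def l0 : List (Nat × Nat × Nat × Nat × Nat) :=
  [(1, 0, 161, 0, 1), (1, 161, 210, 0, 1)]

def h0 : sheet 50 50 108 2713 23 11 l0 = true := by decide +kernel

def l1 : List (Nat × Nat × Nat × Nat × Nat) :=
  [(1, 210, 273, 0, 2), (1, 273, 356, 0, 3), (1, 356, 464, 0, 4)]

def h1 : sheet 50 50 149 9088 25 11 l1 = true := by decide +kernel

def l2 : List (Nat × Nat × Nat × Nat × Nat) :=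
  [(1, 464, 604, 0, 5)]

def h2 : sheet 50 50 160 12613 25 11 l2 = true := by decide +kernel

def l3 : List (Nat × Nat × Nat × Nat × Nat) :=
  [(1, 604, 786, 0, 1)]

def h3 : sheet 50 50 171 17113 26 11 l3 = true := by decide +kernel

def l4 : List (Nat × Nat × Nat × Nat × Nat) :=
  [(1, 604, 786, 1, 3)]

def h4 : sheet 50 50 168 15938 25 11 l4 = true := by decide +kernel

def l5 : List (Nat × Nat × Nat × Nat × Nat) :=
  [(1, 604, 786, 4, 3)]

def h5 : sheet 50 50 157 12163 25 11 l5 = true := by decide +kernel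

def l6 : List (Nat × Nat × Nat × Nat × Nat) :=
  [(1, 786, 903, 0, 2)]

def h6 : sheet 50 50 177 20038 26 11 l6 = true := by decide +kernel

def l7 : List (Nat × Nat × Nat × Nat × Nat) :=
  [(1, 786, 903, 2, 6)]

def h7 : sheet 50 50 172 17488 26 11 l7 = true := by decide +kernel

def l8 : List (Nat × Nat × Nat × Nat × Nat) :=
  [(1, 903, 1000, 0, 2)]

def h8 : sheet 50 50 181 22513 26 11 l8 = true := by decide +kernel

def l9 : List (Nat × Nat × Nat × Nat × Nat) :=
  [(1, 903, 1000, 2, 7)]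

def h9 : sheet 50 50 176 19938 26 11 l9 = true := by decide +kernel

theorem cv : Nat.ble 1000 (cov 50 (l0 ++ (l1 ++ (l2 ++ (l3 ++ (l4 ++ (l5 ++ (l6 ++ (l7 ++ (l8 ++ (l9)))))))))) 0 0 0) = true := by decide +kernel

end Pool.Agent.SignedQ.KE.K50
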