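import Pool.Agent.Lib.MP_cf17a0_co.S1.FD.K52

set_option autoImplicit false
set_option maxRecDepth 100000

namespace Pool.Agent.SignedQ.KE.K51

def l0 : List (Nat × Nat × Nat × Nat × Nat) :=
  [(1, 0, 176, 0, 1)]

def h0 : sheet 51 51 101 1875 22 11 l0 = true := by decide +kernel

def l1 : List (Nat × Nat × Nat × Nat × Nat) :=
  [(1, 176, 230, 0, 1), (1, 230, 300, 0, 2), (1, 300, 390, 0, 3)]

def h1 : sheet 51 51 142 7307 24 11 l1 = true := by decide +kernel

def l2 : List (Nat × Nat × Nat × Nat × Nat) :=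
  [(1, 390, 507, 0, 4)]

def h2 : sheet 51 51 162 10290 25 11 l2 = true := by decide +kernel

def l3 : List (Nat × Nat × Nat × Nat × Nat) :=
  [(1, 507, 660, 0, 3)]

def h3 : sheet 51 51 165 14192 25 11 l3 = true := by decide +kernel

def l4 : List (Nat × Nat × Nat × Nat × Nat) :=
  [(1, 507, 660, 3, 2)]

def h4 : sheet 51 51 152 10367 25 11 l4 = true := by decide +kernel

def l5 : List (Nat × Nat × Nat × Nat × Nat) :=
  [(1, 660, 798, 0, 2)]

def h5 : sheet 51 51 173 17711 26 11 l5 = true := by decide +kernel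

def l6 : List (Nat × Nat × Nat × Nat × Nat) :=
  [(1, 660, 798, 2, 5)]

def h6 : sheet 51 51 171 15059 25 11 l6 = true := by decide +kernel

def l7 : List (Nat × Nat × Nat × Nat × Nat) :=
  [(1, 798, 918, 0, 1)]

def h7 : sheet 51 51 178 20771 26 11 l7 = true := by decide +kernel

def l8 : List (Nat × Nat × Nat × Nat × Nat) :=
  [(1, 798, 918, 1, 4)]

def h8 : sheet 51 51 176 19496 26 11 l8 = true := by decide +kernel

def l9 : List (Nat × Nat × Nat × Nat × Nat) :=
  [(1, 798, 918, 5, 3), (1, 918, 1020, 0, 1)]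

def h9 : sheet 51 51 182 23372 26 11 l9 = true := by decide +kernel

def l10 : List (Nat × Nat × Nat × Nat × Nat) :=
  [(1, 918, 1020, 1, 4)]

def h10 : sheet 51 51 181 22046 26 11 l10 = true := by decide +kernel

def l11 : List (Nat × Nat × Nat × Nat × Nat) :=
  [(1, 918, 1020, 5, 4)]

def h11 : sheet 51 51 178 16920 26 11 l11 = true := by decide +kernel

theorem cv : Nat.ble 1020 (cov 51 (l0 ++ (l1 ++ (l2 ++ (l3 ++ (l4 ++ (l5 ++ (l6 ++ (l7 ++ (l8 ++ (l9 ++ (l10 ++ (l11)))))))))))) 0 0 0) = true := by decide +kernel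

end Pool.Agent.SignedQ.KE.K51
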