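import Pool.Agent.Lib.MP_cf17a0_co.KE

set_option autoImplicit false
set_option maxRecDepth 100000

namespace Pool.Agent.SignedQ.KE.K52

def l0 : List (Nat × Nat × Nat × Nat × Nat) :=
  [(1, 0, 179, 0, 1)]

def h0 : sheet 52 52 96 1938 22 11 l0 = true := by decide +kernel

def l1 : List (Nat × Nat × Nat × Nat × Nat) :=
  [(1, 179, 233, 0, 1)]

def h1 : sheet 52 52 116 3342 23 11 l1 = true := by decide +kernel

def l2 : List (Nat × Nat × Nat × Nat × Nat) :=
  [(1, 233, 304, 0, 2), (1, 304, 396, 0, 3), (1, 396, 516, 0, 4)]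

def h2 : sheet 52 52 157 10674 25 11 l2 = true := by decide +kernel

def l3 : List (Nat × Nat × Nat × Nat × Nat) :=
  [(1, 516, 672, 0, 2)]

def h3 : sheet 52 52 168 14730 25 11 l3 = true := by decide +kernel

def l4 : List (Nat × Nat × Nat × Nat × Nat) :=
  [(1, 516, 672, 2, 3)]

def h4 : sheet 52 52 160 11974 25 11 l4 = true := by decide +kernel

def l5 : List (Nat × Nat × Nat × Nat × Nat) :=
  [(1, 672, 816, 0, 1)]

def h5 : sheet 52 52 177 18474 26 11 l5 = true := by decide +kernel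

def l6 : List (Nat × Nat × Nat × Nat × Nat) :=
  [(1, 672, 816, 1, 4)]

def h6 : sheet 52 52 175 17200 26 11 l6 = true := by decide +kernel

def l7 : List (Nat × Nat × Nat × Nat × Nat) :=
  [(1, 672, 816, 5, 2)]

def h7 : sheet 52 52 157 11662 25 11 l7 = true := by decide +kernel

def l8 : List (Nat × Nat × Nat × Nat × Nat) :=
  [(1, 816, 939, 0, 1)]

def h8 : sheet 52 52 183 21672 26 11 l8 = true := by decide +kernel

def l9 : List (Nat × Nat × Nat × Nat × Nat) :=
  [(1, 816, 939, 1, 3)]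

def h9 : sheet 52 52 181 20320 26 11 l9 = true := by decide +kernel

def l10 : List (Nat × Nat × Nat × Nat × Nat) :=
  [(1, 816, 939, 4, 4)]

def h10 : sheet 52 52 171 16342 25 11 l10 = true := by decide +kernel

def l11 : List (Nat × Nat × Nat × Nat × Nat) :=
  [(1, 939, 1040, 0, 1)]

def h11 : sheet 52 52 187 24324 26 11 l11 = true := by decide +kernel

def l12 : List (Nat × Nat × Nat × Nat × Nat) :=
  [(1, 939, 1040, 1, 3)]

def h12 : sheet 52 52 185 22920 26 11 l12 = true := by decide +kernel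

def l13 : List (Nat × Nat × Nat × Nat × Nat) :=
  [(1, 939, 1040, 4, 5)]

def h13 : sheet 52 52 178 18916 26 11 l13 = true := by decide +kernel

theorem cv : Nat.ble 1040 (cov 52 (l0 ++ (l1 ++ (l2 ++ (l3 ++ (l4 ++ (l5 ++ (l6 ++ (l7 ++ (l8 ++ (l9 ++ (l10 ++ (l11 ++ (l12 ++ (l13)))))))))))))) 0 0 0) = true := by decide +kernel

end Pool.Agent.SignedQ.KE.K52
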