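import Pool.Agent.Lib.MP_cf17a0_co.KE

set_option autoImplicit false
set_option maxRecDepth 100000

namespace Pool.Agent.SignedQ.KE.K53

def l0 : List (Nat × Nat × Nat × Nat × Nat) :=
  [(1, 0, 169, 0, 1), (1, 169, 220, 0, 1)]

def h0 : sheet 53 53 114 3035 23 11 l0 = true := by decide +kernel

def l1 : List (Nat × Nat × Nat × Nat × Nat) :=
  [(1, 220, 286, 0, 2), (1, 286, 372, 0, 3), (1, 372, 484, 0, 4)]

def h1 : sheet 53 53 157 10031 25 11 l1 = true := by decide +kernel

def l2 : List (Nat × Nat × Nat × Nat × Nat) :=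
  [(1, 484, 630, 0, 3)]

def h2 : sheet 53 53 167 13847 25 11 l2 = true := by decide +kernel

def l3 : List (Nat × Nat × Nat × Nat × Nat) :=
  [(1, 484, 630, 3, 2)]

def h3 : sheet 53 53 152 9554 25 11 l3 = true := by decide +kernel

def l4 : List (Nat × Nat × Nat × Nat × Nat) :=
  [(1, 630, 765, 0, 2)]

def h4 : sheet 53 53 184 17425 26 11 l4 = true := by decide +kernel

def l5 : List (Nat × Nat × Nat × Nat × Nat) :=
  [(1, 630, 765, 2, 4)]

def h5 : sheet 53 53 172 14695 25 11 l5 = true := by decide +kernel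

def l6 : List (Nat × Nat × Nat × Nat × Nat) :=
  [(1, 765, 882, 0, 1)]

def h6 : sheet 53 53 181 20525 26 11 l6 = true := by decide +kernel

def l7 : List (Nat × Nat × Nat × Nat × Nat) :=
  [(1, 765, 882, 1, 4)]

def h7 : sheet 53 53 187 19174 26 11 l7 = true := by decide +kernel

def l8 : List (Nat × Nat × Nat × Nat × Nat) :=
  [(1, 765, 882, 5, 2)]

def h8 : sheet 53 53 164 13423 25 11 l8 = true := by decide +kernel

def l9 : List (Nat × Nat × Nat × Nat × Nat) :=
  [(1, 882, 981, 0, 1)]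

def h9 : sheet 53 53 194 23149 26 11 l9 = true := by decide +kernel

def l10 : List (Nat × Nat × Nat × Nat × Nat) :=
  [(1, 882, 981, 1, 3)]

def h10 : sheet 53 53 192 21824 26 11 l10 = true := by decide +kernel

def l11 : List (Nat × Nat × Nat × Nat × Nat) :=
  [(1, 882, 981, 4, 4)]

def h11 : sheet 53 53 175 17663 26 11 l11 = true := by decide +kernel

def l12 : List (Nat × Nat × Nat × Nat × Nat) :=
  [(1, 981, 1060, 0, 2)]

def h12 : sheet 53 53 189 25295 26 11 l12 = true := by decide +kernel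

def l13 : List (Nat × Nat × Nat × Nat × Nat) :=
  [(1, 981, 1060, 2, 7)]

def h13 : sheet 53 53 188 22486 26 11 l13 = true := by decide +kernel

theorem cv : Nat.ble 1060 (cov 53 (l0 ++ (l1 ++ (l2 ++ (l3 ++ (l4 ++ (l5 ++ (l6 ++ (l7 ++ (l8 ++ (l9 ++ (l10 ++ (l11 ++ (l12 ++ (l13)))))))))))))) 0 0 0) = true := by decide +kernel

end Pool.Agent.SignedQ.KE.K53
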