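import Pool.Agent.Lib.MP_cf17a0_co.KE

set_option autoImplicit false
set_option maxRecDepth 100000

namespace Pool.Agent.SignedQ.KE.K54

def l0 : List (Nat × Nat × Nat × Nat × Nat) :=
  [(1, 0, 173, 0, 1), (1, 173, 226, 0, 1)]

def h0 : sheet 54 54 117 3200 24 12 l0 = true := by decide +kernel

def l1 : List (Nat × Nat × Nat × Nat × Nat) :=
  [(1, 226, 294, 0, 2), (1, 294, 383, 0, 3), (1, 383, 498, 0, 4)]

def h1 : sheet 54 54 160 10490 26 12 l1 = true := by decide +kernel

def l2 : List (Nat × Nat × Nat × Nat × Nat) :=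
  [(1, 498, 648, 0, 2)]

def h2 : sheet 54 54 172 14540 26 12 l2 = true := by decide +kernel

def l3 : List (Nat × Nat × Nat × Nat × Nat) :=
  [(1, 498, 648, 2, 3)]

def h3 : sheet 54 54 164 11651 26 12 l3 = true := by decide +kernel

def l4 : List (Nat × Nat × Nat × Nat × Nat) :=
  [(1, 648, 783, 0, 1)]

def h4 : sheet 54 54 181 18185 27 12 l4 = true := by decide +kernel

def l5 : List (Nat × Nat × Nat × Nat × Nat) :=
  [(1, 648, 783, 1, 5)]

def h5 : sheet 54 54 178 16754 27 12 l5 = true := by decide +kernel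

def l6 : List (Nat × Nat × Nat × Nat × Nat) :=
  [(1, 783, 900, 0, 1)]

def h6 : sheet 54 54 187 21344 27 12 l6 = true := by decide +kernel

def l7 : List (Nat × Nat × Nat × Nat × Nat) :=
  [(1, 783, 900, 1, 4)]

def h7 : sheet 54 54 184 19859 27 12 l7 = true := by decide +kernel

def l8 : List (Nat × Nat × Nat × Nat × Nat) :=
  [(1, 783, 900, 5, 2)]

def h8 : sheet 54 54 168 14189 26 12 l8 = true := by decide +kernel

def l9 : List (Nat × Nat × Nat × Nat × Nat) :=
  [(1, 900, 999, 0, 1)]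

def h9 : sheet 54 54 191 24017 27 12 l9 = true := by decide +kernel

def l10 : List (Nat × Nat × Nat × Nat × Nat) :=
  [(1, 900, 999, 1, 3)]

def h10 : sheet 54 54 189 22559 27 12 l10 = true := by decide +kernel

def l11 : List (Nat × Nat × Nat × Nat × Nat) :=
  [(1, 900, 999, 4, 4)]

def h11 : sheet 54 54 180 18131 27 12 l11 = true := by decide +kernel

def l12 : List (Nat × Nat × Nat × Nat × Nat) :=
  [(1, 999, 1080, 0, 1)]

def h12 : sheet 54 54 195 26204 27 12 l12 = true := by decide +kernel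

def l13 : List (Nat × Nat × Nat × Nat × Nat) :=
  [(1, 999, 1080, 1, 4)]

def h13 : sheet 54 54 192 24719 27 12 l13 = true := by decide +kernel

def l14 : List (Nat × Nat × Nat × Nat × Nat) :=
  [(1, 999, 1080, 5, 4)]

def h14 : sheet 54 54 181 19103 27 12 l14 = true := by decide +kernel

theorem cv : Nat.ble 1080 (cov 54 (l0 ++ (l1 ++ (l2 ++ (l3 ++ (l4 ++ (l5 ++ (l6 ++ (l7 ++ (l8 ++ (l9 ++ (l10 ++ (l11 ++ (l12 ++ (l13 ++ (l14))))))))))))))) 0 0 0) = true := by decide +kernel

end Pool.Agent.SignedQ.KE.K54
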