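import Pool.Agent.Lib.MP_cf17a0_co.KE

set_option autoImplicit false
set_option maxRecDepth 100000

namespace Pool.Agent.SignedQ.KE.K55

def l0 : List (Nat × Nat × Nat × Nat × Nat) :=
  [(1, 0, 176, 0, 1), (1, 176, 230, 0, 1), (1, 230, 300, 0, 2), (1, 300, 390, 0, 3)]

def h0 : sheet 55 55 149 7660 25 12 l0 = true := by decide +kernel

def l1 : List (Nat × Nat × Nat × Nat × Nat) :=
  [(1, 390, 507, 0, 4)]

def h1 : sheet 55 55 170 10877 26 12 l1 = true := by decide +kernel

def l2 : List (Nat × Nat × Nat × Nat × Nat) :=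
  [(1, 507, 660, 0, 2)]

def h2 : sheet 55 55 174 15085 26 12 l2 = true := by decide +kernel

def l3 : List (Nat × Nat × Nat × Nat × Nat) :=
  [(1, 507, 660, 2, 3)]

def h3 : sheet 55 55 173 12142 26 12 l3 = true := by decide +kernel

def l4 : List (Nat × Nat × Nat × Nat × Nat) :=
  [(1, 660, 798, 0, 1)]

def h4 : sheet 55 55 183 18880 27 12 l4 = true := by decide +kernel

def l5 : List (Nat × Nat × Nat × Nat × Nat) :=
  [(1, 660, 798, 1, 4)]

def h5 : sheet 55 55 180 17395 27 12 l5 = true := by decide +kernel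

def l6 : List (Nat × Nat × Nat × Nat × Nat) :=
  [(1, 660, 798, 5, 1)]

def h6 : sheet 55 55 159 11400 26 12 l6 = true := by decide +kernel

def l7 : List (Nat × Nat × Nat × Nat × Nat) :=
  [(1, 798, 918, 0, 1)]

def h7 : sheet 55 55 189 22180 27 12 l7 = true := by decide +kernel

def l8 : List (Nat × Nat × Nat × Nat × Nat) :=
  [(1, 798, 918, 1, 3)]

def h8 : sheet 55 55 186 20695 27 12 l8 = true := by decide +kernel

def l9 : List (Nat × Nat × Nat × Nat × Nat) :=
  [(1, 798, 918, 4, 3)]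

def h9 : sheet 55 55 178 16185 26 12 l9 = true := by decide +kernel

def l10 : List (Nat × Nat × Nat × Nat × Nat) :=
  [(1, 918, 1020, 0, 1)]

def h10 : sheet 55 55 193 24985 27 12 l10 = true := by decide +kernel

def l11 : List (Nat × Nat × Nat × Nat × Nat) :=
  [(1, 918, 1020, 1, 3)]

def h11 : sheet 55 55 191 23445 27 12 l11 = true := by decide +kernel

def l12 : List (Nat × Nat × Nat × Nat × Nat) :=
  [(1, 918, 1020, 4, 4)]

def h12 : sheet 55 55 190 18907 27 12 l12 = true := by decide +kernel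

def l13 : List (Nat × Nat × Nat × Nat × Nat) :=
  [(1, 1020, 1100, 0, 1)]

def h13 : sheet 55 55 205 27212 27 12 l13 = true := by decide +kernel

def l14 : List (Nat × Nat × Nat × Nat × Nat) :=
  [(1, 1020, 1100, 1, 3)]

def h14 : sheet 55 55 198 25645 27 12 l14 = true := by decide +kernel

def l15 : List (Nat × Nat × Nat × Nat × Nat) :=
  [(1, 1020, 1100, 4, 5)]

def h15 : sheet 55 55 191 21025 27 12 l15 = true := by decide +kernel

theorem cv : Nat.ble 1100 (cov 55 (l0 ++ (l1 ++ (l2 ++ (l3 ++ (l4 ++ (l5 ++ (l6 ++ (l7 ++ (l8 ++ (l9 ++ (l10 ++ (l11 ++ (l12 ++ (l13 ++ (l14 ++ (l15)))))))))))))))) 0 0 0) = true := by decide +kernel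

end Pool.Agent.SignedQ.KE.K55
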