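import Pool.Agent.Lib.MP_cf17a0_co.KE

set_option autoImplicit false
set_option maxRecDepth 100000

namespace Pool.Agent.SignedQ.KE.K56

def l0 : List (Nat × Nat × Nat × Nat × Nat) :=
  [(1, 0, 215, 0, 1)]

def h0 : sheet 56 56 114 2871 24 12 l0 = true := by decide +kernel

def l1 : List (Nat × Nat × Nat × Nat × Nat) :=
  [(1, 215, 280, 0, 1), (1, 280, 365, 0, 2), (1, 365, 475, 0, 3)]

def h1 : sheet 56 56 162 10179 26 12 l1 = true := by decide +kernel

def l2 : List (Nat × Nat × Nat × Nat × Nat) :=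
  [(1, 475, 618, 0, 3)]

def h2 : sheet 56 56 174 14127 26 12 l2 = true := by decide +kernel

def l3 : List (Nat × Nat × Nat × Nat × Nat) :=
  [(1, 475, 618, 3, 2)]

def h3 : sheet 56 56 156 9423 26 12 l3 = true := by decide +kernel

def l4 : List (Nat × Nat × Nat × Nat × Nat) :=
  [(1, 618, 747, 0, 2)]

def h4 : sheet 56 56 184 17739 27 12 l4 = true := by decide +kernel

def l5 : List (Nat × Nat × Nat × Nat × Nat) :=
  [(1, 618, 747, 2, 4)]

def h5 : sheet 56 56 175 14603 26 12 l5 = true := by decide +kernel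

def l6 : List (Nat × Nat × Nat × Nat × Nat) :=
  [(1, 747, 861, 0, 1)]

def h6 : sheet 56 56 190 20931 27 12 l6 = true := by decide +kernel

def l7 : List (Nat × Nat × Nat × Nat × Nat) :=
  [(1, 747, 861, 1, 4)]

def h7 : sheet 56 56 187 19447 27 12 l7 = true := by decide +kernel

def l8 : List (Nat × Nat × Nat × Nat × Nat) :=
  [(1, 747, 861, 5, 2)]

def h8 : sheet 56 56 168 13231 26 12 l8 = true := by decide +kernel

def l9 : List (Nat × Nat × Nat × Nat × Nat) :=
  [(1, 861, 957, 0, 1)]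

def h9 : sheet 56 56 194 23619 27 12 l9 = true := by decide +kernel

def l10 : List (Nat × Nat × Nat × Nat × Nat) :=
  [(1, 861, 957, 1, 4)]

def h10 : sheet 56 56 192 22107 27 12 l10 = true := by decide +kernel

def l11 : List (Nat × Nat × Nat × Nat × Nat) :=
  [(1, 861, 957, 5, 3)]

def h11 : sheet 56 56 175 15779 26 12 l11 = true := by decide +kernel

def l12 : List (Nat × Nat × Nat × Nat × Nat) :=
  [(1, 957, 1035, 0, 2)]

def h12 : sheet 56 56 198 25803 27 12 l12 = true := by decide +kernel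

def l13 : List (Nat × Nat × Nat × Nat × Nat) :=
  [(1, 957, 1035, 2, 6)]

def h13 : sheet 56 56 192 22639 27 12 l13 = true := by decide +kernel

def l14 : List (Nat × Nat × Nat × Nat × Nat) :=
  [(1, 1035, 1120, 0, 1)]

def h14 : sheet 56 56 201 28239 27 12 l14 = true := by decide +kernel

def l15 : List (Nat × Nat × Nat × Nat × Nat) :=
  [(1, 1035, 1120, 1, 3)]

def h15 : sheet 56 56 199 26587 27 12 l15 = true := by decide +kernel

def l16 : List (Nat × Nat × Nat × Nat × Nat) :=
  [(1, 1035, 1120, 4, 5)]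

def h16 : sheet 56 56 190 21855 27 12 l16 = true := by decide +kernel

theorem cv : Nat.ble 1120 (cov 56 (l0 ++ (l1 ++ (l2 ++ (l3 ++ (l4 ++ (l5 ++ (l6 ++ (l7 ++ (l8 ++ (l9 ++ (l10 ++ (l11 ++ (l12 ++ (l13 ++ (l14 ++ (l15 ++ (l16))))))))))))))))) 0 0 0) = true := by decide +kernel

end Pool.Agent.SignedQ.KE.K56
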