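import Pool.Agent.Lib.MP_cf17a0_co.KE

set_option autoImplicit false
set_option maxRecDepth 100000

namespace Pool.Agent.SignedQ.KE.K58

def l0 : List (Nat × Nat × Nat × Nat × Nat) :=
  [(1, 0, 211, 0, 1)]

def h0 : sheet 58 58 115 2770 25 13 l0 = true := by decide +kernel

def l1 : List (Nat × Nat × Nat × Nat × Nat) :=
  [(1, 211, 275, 0, 1), (1, 275, 358, 0, 2), (1, 358, 466, 0, 3)]

def h1 : sheet 58 58 165 10165 27 13 l1 = true := by decide +kernel

def l2 : List (Nat × Nat × Nat × Nat × Nat) :=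
  [(1, 466, 606, 0, 3)]

def h2 : sheet 58 58 178 14167 27 13 l2 = true := by decide +kernel

def l3 : List (Nat × Nat × Nat × Nat × Nat) :=
  [(1, 466, 606, 3, 1)]

def h3 : sheet 58 58 156 9208 27 13 l3 = true := by decide +kernel

def l4 : List (Nat × Nat × Nat × Nat × Nat) :=
  [(1, 606, 732, 0, 2)]

def h4 : sheet 58 58 188 17821 28 13 l4 = true := by decide +kernel

def l5 : List (Nat × Nat × Nat × Nat × Nat) :=
  [(1, 606, 732, 2, 3)]

def h5 : sheet 58 58 178 14486 27 13 l5 = true := by decide +kernel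

def l6 : List (Nat × Nat × Nat × Nat × Nat) :=
  [(1, 732, 840, 0, 1)]

def h6 : sheet 58 58 194 20953 28 13 l6 = true := by decide +kernel

def l7 : List (Nat × Nat × Nat × Nat × Nat) :=
  [(1, 732, 840, 1, 5)]

def h7 : sheet 58 58 191 19242 28 13 l7 = true := by decide +kernel

def l8 : List (Nat × Nat × Nat × Nat × Nat) :=
  [(1, 840, 933, 0, 1)]

def h8 : sheet 58 58 199 23650 28 13 l8 = true := by decide +kernel

def l9 : List (Nat × Nat × Nat × Nat × Nat) :=
  [(1, 840, 933, 1, 4)]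

def h9 : sheet 58 58 196 21997 28 13 l9 = true := by decide +kernel

def l10 : List (Nat × Nat × Nat × Nat × Nat) :=
  [(1, 840, 933, 5, 2)]

def h10 : sheet 58 58 176 15182 27 13 l10 = true := by decide +kernel

def l11 : List (Nat × Nat × Nat × Nat × Nat) :=
  [(1, 933, 1011, 0, 1)]

def h11 : sheet 58 58 203 25912 28 13 l11 = true := by decide +kernel

def l12 : List (Nat × Nat × Nat × Nat × Nat) :=
  [(1, 933, 1011, 1, 4)]

def h12 : sheet 58 58 200 24317 28 13 l12 = true := by decide +kernel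

def l13 : List (Nat × Nat × Nat × Nat × Nat) :=
  [(1, 933, 1011, 5, 3), (1, 1011, 1092, 0, 1)]

def h13 : sheet 58 58 206 28261 28 13 l13 = true := by decide +kernel

def l14 : List (Nat × Nat × Nat × Nat × Nat) :=
  [(1, 1011, 1092, 1, 3)]

def h14 : sheet 58 58 204 26637 28 13 l14 = true := by decide +kernel

def l15 : List (Nat × Nat × Nat × Nat × Nat) :=
  [(1, 1011, 1092, 4, 4)]

def h15 : sheet 58 58 194 21649 28 13 l15 = true := by decide +kernel

def l16 : List (Nat × Nat × Nat × Nat × Nat) :=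
  [(1, 1092, 1160, 0, 1)]

def h16 : sheet 58 58 209 30262 28 13 l16 = true := by decide +kernel

def l17 : List (Nat × Nat × Nat × Nat × Nat) :=
  [(1, 1092, 1160, 1, 4)]

def h17 : sheet 58 58 206 28522 28 13 l17 = true := by decide +kernel

def l18 : List (Nat × Nat × Nat × Nat × Nat) :=
  [(1, 1092, 1160, 5, 4)]

def h18 : sheet 58 58 194 21968 28 13 l18 = true := by decide +kernel

theorem cv : Nat.ble 1160 (cov 58 (l0 ++ (l1 ++ (l2 ++ (l3 ++ (l4 ++ (l5 ++ (l6 ++ (l7 ++ (l8 ++ (l9 ++ (l10 ++ (l11 ++ (l12 ++ (l13 ++ (l14 ++ (l15 ++ (l16 ++ (l17 ++ (l18))))))))))))))))))) 0 0 0) = true := by decide +kernel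

end Pool.Agent.SignedQ.KE.K58
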