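import Pool.Agent.Lib.MP_cf17a0_co.KE

set_option autoImplicit false
set_option maxRecDepth 100000

namespace Pool.Agent.SignedQ.KE.K59

def l0 : List (Nat × Nat × Nat × Nat × Nat) :=
  [(1, 0, 182, 0, 1), (1, 182, 237, 0, 1)]

def h0 : sheet 59 59 130 3467 25 13 l0 = true := by decide +kernel

def l1 : List (Nat × Nat × Nat × Nat × Nat) :=
  [(1, 237, 309, 0, 2), (1, 309, 402, 0, 2)]

def h1 : sheet 59 59 158 8335 27 13 l1 = true := by decide +kernel

def l2 : List (Nat × Nat × Nat × Nat × Nat) :=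
  [(1, 402, 523, 0, 3)]

def h2 : sheet 59 59 180 11963 27 13 l2 = true := by decide +kernel

def l3 : List (Nat × Nat × Nat × Nat × Nat) :=
  [(1, 523, 681, 0, 1)]

def h3 : sheet 59 59 194 16565 28 13 l3 = true := by decide +kernel

def l4 : List (Nat × Nat × Nat × Nat × Nat) :=
  [(1, 523, 681, 1, 4)]

def h4 : sheet 59 59 188 14913 27 13 l4 = true := by decide +kernel

def l5 : List (Nat × Nat × Nat × Nat × Nat) :=
  [(1, 681, 783, 0, 2)]

def h5 : sheet 59 59 200 19574 28 13 l5 = true := by decide +kernel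

def l6 : List (Nat × Nat × Nat × Nat × Nat) :=
  [(1, 681, 783, 2, 4)]

def h6 : sheet 59 59 185 16064 27 13 l6 = true := by decide +kernel

def l7 : List (Nat × Nat × Nat × Nat × Nat) :=
  [(1, 783, 873, 0, 2)]

def h7 : sheet 59 59 206 22229 28 13 l7 = true := by decide +kernel

def l8 : List (Nat × Nat × Nat × Nat × Nat) :=
  [(1, 783, 873, 2, 4)]

def h8 : sheet 59 59 198 18748 28 13 l8 = true := by decide +kernel

def l9 : List (Nat × Nat × Nat × Nat × Nat) :=
  [(1, 873, 969, 0, 1)]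

def h9 : sheet 59 59 210 25061 28 13 l9 = true := by decide +kernel

def l10 : List (Nat × Nat × Nat × Nat × Nat) :=
  [(1, 873, 969, 1, 3)]

def h10 : sheet 59 59 204 23321 28 13 l10 = true := by decide +kernel

def l11 : List (Nat × Nat × Nat × Nat × Nat) :=
  [(1, 873, 969, 4, 3)]

def h11 : sheet 59 59 196 18276 28 13 l11 = true := by decide +kernel

def l12 : List (Nat × Nat × Nat × Nat × Nat) :=
  [(1, 969, 1050, 0, 1)]

def h12 : sheet 59 59 205 27451 28 13 l12 = true := by decide +kernel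

def l13 : List (Nat × Nat × Nat × Nat × Nat) :=
  [(1, 969, 1050, 1, 3)]

def h13 : sheet 59 59 205 25681 28 13 l13 = true := by decide +kernel

def l14 : List (Nat × Nat × Nat × Nat × Nat) :=
  [(1, 969, 1050, 4, 4)]

def h14 : sheet 59 59 196 20548 28 13 l14 = true := by decide +kernel

def l15 : List (Nat × Nat × Nat × Nat × Nat) :=
  [(1, 1050, 1113, 0, 1)]

def h15 : sheet 59 59 217 29309 28 13 l15 = true := by decide +kernel

def l16 : List (Nat × Nat × Nat × Nat × Nat) :=
  [(1, 1050, 1113, 1, 4)]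

def h16 : sheet 59 59 214 27598 28 13 l16 = true := by decide +kernel

def l17 : List (Nat × Nat × Nat × Nat × Nat) :=
  [(1, 1050, 1113, 5, 3)]

def h17 : sheet 59 59 196 20607 28 13 l17 = true := by decide +kernel

def l18 : List (Nat × Nat × Nat × Nat × Nat) :=
  [(1, 1113, 1180, 0, 1)]

def h18 : sheet 59 59 210 31345 28 13 l18 = true := by decide +kernel

def l19 : List (Nat × Nat × Nat × Nat × Nat) :=
  [(1, 1113, 1180, 1, 3)]

def h19 : sheet 59 59 214 29516 28 13 l19 = true := by decide +kernel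

def l20 : List (Nat × Nat × Nat × Nat × Nat) :=
  [(1, 1113, 1180, 4, 5)]

def h20 : sheet 59 59 204 24442 28 13 l20 = true := by decide +kernel

theorem cv : Nat.ble 1180 (cov 59 (l0 ++ (l1 ++ (l2 ++ (l3 ++ (l4 ++ (l5 ++ (l6 ++ (l7 ++ (l8 ++ (l9 ++ (l10 ++ (l11 ++ (l12 ++ (l13 ++ (l14 ++ (l15 ++ (l16 ++ (l17 ++ (l18 ++ (l19 ++ (l20))))))))))))))))))))) 0 0 0) = true := by decide +kernel

end Pool.Agent.SignedQ.KE.K59
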