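import Pool.Agent.Lib.MP_cf17a0_co.S1.FD.K111

set_option autoImplicit false
set_option maxRecDepth 100000

namespace Pool.Agent.SignedQ.KE.K64

def l0 : List (Nat × Nat × Nat × Nat × Nat) :=
  [(1, 0, 232, 0, 1)]

def h0 : sheet 64 64 125 3345 26 14 l0 = true := by decide +kernel

def l1 : List (Nat × Nat × Nat × Nat × Nat) :=
  [(1, 232, 302, 0, 1)]

def h1 : sheet 64 64 148 5553 27 14 l1 = true := by decide +kernel

def l2 : List (Nat × Nat × Nat × Nat × Nat) :=
  [(1, 302, 393, 0, 2), (1, 393, 512, 0, 3)]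

def h2 : sheet 64 64 181 12273 28 14 l2 = true := by decide +kernel

theorem cv : Nat.ble 512 (cov 64 (l0 ++ (l1 ++ (l2))) 0 0 0) = true := by decide +kernel

end Pool.Agent.SignedQ.KE.K64
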