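import Pool.Agent.Lib.MP_cf17a0_co.S1.FD.K114

set_option autoImplicit false
set_option maxRecDepth 100000

namespace Pool.Agent.SignedQ.KE.K65

def l0 : List (Nat × Nat × Nat × Nat × Nat) :=
  [(1, 0, 236, 0, 1)]

def h0 : sheet 65 65 133 3430 27 15 l0 = true := by decide +kernel

def l1 : List (Nat × Nat × Nat × Nat × Nat) :=
  [(1, 236, 307, 0, 1), (1, 307, 400, 0, 2), (1, 400, 520, 0, 1)]

def h1 : sheet 65 65 184 12692 29 15 l1 = true := by decide +kernel

def l2 : List (Nat × Nat × Nat × Nat × Nat) :=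
  [(1, 400, 520, 1, 2)]

def h2 : sheet 65 65 175 10482 29 15 l2 = true := by decide +kernel

theorem cv : Nat.ble 520 (cov 65 (l0 ++ (l1 ++ (l2))) 0 0 0) = true := by decide +kernel

end Pool.Agent.SignedQ.KE.K65
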