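import Pool.Agent.Lib.MP_cf17a0_co.S1.FD.K112

set_option autoImplicit false
set_option maxRecDepth 100000

namespace Pool.Agent.SignedQ.KE.K66

def l0 : List (Nat × Nat × Nat × Nat × Nat) :=
  [(1, 0, 240, 0, 1)]

def h0 : sheet 66 66 128 3515 27 15 l0 = true := by decide +kernel

def l1 : List (Nat × Nat × Nat × Nat × Nat) :=
  [(1, 240, 312, 0, 1)]

def h1 : sheet 66 66 152 5891 28 15 l1 = true := by decide +kernel

def l2 : List (Nat × Nat × Nat × Nat × Nat) :=
  [(1, 312, 406, 0, 2), (1, 406, 528, 0, 2)]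

def h2 : sheet 66 66 187 13019 29 15 l2 = true := by decide +kernel

def l3 : List (Nat × Nat × Nat × Nat × Nat) :=
  [(1, 406, 528, 2, 1)]

def h3 : sheet 66 66 164 8729 29 15 l3 = true := by decide +kernel

theorem cv : Nat.ble 528 (cov 66 (l0 ++ (l1 ++ (l2 ++ (l3)))) 0 0 0) = true := by decide +kernel

end Pool.Agent.SignedQ.KE.K66
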