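import Pool.Agent.Lib.MP_cf17a0_co.S1.FD.K116

set_option autoImplicit false
set_option maxRecDepth 100000

namespace Pool.Agent.SignedQ.KE.K69

def l0 : List (Nat × Nat × Nat × Nat × Nat) :=
  [(1, 0, 250, 0, 1)]

def h0 : sheet 69 69 136 3882 28 16 l0 = true := by decide +kernel

def l1 : List (Nat × Nat × Nat × Nat × Nat) :=
  [(1, 250, 326, 0, 1), (1, 326, 424, 0, 2)]

def h1 : sheet 69 69 179 9885 30 16 l1 = true := by decide +kernel

def l2 : List (Nat × Nat × Nat × Nat × Nat) :=
  [(1, 424, 552, 0, 3)]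

def h2 : sheet 69 69 195 14232 30 16 l2 = true := by decide +kernel

theorem cv : Nat.ble 552 (cov 69 (l0 ++ (l1 ++ (l2))) 0 0 0) = true := by decide +kernel

end Pool.Agent.SignedQ.KE.K69
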