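import Pool.Agent.Lib.MP_cf17a0_co.S1.FD.K35

set_option autoImplicit false
set_option maxRecDepth 100000

namespace Pool.Agent.SignedQ.KE.K70

def l0 : List (Nat × Nat × Nat × Nat × Nat) :=
  [(1, 0, 253, 0, 1)]

def h0 : sheet 70 70 137 3973 28 16 l0 = true := by decide +kernel

def l1 : List (Nat × Nat × Nat × Nat × Nat) :=
  [(1, 253, 330, 0, 1)]

def h1 : sheet 70 70 161 6598 29 16 l1 = true := by decide +kernel

def l2 : List (Nat × Nat × Nat × Nat × Nat) :=
  [(1, 330, 430, 0, 2), (1, 430, 560, 0, 1)]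

def h2 : sheet 70 70 198 14683 30 16 l2 = true := by decide +kernel

def l3 : List (Nat × Nat × Nat × Nat × Nat) :=
  [(1, 430, 560, 1, 2)]

def h3 : sheet 70 70 188 12163 30 16 l3 = true := by decide +kernel

theorem cv : Nat.ble 560 (cov 70 (l0 ++ (l1 ++ (l2 ++ (l3)))) 0 0 0) = true := by decide +kernel

end Pool.Agent.SignedQ.KE.K70
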