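import Pool.Agent.Lib.MP_cf17a0_co.S1.FD.K119

set_option autoImplicit false
set_option maxRecDepth 100000

namespace Pool.Agent.SignedQ.KE.K71

def l0 : List (Nat × Nat × Nat × Nat × Nat) :=
  [(1, 0, 257, 0, 1)]

def h0 : sheet 71 71 138 4066 28 16 l0 = true := by decide +kernel

def l1 : List (Nat × Nat × Nat × Nat × Nat) :=
  [(1, 257, 335, 0, 1)]

def h1 : sheet 71 71 163 6835 29 16 l1 = true := by decide +kernel

def l2 : List (Nat × Nat × Nat × Nat × Nat) :=
  [(1, 335, 436, 0, 2), (1, 436, 568, 0, 1)]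

def h2 : sheet 71 71 200 15142 30 16 l2 = true := by decide +kernel

def l3 : List (Nat × Nat × Nat × Nat × Nat) :=
  [(1, 436, 568, 1, 2)]

def h3 : sheet 71 71 190 12586 30 16 l3 = true := by decide +kernel

theorem cv : Nat.ble 568 (cov 71 (l0 ++ (l1 ++ (l2 ++ (l3)))) 0 0 0) = true := by decide +kernel

end Pool.Agent.SignedQ.KE.K71
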