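import Pool.Agent.Lib.MP_cf17a0_co.S1.FD.K120

set_option autoImplicit false
set_option maxRecDepth 100000

namespace Pool.Agent.SignedQ.KE.K72

def l0 : List (Nat × Nat × Nat × Nat × Nat) :=
  [(1, 0, 261, 0, 1)]

def h0 : sheet 72 72 141 4159 29 16 l0 = true := by decide +kernel

def l1 : List (Nat × Nat × Nat × Nat × Nat) :=
  [(1, 261, 340, 0, 1)]

def h1 : sheet 72 72 165 7075 29 16 l1 = true := by decide +kernel

def l2 : List (Nat × Nat × Nat × Nat × Nat) :=
  [(1, 340, 443, 0, 2)]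

def h2 : sheet 72 72 186 10747 30 16 l2 = true := by decide +kernel

def l3 : List (Nat × Nat × Nat × Nat × Nat) :=
  [(1, 443, 576, 0, 2)]

def h3 : sheet 72 72 203 15499 30 16 l3 = true := by decide +kernel

def l4 : List (Nat × Nat × Nat × Nat × Nat) :=
  [(1, 443, 576, 2, 1)]

def h4 : sheet 72 72 180 10423 30 16 l4 = true := by decide +kernel

theorem cv : Nat.ble 576 (cov 72 (l0 ++ (l1 ++ (l2 ++ (l3 ++ (l4))))) 0 0 0) = true := by decide +kernel

end Pool.Agent.SignedQ.KE.K72
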