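import Pool.Agent.Lib.MP_cf17a0_co.S1.FD.K124

set_option autoImplicit false
set_option maxRecDepth 100000

namespace Pool.Agent.SignedQ.KE.K74

def l0 : List (Nat × Nat × Nat × Nat × Nat) :=
  [(1, 0, 269, 0, 1)]

def h0 : sheet 74 74 145 4459 30 17 l0 = true := by decide +kernel

def l1 : List (Nat × Nat × Nat × Nat × Nat) :=
  [(1, 269, 350, 0, 1), (1, 350, 455, 0, 2)]

def h1 : sheet 74 74 191 11341 31 17 l1 = true := by decide +kernel

def l2 : List (Nat × Nat × Nat × Nat × Nat) :=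
  [(1, 455, 592, 0, 1)]

def h2 : sheet 74 74 210 16447 32 17 l2 = true := by decide +kernel

def l3 : List (Nat × Nat × Nat × Nat × Nat) :=
  [(1, 455, 592, 1, 2)]

def h3 : sheet 74 74 200 13709 31 17 l3 = true := by decide +kernel

theorem cv : Nat.ble 592 (cov 74 (l0 ++ (l1 ++ (l2 ++ (l3)))) 0 0 0) = true := by decide +kernel

end Pool.Agent.SignedQ.KE.K74
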