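import Pool.Agent.Lib.MP_cf17a0_co.S1.FD.K76

set_option autoImplicit false
set_option maxRecDepth 100000

namespace Pool.Agent.SignedQ.KE.K75

def l0 : List (Nat × Nat × Nat × Nat × Nat) :=
  [(1, 0, 272, 0, 1)]

def h0 : sheet 75 75 153 4557 30 17 l0 = true := by decide +kernel

def l1 : List (Nat × Nat × Nat × Nat × Nat) :=
  [(1, 272, 354, 0, 1)]

def h1 : sheet 75 75 172 7595 30 17 l1 = true := by decide +kernel

def l2 : List (Nat × Nat × Nat × Nat × Nat) :=
  [(1, 354, 461, 0, 2)]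

def h2 : sheet 75 75 193 11645 31 17 l2 = true := by decide +kernel

def l3 : List (Nat × Nat × Nat × Nat × Nat) :=
  [(1, 461, 600, 0, 1)]

def h3 : sheet 75 75 212 16820 32 17 l3 = true := by decide +kernel

def l4 : List (Nat × Nat × Nat × Nat × Nat) :=
  [(1, 461, 600, 1, 2)]

def h4 : sheet 75 75 201 13970 31 17 l4 = true := by decide +kernel

theorem cv : Nat.ble 600 (cov 75 (l0 ++ (l1 ++ (l2 ++ (l3 ++ (l4))))) 0 0 0) = true := by decide +kernel

end Pool.Agent.SignedQ.KE.K75
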