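import Pool.Agent.Lib.MP_cf17a0_co.S1.FD.K80

set_option autoImplicit false
set_option maxRecDepth 100000

namespace Pool.Agent.SignedQ.KE.K76

def l0 : List (Nat × Nat × Nat × Nat × Nat) :=
  [(1, 0, 276, 0, 1)]

def h0 : sheet 76 76 148 4656 30 17 l0 = true := by decide +kernel

def l1 : List (Nat × Nat × Nat × Nat × Nat) :=
  [(1, 276, 359, 0, 1)]

def h1 : sheet 76 76 174 7848 30 17 l1 = true := by decide +kernel

def l2 : List (Nat × Nat × Nat × Nat × Nat) :=
  [(1, 359, 467, 0, 2)]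

def h2 : sheet 76 76 196 11952 31 17 l2 = true := by decide +kernel

def l3 : List (Nat × Nat × Nat × Nat × Nat) :=
  [(1, 467, 608, 0, 1)]

def h3 : sheet 76 76 216 17310 32 17 l3 = true := by decide +kernel

def l4 : List (Nat × Nat × Nat × Nat × Nat) :=
  [(1, 467, 608, 1, 2)]

def h4 : sheet 76 76 204 14422 31 17 l4 = true := by decide +kernel

theorem cv : Nat.ble 608 (cov 76 (l0 ++ (l1 ++ (l2 ++ (l3 ++ (l4))))) 0 0 0) = true := by decide +kernel

end Pool.Agent.SignedQ.KE.K76
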