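import Pool.Agent.Lib.MP_cf17a0_co.S1.FD.K127

set_option autoImplicit false
set_option maxRecDepth 100000

namespace Pool.Agent.SignedQ.KE.K77

def l0 : List (Nat × Nat × Nat × Nat × Nat) :=
  [(1, 0, 301, 0, 1)]

def h0 : sheet 77 77 166 5680 31 18 l0 = true := by decide +kernel

def l1 : List (Nat × Nat × Nat × Nat × Nat) :=
  [(1, 301, 392, 0, 2), (1, 392, 510, 0, 2)]

def h1 : sheet 77 77 204 13649 32 18 l1 = true := by decide +kernel

def l2 : List (Nat × Nat × Nat × Nat × Nat) :=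
  [(1, 510, 616, 0, 2)]

def h2 : sheet 77 77 218 17807 33 18 l2 = true := by decide +kernel

def l3 : List (Nat × Nat × Nat × Nat × Nat) :=
  [(1, 510, 616, 2, 1)]

def h3 : sheet 77 77 190 11724 32 18 l3 = true := by decide +kernel

theorem cv : Nat.ble 616 (cov 77 (l0 ++ (l1 ++ (l2 ++ (l3)))) 0 0 0) = true := by decide +kernel

end Pool.Agent.SignedQ.KE.K77
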