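import Pool.Agent.Lib.MP_cf17a0_co.S1.FD.K81

set_option autoImplicit false
set_option maxRecDepth 100000

namespace Pool.Agent.SignedQ.KE.K80

def l0 : List (Nat × Nat × Nat × Nat × Nat) :=
  [(1, 0, 312, 0, 1)]

def h0 : sheet 80 80 165 6021 32 19 l0 = true := by decide +kernel

def l1 : List (Nat × Nat × Nat × Nat × Nat) :=
  [(1, 312, 406, 0, 2), (1, 406, 528, 0, 1)]

def h1 : sheet 80 80 212 14661 33 19 l1 = true := by decide +kernel

def l2 : List (Nat × Nat × Nat × Nat × Nat) :=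
  [(1, 406, 528, 1, 1)]

def h2 : sheet 80 80 196 11501 33 19 l2 = true := by decide +kernel

def l3 : List (Nat × Nat × Nat × Nat × Nat) :=
  [(1, 528, 640, 0, 1)]

def h3 : sheet 80 80 228 19221 34 19 l3 = true := by decide +kernel

def l4 : List (Nat × Nat × Nat × Nat × Nat) :=
  [(1, 528, 640, 1, 2)]

def h4 : sheet 80 80 215 15901 33 19 l4 = true := by decide +kernel

theorem cv : Nat.ble 640 (cov 80 (l0 ++ (l1 ++ (l2 ++ (l3 ++ (l4))))) 0 0 0) = true := by decide +kernel

end Pool.Agent.SignedQ.KE.K80
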