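import Pool.Agent.Lib.MP_cf17a0_co.S1.FD.K135

set_option autoImplicit false
set_option maxRecDepth 100000

namespace Pool.Agent.SignedQ.KE.K81

def l0 : List (Nat × Nat × Nat × Nat × Nat) :=
  [(1, 0, 315, 0, 1)]

def h0 : sheet 81 81 173 6137 32 19 l0 = true := by decide +kernel

def l1 : List (Nat × Nat × Nat × Nat × Nat) :=
  [(1, 315, 410, 0, 2), (1, 410, 534, 0, 1)]

def h1 : sheet 81 81 214 15006 33 19 l1 = true := by decide +kernel

def l2 : List (Nat × Nat × Nat × Nat × Nat) :=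
  [(1, 410, 534, 1, 1)]

def h2 : sheet 81 81 206 11726 33 19 l2 = true := by decide +kernel

def l3 : List (Nat × Nat × Nat × Nat × Nat) :=
  [(1, 534, 648, 0, 1)]

def h3 : sheet 81 81 229 19623 34 19 l3 = true := by decide +kernel

def l4 : List (Nat × Nat × Nat × Nat × Nat) :=
  [(1, 534, 648, 1, 2)]

def h4 : sheet 81 81 217 16383 33 19 l4 = true := by decide +kernel

theorem cv : Nat.ble 648 (cov 81 (l0 ++ (l1 ++ (l2 ++ (l3 ++ (l4))))) 0 0 0) = true := by decide +kernel

end Pool.Agent.SignedQ.KE.K81
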