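import Pool.Agent.Lib.MP_cf17a0_co.S1.FD.K136

set_option autoImplicit false
set_option maxRecDepth 100000

namespace Pool.Agent.SignedQ.KE.K83

def l0 : List (Nat × Nat × Nat × Nat × Nat) :=
  [(1, 0, 261, 0, 1), (1, 261, 340, 0, 1)]

def h0 : sheet 83 83 176 7243 32 19 l0 = true := by decide +kernel

def l1 : List (Nat × Nat × Nat × Nat × Nat) :=
  [(1, 340, 443, 0, 2)]

def h1 : sheet 83 83 202 11476 33 19 l1 = true := by decide +kernel

def l2 : List (Nat × Nat × Nat × Nat × Nat) :=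
  [(1, 443, 576, 0, 1)]

def h2 : sheet 83 83 224 16954 34 19 l2 = true := by decide +kernel

def l3 : List (Nat × Nat × Nat × Nat × Nat) :=
  [(1, 443, 576, 1, 1)]

def h3 : sheet 83 83 209 13634 33 19 l3 = true := by decide +kernel

def l4 : List (Nat × Nat × Nat × Nat × Nat) :=
  [(1, 576, 664, 0, 2)]

def h4 : sheet 83 83 234 20689 34 19 l4 = true := by decide +kernel

def l5 : List (Nat × Nat × Nat × Nat × Nat) :=
  [(1, 576, 664, 2, 1)]

def h5 : sheet 83 83 212 13675 33 19 l5 = true := by decide +kernel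

theorem cv : Nat.ble 664 (cov 83 (l0 ++ (l1 ++ (l2 ++ (l3 ++ (l4 ++ (l5)))))) 0 0 0) = true := by decide +kernel

end Pool.Agent.SignedQ.KE.K83
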