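import Pool.Agent.Lib.MP_cf17a0_co.S1.FD.K42

set_option autoImplicit false
set_option maxRecDepth 100000

namespace Pool.Agent.SignedQ.KE.K85

def l0 : List (Nat × Nat × Nat × Nat × Nat) :=
  [(1, 0, 289, 0, 1)]

def h0 : sheet 85 85 164 5080 33 20 l0 = true := by decide +kernel

def l1 : List (Nat × Nat × Nat × Nat × Nat) :=
  [(1, 289, 376, 0, 1)]

def h1 : sheet 85 85 190 8777 34 20 l1 = true := by decide +kernel

def l2 : List (Nat × Nat × Nat × Nat × Nat) :=
  [(1, 376, 489, 0, 2)]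

def h2 : sheet 85 85 221 13495 34 20 l2 = true := by decide +kernel

def l3 : List (Nat × Nat × Nat × Nat × Nat) :=
  [(1, 489, 591, 0, 2)]

def h3 : sheet 85 85 237 17830 35 20 l3 = true := by decide +kernel

def l4 : List (Nat × Nat × Nat × Nat × Nat) :=
  [(1, 591, 680, 0, 1)]

def h4 : sheet 85 85 248 21655 35 20 l4 = true := by decide +kernel

def l5 : List (Nat × Nat × Nat × Nat × Nat) :=
  [(1, 591, 680, 1, 2)]

def h5 : sheet 85 85 229 17957 35 20 l5 = true := by decide +kernel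

theorem cv : Nat.ble 680 (cov 85 (l0 ++ (l1 ++ (l2 ++ (l3 ++ (l4 ++ (l5)))))) 0 0 0) = true := by decide +kernel

end Pool.Agent.SignedQ.KE.K85
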