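import Pool.Agent.Lib.MP_cf17a0_co.S1.FD.K142

set_option autoImplicit false
set_option maxRecDepth 100000

namespace Pool.Agent.SignedQ.KE.K87

def l0 : List (Nat × Nat × Nat × Nat × Nat) :=
  [(1, 0, 306, 0, 1)]

def h0 : sheet 87 87 166 5678 33 20 l0 = true := by decide +kernel

def l1 : List (Nat × Nat × Nat × Nat × Nat) :=
  [(1, 306, 399, 0, 1), (1, 399, 519, 0, 1)]

def h1 : sheet 87 87 228 14943 34 20 l1 = true := by decide +kernel

def l2 : List (Nat × Nat × Nat × Nat × Nat) :=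
  [(1, 399, 519, 1, 1)]

def h2 : sheet 87 87 200 11159 34 20 l2 = true := by decide +kernel

def l3 : List (Nat × Nat × Nat × Nat × Nat) :=
  [(1, 519, 627, 0, 1)]

def h3 : sheet 87 87 245 19641 35 20 l3 = true := by decide +kernel

def l4 : List (Nat × Nat × Nat × Nat × Nat) :=
  [(1, 519, 627, 1, 2)]

def h4 : sheet 87 87 222 15944 34 20 l4 = true := by decide +kernel

def l5 : List (Nat × Nat × Nat × Nat × Nat) :=
  [(1, 627, 696, 0, 2)]

def h5 : sheet 87 87 245 22643 35 20 l5 = true := by decide +kernel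

def l6 : List (Nat × Nat × Nat × Nat × Nat) :=
  [(1, 627, 696, 2, 1)]

def h6 : sheet 87 87 215 15161 34 20 l6 = true := by decide +kernel

theorem cv : Nat.ble 696 (cov 87 (l0 ++ (l1 ++ (l2 ++ (l3 ++ (l4 ++ (l5 ++ (l6))))))) 0 0 0) = true := by decide +kernel

end Pool.Agent.SignedQ.KE.K87
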