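import Pool.Agent.Lib.MP_cf17a0_co.S1.FD.K145

set_option autoImplicit false
set_option maxRecDepth 100000

namespace Pool.Agent.SignedQ.KE.K88

def l0 : List (Nat × Nat × Nat × Nat × Nat) :=
  [(1, 0, 308, 0, 1)]

def h0 : sheet 88 88 168 5787 34 21 l0 = true := by decide +kernel

def l1 : List (Nat × Nat × Nat × Nat × Nat) :=
  [(1, 308, 401, 0, 1)]

def h1 : sheet 88 88 199 9879 35 21 l1 = true := by decide +kernel

def l2 : List (Nat × Nat × Nat × Nat × Nat) :=
  [(1, 401, 522, 0, 2)]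

def h2 : sheet 88 88 224 15159 35 21 l2 = true := by decide +kernel

def l3 : List (Nat × Nat × Nat × Nat × Nat) :=
  [(1, 522, 633, 0, 1)]

def h3 : sheet 88 88 241 20043 36 21 l3 = true := by decide +kernel

def l4 : List (Nat × Nat × Nat × Nat × Nat) :=
  [(1, 522, 633, 1, 2)]

def h4 : sheet 88 88 226 16215 35 21 l4 = true := by decide +kernel

def l5 : List (Nat × Nat × Nat × Nat × Nat) :=
  [(1, 633, 704, 0, 1)]

def h5 : sheet 88 88 250 23211 36 21 l5 = true := by decide +kernel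

def l6 : List (Nat × Nat × Nat × Nat × Nat) :=
  [(1, 633, 704, 1, 2)]

def h6 : sheet 88 88 238 19295 36 21 l6 = true := by decide +kernel

theorem cv : Nat.ble 704 (cov 88 (l0 ++ (l1 ++ (l2 ++ (l3 ++ (l4 ++ (l5 ++ (l6))))))) 0 0 0) = true := by decide +kernel

end Pool.Agent.SignedQ.KE.K88
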