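import Pool.Agent.Lib.MP_cf17a0_co.S1.FD.K44

set_option autoImplicit false
set_option maxRecDepth 100000

namespace Pool.Agent.SignedQ.KE.K89

def l0 : List (Nat × Nat × Nat × Nat × Nat) :=
  [(1, 0, 336, 0, 1)]

def h0 : sheet 89 89 179 6965 34 21 l0 = true := by decide +kernel

def l1 : List (Nat × Nat × Nat × Nat × Nat) :=
  [(1, 336, 438, 0, 1)]

def h1 : sheet 89 89 209 11504 35 21 l1 = true := by decide +kernel

def l2 : List (Nat × Nat × Nat × Nat × Nat) :=
  [(1, 438, 570, 0, 1)]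

def h2 : sheet 89 89 233 17378 36 21 l2 = true := by decide +kernel

def l3 : List (Nat × Nat × Nat × Nat × Nat) :=
  [(1, 438, 570, 1, 1)]

def h3 : sheet 89 89 214 13373 35 21 l3 = true := by decide +kernel

def l4 : List (Nat × Nat × Nat × Nat × Nat) :=
  [(1, 570, 660, 0, 1)]

def h4 : sheet 89 89 245 21383 36 21 l4 = true := by decide +kernel

def l5 : List (Nat × Nat × Nat × Nat × Nat) :=
  [(1, 570, 660, 1, 2)]

def h5 : sheet 89 89 231 17378 36 21 l5 = true := by decide +kernel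

def l6 : List (Nat × Nat × Nat × Nat × Nat) :=
  [(1, 660, 712, 0, 2)]

def h6 : sheet 89 89 252 23786 36 21 l6 = true := by decide +kernel

def l7 : List (Nat × Nat × Nat × Nat × Nat) :=
  [(1, 660, 712, 2, 1)]

def h7 : sheet 89 89 220 15776 35 21 l7 = true := by decide +kernel

theorem cv : Nat.ble 712 (cov 89 (l0 ++ (l1 ++ (l2 ++ (l3 ++ (l4 ++ (l5 ++ (l6 ++ (l7)))))))) 0 0 0) = true := by decide +kernel

end Pool.Agent.SignedQ.KE.K89
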