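import Pool.Agent.Lib.MP_cf17a0_co.S1.FD.K94

set_option autoImplicit false
set_option maxRecDepth 100000

namespace Pool.Agent.SignedQ.KE.K91

def l0 : List (Nat × Nat × Nat × Nat × Nat) :=
  [(1, 0, 296, 0, 1)]

def h0 : sheet 91 91 168 5165 35 22 l0 = true := by decide +kernel

def l1 : List (Nat × Nat × Nat × Nat × Nat) :=
  [(1, 296, 385, 0, 1)]

def h1 : sheet 91 91 205 9260 36 22 l1 = true := by decide +kernel

def l2 : List (Nat × Nat × Nat × Nat × Nat) :=
  [(1, 385, 501, 0, 2)]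

def h2 : sheet 91 91 232 14447 36 22 l2 = true := by decide +kernel

def l3 : List (Nat × Nat × Nat × Nat × Nat) :=
  [(1, 501, 606, 0, 1)]

def h3 : sheet 91 91 242 19225 37 22 l3 = true := by decide +kernel

def l4 : List (Nat × Nat × Nat × Nat × Nat) :=
  [(1, 501, 606, 1, 1)]

def h4 : sheet 91 91 225 15221 36 22 l4 = true := by decide +kernel

def l5 : List (Nat × Nat × Nat × Nat × Nat) :=
  [(1, 606, 675, 0, 1)]

def h5 : sheet 91 91 259 22364 37 22 l5 = true := by decide +kernel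

def l6 : List (Nat × Nat × Nat × Nat × Nat) :=
  [(1, 606, 675, 1, 2)]

def h6 : sheet 91 91 245 18178 37 22 l6 = true := by decide +kernel

def l7 : List (Nat × Nat × Nat × Nat × Nat) :=
  [(1, 675, 728, 0, 2)]

def h7 : sheet 91 91 266 24821 37 22 l7 = true := by decide +kernel

def l8 : List (Nat × Nat × Nat × Nat × Nat) :=
  [(1, 675, 728, 2, 1)]

def h8 : sheet 91 91 226 16404 37 22 l8 = true := by decide +kernel

theorem cv : Nat.ble 728 (cov 91 (l0 ++ (l1 ++ (l2 ++ (l3 ++ (l4 ++ (l5 ++ (l6 ++ (l7 ++ (l8))))))))) 0 0 0) = true := by decide +kernel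

end Pool.Agent.SignedQ.KE.K91
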