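import Pool.Agent.Lib.MP_cf17a0_co.S1.FD.K95

set_option autoImplicit false
set_option maxRecDepth 100000

namespace Pool.Agent.SignedQ.KE.K92

def l0 : List (Nat × Nat × Nat × Nat × Nat) :=
  [(1, 0, 297, 0, 1)]

def h0 : sheet 92 92 162 5130 35 22 l0 = true := by decide +kernel

def l1 : List (Nat × Nat × Nat × Nat × Nat) :=
  [(1, 297, 387, 0, 1)]

def h1 : sheet 92 92 200 9270 36 22 l1 = true := by decide +kernel

def l2 : List (Nat × Nat × Nat × Nat × Nat) :=
  [(1, 387, 504, 0, 2)]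

def h2 : sheet 92 92 227 14652 36 22 l2 = true := by decide +kernel

def l3 : List (Nat × Nat × Nat × Nat × Nat) :=
  [(1, 504, 612, 0, 1)]

def h3 : sheet 92 92 245 19620 37 22 l3 = true := by decide +kernel

def l4 : List (Nat × Nat × Nat × Nat × Nat) :=
  [(1, 504, 612, 1, 1)]

def h4 : sheet 92 92 228 15480 36 22 l4 = true := by decide +kernel

def l5 : List (Nat × Nat × Nat × Nat × Nat) :=
  [(1, 612, 681, 0, 1)]

def h5 : sheet 92 92 255 22794 37 22 l5 = true := by decide +kernel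

def l6 : List (Nat × Nat × Nat × Nat × Nat) :=
  [(1, 612, 681, 1, 2)]

def h6 : sheet 92 92 241 18700 37 22 l6 = true := by decide +kernel

def l7 : List (Nat × Nat × Nat × Nat × Nat) :=
  [(1, 681, 736, 0, 1)]

def h7 : sheet 92 92 261 25416 37 22 l7 = true := by decide +kernel

def l8 : List (Nat × Nat × Nat × Nat × Nat) :=
  [(1, 681, 736, 1, 2)]

def h8 : sheet 92 92 248 21230 37 22 l8 = true := by decide +kernel

theorem cv : Nat.ble 736 (cov 92 (l0 ++ (l1 ++ (l2 ++ (l3 ++ (l4 ++ (l5 ++ (l6 ++ (l7 ++ (l8))))))))) 0 0 0) = true := by decide +kernel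

end Pool.Agent.SignedQ.KE.K92
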