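import Pool.Agent.Lib.MP_cf17a0_co.S1.FD.K47

set_option autoImplicit false
set_option maxRecDepth 100000

namespace Pool.Agent.SignedQ.KE.K93

def l0 : List (Nat × Nat × Nat × Nat × Nat) :=
  [(1, 0, 317, 0, 1)]

def h0 : sheet 93 93 173 6069 35 22 l0 = true := by decide +kernel

def l1 : List (Nat × Nat × Nat × Nat × Nat) :=
  [(1, 317, 413, 0, 1)]

def h1 : sheet 93 93 208 10533 36 22 l1 = true := by decide +kernel

def l2 : List (Nat × Nat × Nat × Nat × Nat) :=
  [(1, 413, 537, 0, 2)]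

def h2 : sheet 93 93 241 16253 36 22 l2 = true := by decide +kernel

def l3 : List (Nat × Nat × Nat × Nat × Nat) :=
  [(1, 537, 618, 0, 2)]

def h3 : sheet 93 93 247 20019 37 22 l3 = true := by decide +kernel

def l4 : List (Nat × Nat × Nat × Nat × Nat) :=
  [(1, 618, 687, 0, 1)]

def h4 : sheet 93 93 264 23228 37 22 l4 = true := by decide +kernel

def l5 : List (Nat × Nat × Nat × Nat × Nat) :=
  [(1, 618, 687, 1, 2)]

def h5 : sheet 93 93 242 18996 37 22 l5 = true := by decide +kernel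

def l6 : List (Nat × Nat × Nat × Nat × Nat) :=
  [(1, 687, 744, 0, 1)]

def h6 : sheet 93 93 263 25878 37 22 l6 = true := by decide +kernel

def l7 : List (Nat × Nat × Nat × Nat × Nat) :=
  [(1, 687, 744, 1, 2)]

def h7 : sheet 93 93 258 21554 37 22 l7 = true := by decide +kernel

theorem cv : Nat.ble 744 (cov 93 (l0 ++ (l1 ++ (l2 ++ (l3 ++ (l4 ++ (l5 ++ (l6 ++ (l7)))))))) 0 0 0) = true := by decide +kernel

end Pool.Agent.SignedQ.KE.K93
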