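import Pool.Agent.Lib.MP_cf17a0_co.S1.FD.K48

set_option autoImplicit false
set_option maxRecDepth 100000

namespace Pool.Agent.SignedQ.KE.K94

def l0 : List (Nat × Nat × Nat × Nat × Nat) :=
  [(1, 0, 323, 0, 1)]

def h0 : sheet 94 94 175 6322 35 22 l0 = true := by decide +kernel

def l1 : List (Nat × Nat × Nat × Nat × Nat) :=
  [(1, 323, 420, 0, 1)]

def h1 : sheet 94 94 210 10834 36 22 l1 = true := by decide +kernel

def l2 : List (Nat × Nat × Nat × Nat × Nat) :=
  [(1, 420, 546, 0, 2)]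

def h2 : sheet 94 94 237 16756 37 22 l2 = true := by decide +kernel

def l3 : List (Nat × Nat × Nat × Nat × Nat) :=
  [(1, 546, 627, 0, 2)]

def h3 : sheet 94 94 251 20563 37 22 l3 = true := by decide +kernel

def l4 : List (Nat × Nat × Nat × Nat × Nat) :=
  [(1, 627, 696, 0, 1)]

def h4 : sheet 94 94 259 23806 37 22 l4 = true := by decide +kernel

def l5 : List (Nat × Nat × Nat × Nat × Nat) :=
  [(1, 627, 696, 1, 2)]

def h5 : sheet 94 94 245 19529 37 22 l5 = true := by decide +kernel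

def l6 : List (Nat × Nat × Nat × Nat × Nat) :=
  [(1, 696, 752, 0, 1)]

def h6 : sheet 94 94 266 26485 37 22 l6 = true := by decide +kernel

def l7 : List (Nat × Nat × Nat × Nat × Nat) :=
  [(1, 696, 752, 1, 2)]

def h7 : sheet 94 94 254 22114 37 22 l7 = true := by decide +kernel

theorem cv : Nat.ble 752 (cov 94 (l0 ++ (l1 ++ (l2 ++ (l3 ++ (l4 ++ (l5 ++ (l6 ++ (l7)))))))) 0 0 0) = true := by decide +kernel

end Pool.Agent.SignedQ.KE.K94
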