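import Pool.Agent.Lib.MP_cf17a0_co.S1.FD.K50

set_option autoImplicit false
set_option maxRecDepth 100000

namespace Pool.Agent.SignedQ.KE.K95

def l0 : List (Nat × Nat × Nat × Nat × Nat) :=
  [(1, 0, 289, 0, 1), (1, 289, 376, 0, 1)]

def h0 : sheet 95 95 199 8860 37 23 l0 = true := by decide +kernel

def l1 : List (Nat × Nat × Nat × Nat × Nat) :=
  [(1, 376, 489, 0, 2)]

def h1 : sheet 95 95 235 14132 37 23 l1 = true := by decide +kernel

def l2 : List (Nat × Nat × Nat × Nat × Nat) :=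
  [(1, 489, 594, 0, 1)]

def h2 : sheet 95 95 247 19120 38 23 l2 = true := by decide +kernel

def l3 : List (Nat × Nat × Nat × Nat × Nat) :=
  [(1, 489, 594, 1, 1)]

def h3 : sheet 95 95 233 14607 37 23 l3 = true := by decide +kernel

def l4 : List (Nat × Nat × Nat × Nat × Nat) :=
  [(1, 594, 663, 0, 1)]

def h4 : sheet 95 95 265 22397 38 23 l4 = true := by decide +kernel

def l5 : List (Nat × Nat × Nat × Nat × Nat) :=
  [(1, 594, 663, 1, 1)]

def h5 : sheet 95 95 248 17932 38 23 l5 = true := by decide +kernel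

def l6 : List (Nat × Nat × Nat × Nat × Nat) :=
  [(1, 663, 717, 0, 2)]

def h6 : sheet 95 95 272 24962 38 23 l6 = true := by decide +kernel

def l7 : List (Nat × Nat × Nat × Nat × Nat) :=
  [(1, 663, 717, 2, 1)]

def h7 : sheet 95 95 232 16032 37 23 l7 = true := by decide +kernel

def l8 : List (Nat × Nat × Nat × Nat × Nat) :=
  [(1, 717, 760, 0, 2)]

def h8 : sheet 95 95 269 27100 38 23 l8 = true := by decide +kernel

def l9 : List (Nat × Nat × Nat × Nat × Nat) :=
  [(1, 717, 760, 2, 1)]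

def h9 : sheet 95 95 243 18027 38 23 l9 = true := by decide +kernel

theorem cv : Nat.ble 760 (cov 95 (l0 ++ (l1 ++ (l2 ++ (l3 ++ (l4 ++ (l5 ++ (l6 ++ (l7 ++ (l8 ++ (l9)))))))))) 0 0 0) = true := by decide +kernel

end Pool.Agent.SignedQ.KE.K95
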