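import Pool.Agent.Lib.MP_cf17a0_co.S1.FD.K51

set_option autoImplicit false
set_option maxRecDepth 100000

namespace Pool.Agent.SignedQ.KE.K96

def l0 : List (Nat × Nat × Nat × Nat × Nat) :=
  [(1, 0, 292, 0, 1), (1, 292, 380, 0, 1)]

def h0 : sheet 96 96 201 9001 37 23 l0 = true := by decide +kernel

def l1 : List (Nat × Nat × Nat × Nat × Nat) :=
  [(1, 380, 495, 0, 2)]

def h1 : sheet 96 96 231 14473 37 23 l1 = true := by decide +kernel

def l2 : List (Nat × Nat × Nat × Nat × Nat) :=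
  [(1, 495, 600, 0, 1)]

def h2 : sheet 96 96 250 19513 38 23 l2 = true := by decide +kernel

def l3 : List (Nat × Nat × Nat × Nat × Nat) :=
  [(1, 495, 600, 1, 1)]

def h3 : sheet 96 96 227 14857 37 23 l3 = true := by decide +kernel

def l4 : List (Nat × Nat × Nat × Nat × Nat) :=
  [(1, 600, 669, 0, 1)]

def h4 : sheet 96 96 260 22825 38 23 l4 = true := by decide +kernel

def l5 : List (Nat × Nat × Nat × Nat × Nat) :=
  [(1, 600, 669, 1, 1)]

def h5 : sheet 96 96 243 18217 38 23 l5 = true := by decide +kernel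

def l6 : List (Nat × Nat × Nat × Nat × Nat) :=
  [(1, 669, 723, 0, 2)]

def h6 : sheet 96 96 267 25417 38 23 l6 = true := by decide +kernel

def l7 : List (Nat × Nat × Nat × Nat × Nat) :=
  [(1, 669, 723, 2, 1)]

def h7 : sheet 96 96 227 16345 37 23 l7 = true := by decide +kernel

def l8 : List (Nat × Nat × Nat × Nat × Nat) :=
  [(1, 723, 768, 0, 2)]

def h8 : sheet 96 96 272 27577 38 23 l8 = true := by decide +kernel

def l9 : List (Nat × Nat × Nat × Nat × Nat) :=
  [(1, 723, 768, 2, 1)]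

def h9 : sheet 96 96 238 18361 38 23 l9 = true := by decide +kernel

theorem cv : Nat.ble 768 (cov 96 (l0 ++ (l1 ++ (l2 ++ (l3 ++ (l4 ++ (l5 ++ (l6 ++ (l7 ++ (l8 ++ (l9)))))))))) 0 0 0) = true := by decide +kernel

end Pool.Agent.SignedQ.KE.K96
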