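import Pool.Agent.Lib.MP_cf17a0_co.S1.FD.K59

set_option autoImplicit false
set_option maxRecDepth 100000

namespace Pool.Agent.SignedQ.KE.K97

def l0 : List (Nat × Nat × Nat × Nat × Nat) :=
  [(1, 0, 312, 0, 1)]

def h0 : sheet 97 97 169 5651 36 23 l0 = true := by decide +kernel

def l1 : List (Nat × Nat × Nat × Nat × Nat) :=
  [(1, 312, 406, 0, 1)]

def h1 : sheet 97 97 210 10307 37 23 l1 = true := by decide +kernel

def l2 : List (Nat × Nat × Nat × Nat × Nat) :=
  [(1, 406, 528, 0, 2)]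

def h2 : sheet 97 97 238 16127 37 23 l2 = true := by decide +kernel

def l3 : List (Nat × Nat × Nat × Nat × Nat) :=
  [(1, 528, 609, 0, 2)]

def h3 : sheet 97 97 260 20056 38 23 l3 = true := by decide +kernel

def l4 : List (Nat × Nat × Nat × Nat × Nat) :=
  [(1, 609, 678, 0, 1)]

def h4 : sheet 97 97 262 23402 38 23 l4 = true := by decide +kernel

def l5 : List (Nat × Nat × Nat × Nat × Nat) :=
  [(1, 609, 678, 1, 1)]

def h5 : sheet 97 97 245 18746 38 23 l5 = true := by decide +kernel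

def l6 : List (Nat × Nat × Nat × Nat × Nat) :=
  [(1, 678, 732, 0, 1)]

def h6 : sheet 97 97 269 26021 38 23 l6 = true := by decide +kernel

def l7 : List (Nat × Nat × Nat × Nat × Nat) :=
  [(1, 678, 732, 1, 2)]

def h7 : sheet 97 97 262 21414 38 23 l7 = true := by decide +kernel

def l8 : List (Nat × Nat × Nat × Nat × Nat) :=
  [(1, 732, 776, 0, 2)]

def h8 : sheet 97 97 282 28204 38 23 l8 = true := by decide +kernel

def l9 : List (Nat × Nat × Nat × Nat × Nat) :=
  [(1, 732, 776, 2, 1)]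

def h9 : sheet 97 97 247 18698 38 23 l9 = true := by decide +kernel

theorem cv : Nat.ble 776 (cov 97 (l0 ++ (l1 ++ (l2 ++ (l3 ++ (l4 ++ (l5 ++ (l6 ++ (l7 ++ (l8 ++ (l9)))))))))) 0 0 0) = true := by decide +kernel

end Pool.Agent.SignedQ.KE.K97
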