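import Pool.Agent.Lib.MP_cf17a0_co.S1.FD.K57

set_option autoImplicit false
set_option maxRecDepth 100000

namespace Pool.Agent.SignedQ.KE.K98

def l0 : List (Nat × Nat × Nat × Nat × Nat) :=
  [(1, 0, 313, 0, 1)]

def h0 : sheet 98 98 171 5758 36 23 l0 = true := by decide +kernel

def l1 : List (Nat × Nat × Nat × Nat × Nat) :=
  [(1, 313, 408, 0, 1)]

def h1 : sheet 98 98 210 10315 37 23 l1 = true := by decide +kernel

def l2 : List (Nat × Nat × Nat × Nat × Nat) :=
  [(1, 408, 531, 0, 2)]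

def h2 : sheet 98 98 240 16342 37 23 l2 = true := by decide +kernel

def l3 : List (Nat × Nat × Nat × Nat × Nat) :=
  [(1, 531, 612, 0, 2)]

def h3 : sheet 98 98 254 20311 38 23 l3 = true := by decide +kernel

def l4 : List (Nat × Nat × Nat × Nat × Nat) :=
  [(1, 612, 681, 0, 1)]

def h4 : sheet 98 98 265 23692 38 23 l4 = true := by decide +kernel

def l5 : List (Nat × Nat × Nat × Nat × Nat) :=
  [(1, 612, 681, 1, 1)]

def h5 : sheet 98 98 248 19037 38 23 l5 = true := by decide +kernel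

def l6 : List (Nat × Nat × Nat × Nat × Nat) :=
  [(1, 681, 738, 0, 1)]

def h6 : sheet 98 98 272 26485 38 23 l6 = true := by decide +kernel

def l7 : List (Nat × Nat × Nat × Nat × Nat) :=
  [(1, 681, 738, 1, 2)]

def h7 : sheet 98 98 256 21732 38 23 l7 = true := by decide +kernel

def l8 : List (Nat × Nat × Nat × Nat × Nat) :=
  [(1, 738, 784, 0, 1)]

def h8 : sheet 98 98 277 28837 38 23 l8 = true := by decide +kernel

def l9 : List (Nat × Nat × Nat × Nat × Nat) :=
  [(1, 738, 784, 1, 2)]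

def h9 : sheet 98 98 264 23937 38 23 l9 = true := by decide +kernel

theorem cv : Nat.ble 784 (cov 98 (l0 ++ (l1 ++ (l2 ++ (l3 ++ (l4 ++ (l5 ++ (l6 ++ (l7 ++ (l8 ++ (l9)))))))))) 0 0 0) = true := by decide +kernel

end Pool.Agent.SignedQ.KE.K98
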