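import Pool.Agent.Lib.MP_cf17a0_co.S1.FD.K55

set_option autoImplicit false
set_option maxRecDepth 100000

namespace Pool.Agent.SignedQ.KE.K99

def l0 : List (Nat × Nat × Nat × Nat × Nat) :=
  [(1, 0, 362, 0, 1)]

def h0 : sheet 99 99 202 8094 37 24 l0 = true := by decide +kernel

def l1 : List (Nat × Nat × Nat × Nat × Nat) :=
  [(1, 362, 471, 0, 1)]

def h1 : sheet 99 99 236 13440 38 24 l1 = true := by decide +kernel

def l2 : List (Nat × Nat × Nat × Nat × Nat) :=
  [(1, 471, 570, 0, 2)]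

def h2 : sheet 99 99 250 18341 39 24 l2 = true := by decide +kernel

def l3 : List (Nat × Nat × Nat × Nat × Nat) :=
  [(1, 570, 633, 0, 2)]

def h3 : sheet 99 99 267 21459 39 24 l3 = true := by decide +kernel

def l4 : List (Nat × Nat × Nat × Nat × Nat) :=
  [(1, 633, 687, 0, 2)]

def h4 : sheet 99 99 275 24132 39 24 l4 = true := by decide +kernel

def l5 : List (Nat × Nat × Nat × Nat × Nat) :=
  [(1, 687, 744, 0, 1)]

def h5 : sheet 99 99 274 26954 39 24 l5 = true := by decide +kernel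

def l6 : List (Nat × Nat × Nat × Nat × Nat) :=
  [(1, 687, 744, 1, 2)]

def h6 : sheet 99 99 267 22053 39 24 l6 = true := by decide +kernel

def l7 : List (Nat × Nat × Nat × Nat × Nat) :=
  [(1, 744, 792, 0, 1)]

def h7 : sheet 99 99 280 29330 39 24 l7 = true := by decide +kernel

def l8 : List (Nat × Nat × Nat × Nat × Nat) :=
  [(1, 744, 792, 1, 2)]

def h8 : sheet 99 99 274 24528 39 24 l8 = true := by decide +kernel

theorem cv : Nat.ble 792 (cov 99 (l0 ++ (l1 ++ (l2 ++ (l3 ++ (l4 ++ (l5 ++ (l6 ++ (l7 ++ (l8))))))))) 0 0 0) = true := by decide +kernel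

end Pool.Agent.SignedQ.KE.K99
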