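import Pool.Agent.Lib.MP_cf17a0_co.KE

set_option autoImplicit false
set_option maxRecDepth 100000

namespace Pool.Agent.SignedQ.KE.Five

def h130 : sheet 130 130 271 19013 47 32 [(1, 5 * 130, 683, 1, 1)] = true := by decide +kernel

def h131 : sheet 131 131 272 19291 47 32 [(1, 5 * 131, 688, 1, 1)] = true := by decide +kernel

def h132 : sheet 132 132 275 19570 48 33 [(1, 5 * 132, 693, 1, 1)] = true := by decide +kernel

def h133 : sheet 133 133 276 19851 48 33 [(1, 5 * 133, 699, 1, 1)] = true := by decide +kernel

def h134 : sheet 134 134 279 20134 48 33 [(1, 5 * 134, 704, 1, 1)] = true := by decide +kernel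

def h135 : sheet 135 135 281 20420 49 34 [(1, 5 * 135, 709, 1, 1)] = true := by decide +kernel

def h136 : sheet 136 136 283 20707 49 34 [(1, 5 * 136, 714, 1, 1)] = true := by decide +kernel

def h137 : sheet 137 137 284 20996 49 34 [(1, 5 * 137, 720, 1, 1)] = true := by decide +kernel

def h138 : sheet 138 138 286 21287 49 34 [(1, 5 * 138, 725, 1, 1)] = true := by decide +kernel

def h139 : sheet 139 139 288 21581 50 35 [(1, 5 * 139, 730, 1, 1)] = true := by decide +kernel

end Pool.Agent.SignedQ.KE.Five
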