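import Pool.Agent.Lib.MP_cf17a0_co.S1.FD.K117

set_option autoImplicit false
set_option maxRecDepth 100000

namespace Pool.Agent.SignedQ.KE.K112

def l0 : List (Nat × Nat × Nat × Nat × Nat) :=
  [(1, 0, 355, 0, 1), (1, 355, 462, 0, 1)]

def h0 : sheet 112 112 239 13245 41 27 l0 = true := by decide +kernel

def l1 : List (Nat × Nat × Nat × Nat × Nat) :=
  [(1, 462, 560, 0, 1)]

def h1 : sheet 112 112 266 18789 42 27 l1 = true := by decide +kernel

theorem cv : Nat.ble 560 (cov 112 (l0 ++ (l1)) 0 0 0) = true := by decide +kernel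

end Pool.Agent.SignedQ.KE.K112
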