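import Pool.Agent.Lib.MP_cf17a0_co.S1.FD.K45

set_option autoImplicit false
set_option maxRecDepth 100000

namespace Pool.Agent.SignedQ.KE.K145

def l0 : List (Nat × Nat × Nat × Nat × Nat) :=
  [(1, 0, 489, 0, 1)]

def h0 : sheet 145 145 273 14320 50 36 l0 = true := by decide +kernel

def l1 : List (Nat × Nat × Nat × Nat × Nat) :=
  [(1, 489, 564, 0, 1)]

def h1 : sheet 145 145 299 19757 51 36 l1 = true := by decide +kernel

def l2 : List (Nat × Nat × Nat × Nat × Nat) :=
  [(1, 564, 612, 0, 1)]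

def h2 : sheet 145 145 314 23237 51 36 l2 = true := by decide +kernel

def l3 : List (Nat × Nat × Nat × Nat × Nat) :=
  [(1, 612, 651, 0, 1)]

def h3 : sheet 145 145 333 26065 51 36 l3 = true := by decide +kernel

def l4 : List (Nat × Nat × Nat × Nat × Nat) :=
  [(1, 651, 693, 0, 1)]

def h4 : sheet 145 145 343 29110 51 36 l4 = true := by decide +kernel

def l5 : List (Nat × Nat × Nat × Nat × Nat) :=
  [(1, 693, 725, 0, 1)]

def h5 : sheet 145 145 343 31502 51 36 l5 = true := by decide +kernel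

theorem cv : Nat.ble 725 (cov 145 (l0 ++ (l1 ++ (l2 ++ (l3 ++ (l4 ++ (l5)))))) 0 0 0) = true := by decide +kernel

end Pool.Agent.SignedQ.KE.K145
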