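import Pool.Agent.Lib.MP_cf17a0_co.S1.FD.K160

set_option autoImplicit false
set_option maxRecDepth 100000

namespace Pool.Agent.SignedQ.KE.K159

def l0 : List (Nat × Nat × Nat × Nat × Nat) :=
  [(1, 0, 552, 0, 1)]

def h0 : sheet 159 159 301 18485 55 40 l0 = true := by decide +kernel

def l1 : List (Nat × Nat × Nat × Nat × Nat) :=
  [(1, 552, 609, 0, 1)]

def h1 : sheet 159 159 332 23016 55 40 l1 = true := by decide +kernel

def l2 : List (Nat × Nat × Nat × Nat × Nat) :=
  [(1, 609, 648, 0, 1)]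

def h2 : sheet 159 159 338 26117 55 40 l2 = true := by decide +kernel

def l3 : List (Nat × Nat × Nat × Nat × Nat) :=
  [(1, 648, 681, 0, 1)]

def h3 : sheet 159 159 355 28740 55 40 l3 = true := by decide +kernel

def l4 : List (Nat × Nat × Nat × Nat × Nat) :=
  [(1, 681, 714, 0, 1)]

def h4 : sheet 159 159 357 31364 55 40 l4 = true := by decide +kernel

def l5 : List (Nat × Nat × Nat × Nat × Nat) :=
  [(1, 714, 741, 0, 1)]

def h5 : sheet 159 159 372 33510 56 40 l5 = true := by decide +kernel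

def l6 : List (Nat × Nat × Nat × Nat × Nat) :=
  [(1, 741, 768, 0, 1)]

def h6 : sheet 159 159 371 35657 56 40 l6 = true := by decide +kernel

def l7 : List (Nat × Nat × Nat × Nat × Nat) :=
  [(1, 768, 795, 0, 1)]

def h7 : sheet 159 159 385 37803 56 40 l7 = true := by decide +kernel

theorem cv : Nat.ble 795 (cov 159 (l0 ++ (l1 ++ (l2 ++ (l3 ++ (l4 ++ (l5 ++ (l6 ++ (l7)))))))) 0 0 0) = true := by decide +kernel

end Pool.Agent.SignedQ.KE.K159
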