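import Pool.Agent.Lib.MP_cf17a0_co.S1.FD.K181

set_option autoImplicit false
set_option maxRecDepth 100000

namespace Pool.Agent.SignedQ.KE.K170

def l0 : List (Nat × Nat × Nat × Nat × Nat) :=
  [(1, 0, 546, 0, 1)]

def h0 : sheet 170 170 296 17383 58 43 l0 = true := by decide +kernel

def l1 : List (Nat × Nat × Nat × Nat × Nat) :=
  [(1, 546, 600, 0, 1)]

def h1 : sheet 170 170 325 21973 58 43 l1 = true := by decide +kernel

def l2 : List (Nat × Nat × Nat × Nat × Nat) :=
  [(1, 600, 645, 0, 1)]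

def h2 : sheet 170 170 345 25798 58 43 l2 = true := by decide +kernel

def l3 : List (Nat × Nat × Nat × Nat × Nat) :=
  [(1, 645, 678, 0, 1)]

def h3 : sheet 170 170 356 28603 58 43 l3 = true := by decide +kernel

def l4 : List (Nat × Nat × Nat × Nat × Nat) :=
  [(1, 678, 711, 0, 1)]

def h4 : sheet 170 170 367 31408 58 43 l4 = true := by decide +kernel

def l5 : List (Nat × Nat × Nat × Nat × Nat) :=
  [(1, 711, 738, 0, 1)]

def h5 : sheet 170 170 375 33703 59 43 l5 = true := by decide +kernel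

def l6 : List (Nat × Nat × Nat × Nat × Nat) :=
  [(1, 738, 765, 0, 1)]

def h6 : sheet 170 170 383 35998 59 43 l6 = true := by decide +kernel

def l7 : List (Nat × Nat × Nat × Nat × Nat) :=
  [(1, 765, 792, 0, 1)]

def h7 : sheet 170 170 389 38293 59 43 l7 = true := by decide +kernel

def l8 : List (Nat × Nat × Nat × Nat × Nat) :=
  [(1, 792, 813, 0, 1)]

def h8 : sheet 170 170 395 40078 59 43 l8 = true := by decide +kernel

def l9 : List (Nat × Nat × Nat × Nat × Nat) :=
  [(1, 813, 834, 0, 1)]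

def g9 : KL.sheet 170 170 399 41863 59 43 l9 = true := by decide +kernel

theorem h9 : sheet 170 170 399 41863 59 43 l9 = true := KL.sheet_ok g9

def l10 : List (Nat × Nat × Nat × Nat × Nat) :=
  [(1, 834, 850, 0, 1)]

def g10 : KL.sheet 170 170 403 43393 59 43 l10 = true := by decide +kernel

theorem h10 : sheet 170 170 403 43393 59 43 l10 = true := KL.sheet_ok g10

theorem cv : Nat.ble 850 (cov 170 (l0 ++ (l1 ++ (l2 ++ (l3 ++ (l4 ++ (l5 ++ (l6 ++ (l7 ++ (l8 ++ (l9 ++ (l10))))))))))) 0 0 0) = true := by decide +kernel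

end Pool.Agent.SignedQ.KE.K170
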