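import Pool.Agent.Lib.MP_cf17a0_co.S1.FD.K191

set_option autoImplicit false
set_option maxRecDepth 100000

namespace Pool.Agent.SignedQ.KE.K181

def l0 : List (Nat × Nat × Nat × Nat × Nat) :=
  [(1, 0, 600, 0, 1)]

def h0 : sheet 181 181 328 21404 61 46 l0 = true := by decide +kernel

def l1 : List (Nat × Nat × Nat × Nat × Nat) :=
  [(1, 600, 645, 0, 1)]

def h1 : sheet 181 181 357 25477 61 46 l1 = true := by decide +kernel

def l2 : List (Nat × Nat × Nat × Nat × Nat) :=
  [(1, 645, 681, 0, 1)]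

def h2 : sheet 181 181 372 28735 61 46 l2 = true := by decide +kernel

def l3 : List (Nat × Nat × Nat × Nat × Nat) :=
  [(1, 681, 714, 0, 1)]

def h3 : sheet 181 181 376 31721 61 46 l3 = true := by decide +kernel

def l4 : List (Nat × Nat × Nat × Nat × Nat) :=
  [(1, 714, 741, 0, 1)]

def h4 : sheet 181 181 394 34165 62 46 l4 = true := by decide +kernel

def l5 : List (Nat × Nat × Nat × Nat × Nat) :=
  [(1, 741, 768, 0, 1)]

def h5 : sheet 181 181 394 36608 62 46 l5 = true := by decide +kernel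

def l6 : List (Nat × Nat × Nat × Nat × Nat) :=
  [(1, 768, 789, 0, 1)]

def h6 : sheet 181 181 408 38509 62 46 l6 = true := by decide +kernel

def l7 : List (Nat × Nat × Nat × Nat × Nat) :=
  [(1, 789, 810, 0, 1)]

def h7 : sheet 181 181 406 40409 62 46 l7 = true := by decide +kernel

def l8 : List (Nat × Nat × Nat × Nat × Nat) :=
  [(1, 810, 831, 0, 1)]

def g8 : KL.sheet 181 181 419 42310 62 46 l8 = true := by decide +kernel

theorem h8 : sheet 181 181 419 42310 62 46 l8 = true := KL.sheet_ok g8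

def l9 : List (Nat × Nat × Nat × Nat × Nat) :=
  [(1, 831, 852, 0, 1)]

def g9 : KL.sheet 181 181 417 44210 62 46 l9 = true := by decide +kernel

theorem h9 : sheet 181 181 417 44210 62 46 l9 = true := KL.sheet_ok g9

def l10 : List (Nat × Nat × Nat × Nat × Nat) :=
  [(1, 852, 870, 0, 1)]

def g10 : KL.sheet 181 181 421 45839 62 46 l10 = true := by decide +kernel

theorem h10 : sheet 181 181 421 45839 62 46 l10 = true := KL.sheet_ok g10

def l11 : List (Nat × Nat × Nat × Nat × Nat) :=
  [(1, 870, 888, 0, 1)]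

def g11 : KL.sheet 181 181 425 47468 62 46 l11 = true := by decide +kernel

theorem h11 : sheet 181 181 425 47468 62 46 l11 = true := KL.sheet_ok g11

def l12 : List (Nat × Nat × Nat × Nat × Nat) :=
  [(1, 888, 905, 0, 1)]

def g12 : KL.sheet 181 181 429 49097 62 46 l12 = true := by decide +kernel

theorem h12 : sheet 181 181 429 49097 62 46 l12 = true := KL.sheet_ok g12

theorem cv : Nat.ble 905 (cov 181 (l0 ++ (l1 ++ (l2 ++ (l3 ++ (l4 ++ (l5 ++ (l6 ++ (l7 ++ (l8 ++ (l9 ++ (l10 ++ (l11 ++ (l12))))))))))))) 0 0 0) = true := by decide +kernel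

end Pool.Agent.SignedQ.KE.K181
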