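import Pool.Agent.Lib.MP_cf17a0_co.KL

set_option autoImplicit false
set_option maxRecDepth 100000

namespace Pool.Agent.SignedQ.KE.K192

def l0 : List (Nat × Nat × Nat × Nat × Nat) :=
  [(1, 0, 603, 0, 1)]

def h0 : sheet 192 192 326 20881 64 49 l0 = true := by decide +kernel

def l1 : List (Nat × Nat × Nat × Nat × Nat) :=
  [(1, 603, 645, 0, 1)]

def h1 : sheet 192 192 353 24913 64 49 l1 = true := by decide +kernel

def l2 : List (Nat × Nat × Nat × Nat × Nat) :=
  [(1, 645, 681, 0, 1)]

def h2 : sheet 192 192 370 28369 64 49 l2 = true := by decide +kernel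

def l3 : List (Nat × Nat × Nat × Nat × Nat) :=
  [(1, 681, 708, 0, 1)]

def h3 : sheet 192 192 380 30961 64 49 l3 = true := by decide +kernel

def l4 : List (Nat × Nat × Nat × Nat × Nat) :=
  [(1, 708, 735, 0, 1)]

def h4 : sheet 192 192 393 33553 65 49 l4 = true := by decide +kernel

def l5 : List (Nat × Nat × Nat × Nat × Nat) :=
  [(1, 735, 762, 0, 1)]

def h5 : sheet 192 192 401 36145 65 49 l5 = true := by decide +kernel

def l6 : List (Nat × Nat × Nat × Nat × Nat) :=
  [(1, 762, 783, 0, 1)]

def h6 : sheet 192 192 409 38161 65 49 l6 = true := by decide +kernel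

def l7 : List (Nat × Nat × Nat × Nat × Nat) :=
  [(1, 783, 804, 0, 1)]

def h7 : sheet 192 192 415 40177 65 49 l7 = true := by decide +kernel

def l8 : List (Nat × Nat × Nat × Nat × Nat) :=
  [(1, 804, 825, 0, 1)]

def g8 : KL.sheet 192 192 422 42193 65 49 l8 = true := by decide +kernel

theorem h8 : sheet 192 192 422 42193 65 49 l8 = true := KL.sheet_ok g8

def l9 : List (Nat × Nat × Nat × Nat × Nat) :=
  [(1, 825, 846, 0, 1)]

def g9 : KL.sheet 192 192 427 44209 65 49 l9 = true := by decide +kernel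

theorem h9 : sheet 192 192 427 44209 65 49 l9 = true := KL.sheet_ok g9

def l10 : List (Nat × Nat × Nat × Nat × Nat) :=
  [(1, 846, 864, 0, 1)]

def g10 : KL.sheet 192 192 432 45937 65 49 l10 = true := by decide +kernel

theorem h10 : sheet 192 192 432 45937 65 49 l10 = true := KL.sheet_ok g10

def l11 : List (Nat × Nat × Nat × Nat × Nat) :=
  [(1, 864, 882, 0, 1)]

def g11 : KL.sheet 192 192 436 47665 65 49 l11 = true := by decide +kernel

theorem h11 : sheet 192 192 436 47665 65 49 l11 = true := KL.sheet_ok g11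

def l12 : List (Nat × Nat × Nat × Nat × Nat) :=
  [(1, 882, 900, 0, 1)]

def g12 : KL.sheet 192 192 441 49393 65 49 l12 = true := by decide +kernel

theorem h12 : sheet 192 192 441 49393 65 49 l12 = true := KL.sheet_ok g12

def l13 : List (Nat × Nat × Nat × Nat × Nat) :=
  [(1, 900, 915, 0, 1)]

def g13 : KL.sheet 192 192 445 50833 65 49 l13 = true := by decide +kernel

theorem h13 : sheet 192 192 445 50833 65 49 l13 = true := KL.sheet_ok g13

def l14 : List (Nat × Nat × Nat × Nat × Nat) :=
  [(1, 915, 930, 0, 1)]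

def g14 : KL.sheet 192 192 448 52273 65 49 l14 = true := by decide +kernel

theorem h14 : sheet 192 192 448 52273 65 49 l14 = true := KL.sheet_ok g14

def l15 : List (Nat × Nat × Nat × Nat × Nat) :=
  [(1, 930, 945, 0, 1)]

def g15 : KL.sheet 192 192 452 53713 65 49 l15 = true := by decide +kernel

theorem h15 : sheet 192 192 452 53713 65 49 l15 = true := KL.sheet_ok g15

def l16 : List (Nat × Nat × Nat × Nat × Nat) :=
  [(1, 945, 960, 0, 1)]

def g16 : KL.sheet 192 192 455 55153 65 49 l16 = true := by decide +kernel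

theorem h16 : sheet 192 192 455 55153 65 49 l16 = true := KL.sheet_ok g16

theorem cv : Nat.ble 960 (cov 192 (l0 ++ (l1 ++ (l2 ++ (l3 ++ (l4 ++ (l5 ++ (l6 ++ (l7 ++ (l8 ++ (l9 ++ (l10 ++ (l11 ++ (l12 ++ (l13 ++ (l14 ++ (l15 ++ (l16))))))))))))))))) 0 0 0) = true := by decide +kernel

end Pool.Agent.SignedQ.KE.K192
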