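import Pool.Agent.Lib.MP_cf17a0_co.S1.FD.K26

set_option autoImplicit false
set_option maxRecDepth 100000

namespace Pool.Agent.SignedQ.KE.K35

def l0 : List (Nat × Nat × Nat × Nat × Nat) :=
  [(1, 0, 110, 0, 1), (1, 110, 143, 0, 1)]

def h0 : sheet 35 35 75 1270 18 7 l0 = true := by decide +kernel

def l1 : List (Nat × Nat × Nat × Nat × Nat) :=
  [(1, 143, 186, 0, 2)]

def h1 : sheet 35 35 85 2005 18 7 l1 = true := by decide +kernel

def l2 : List (Nat × Nat × Nat × Nat × Nat) :=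
  [(1, 186, 243, 0, 2), (1, 243, 317, 0, 4), (1, 317, 413, 0, 5), (1, 413, 538, 0, 7)]

def h2 : sheet 35 35 122 8200 21 7 l2 = true := by decide +kernel

def l3 : List (Nat × Nat × Nat × Nat × Nat) :=
  [(1, 538, 700, 0, 9)]

def h3 : sheet 35 35 125 11035 21 7 l3 = true := by decide +kernel

theorem cv : Nat.ble 700 (cov 35 (l0 ++ (l1 ++ (l2 ++ (l3)))) 0 0 0) = true := by decide +kernel

end Pool.Agent.SignedQ.KE.K35
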