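import Pool.Agent.Lib.MP_cf17a0_co.S1.FD.K49

set_option autoImplicit false
set_option maxRecDepth 100000

namespace Pool.Agent.SignedQ.KE.K46

def l0 : List (Nat × Nat × Nat × Nat × Nat) :=
  [(1, 0, 163, 0, 1)]

def h0 : sheet 46 46 90 1645 21 10 l0 = true := by decide +kernel

def l1 : List (Nat × Nat × Nat × Nat × Nat) :=
  [(1, 163, 213, 0, 1)]

def h1 : sheet 46 46 106 2749 22 10 l1 = true := by decide +kernel

def l2 : List (Nat × Nat × Nat × Nat × Nat) :=
  [(1, 213, 278, 0, 2), (1, 278, 362, 0, 3), (1, 362, 471, 0, 4)]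

def h2 : sheet 46 46 142 8683 24 10 l2 = true := by decide +kernel

def l3 : List (Nat × Nat × Nat × Nat × Nat) :=
  [(1, 471, 613, 0, 6)]

def h3 : sheet 46 46 151 11995 24 10 l3 = true := by decide +kernel

def l4 : List (Nat × Nat × Nat × Nat × Nat) :=
  [(1, 613, 798, 0, 1)]

def h4 : sheet 46 46 160 16204 24 10 l4 = true := by decide +kernel

def l5 : List (Nat × Nat × Nat × Nat × Nat) :=
  [(1, 613, 798, 1, 4)]

def h5 : sheet 46 46 158 15169 24 10 l5 = true := by decide +kernel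

def l6 : List (Nat × Nat × Nat × Nat × Nat) :=
  [(1, 613, 798, 5, 3)]

def h6 : sheet 46 46 146 10983 24 10 l6 = true := by decide +kernel

def l7 : List (Nat × Nat × Nat × Nat × Nat) :=
  [(1, 798, 920, 0, 2)]

def h7 : sheet 46 46 167 19033 25 10 l7 = true := by decide +kernel

def l8 : List (Nat × Nat × Nat × Nat × Nat) :=
  [(1, 798, 920, 2, 7)]

def h8 : sheet 46 46 162 16940 25 10 l8 = true := by decide +kernel

theorem cv : Nat.ble 920 (cov 46 (l0 ++ (l1 ++ (l2 ++ (l3 ++ (l4 ++ (l5 ++ (l6 ++ (l7 ++ (l8))))))))) 0 0 0) = true := by decide +kernel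

end Pool.Agent.SignedQ.KE.K46
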