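import Pool.Agent.Lib.MP_cf17a0_co.KE

set_option autoImplicit false
set_option maxRecDepth 100000

namespace Pool.Agent.SignedQ.KE.K57

def l0 : List (Nat × Nat × Nat × Nat × Nat) :=
  [(1, 0, 192, 0, 1), (1, 192, 250, 0, 1)]

def h0 : sheet 57 57 126 3891 24 12 l0 = true := by decide +kernel

def l1 : List (Nat × Nat × Nat × Nat × Nat) :=
  [(1, 250, 326, 0, 2), (1, 326, 425, 0, 3)]

def h1 : sheet 57 57 157 8850 26 12 l1 = true := by decide +kernel

def l2 : List (Nat × Nat × Nat × Nat × Nat) :=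
  [(1, 425, 553, 0, 4)]

def h2 : sheet 57 57 178 12527 26 12 l2 = true := by decide +kernel

def l3 : List (Nat × Nat × Nat × Nat × Nat) :=
  [(1, 553, 720, 0, 1)]

def h3 : sheet 57 57 183 17229 27 12 l3 = true := by decide +kernel

def l4 : List (Nat × Nat × Nat × Nat × Nat) :=
  [(1, 553, 720, 1, 4)]

def h4 : sheet 57 57 181 15576 26 12 l4 = true := by decide +kernel

def l5 : List (Nat × Nat × Nat × Nat × Nat) :=
  [(1, 720, 828, 0, 2)]

def h5 : sheet 57 57 189 20307 27 12 l5 = true := by decide +kernel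

def l6 : List (Nat × Nat × Nat × Nat × Nat) :=
  [(1, 720, 828, 2, 4)]

def h6 : sheet 57 57 190 17144 27 12 l6 = true := by decide +kernel

def l7 : List (Nat × Nat × Nat × Nat × Nat) :=
  [(1, 828, 918, 0, 2)]

def h7 : sheet 57 57 194 22872 27 12 l7 = true := by decide +kernel

def l8 : List (Nat × Nat × Nat × Nat × Nat) :=
  [(1, 828, 918, 2, 5)]

def h8 : sheet 57 57 188 19737 27 12 l8 = true := by decide +kernel

def l9 : List (Nat × Nat × Nat × Nat × Nat) :=
  [(1, 918, 993, 0, 2)]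

def h9 : sheet 57 57 206 25010 27 12 l9 = true := by decide +kernel

def l10 : List (Nat × Nat × Nat × Nat × Nat) :=
  [(1, 918, 993, 2, 6)]

def h10 : sheet 57 57 197 21732 27 12 l10 = true := by decide +kernel

def l11 : List (Nat × Nat × Nat × Nat × Nat) :=
  [(1, 993, 1074, 0, 1)]

def h11 : sheet 57 57 200 27318 27 12 l11 = true := by decide +kernel

def l12 : List (Nat × Nat × Nat × Nat × Nat) :=
  [(1, 993, 1074, 1, 3)]

def h12 : sheet 57 57 207 25694 27 12 l12 = true := by decide +kernel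

def l13 : List (Nat × Nat × Nat × Nat × Nat) :=
  [(1, 993, 1074, 4, 4)]

def h13 : sheet 57 57 193 20820 27 12 l13 = true := by decide +kernel

def l14 : List (Nat × Nat × Nat × Nat × Nat) :=
  [(1, 1074, 1140, 0, 2)]

def h14 : sheet 57 57 203 29199 27 12 l14 = true := by decide +kernel

def l15 : List (Nat × Nat × Nat × Nat × Nat) :=
  [(1, 1074, 1140, 2, 7)]

def h15 : sheet 57 57 207 25922 27 12 l15 = true := by decide +kernel

theorem cv : Nat.ble 1140 (cov 57 (l0 ++ (l1 ++ (l2 ++ (l3 ++ (l4 ++ (l5 ++ (l6 ++ (l7 ++ (l8 ++ (l9 ++ (l10 ++ (l11 ++ (l12 ++ (l13 ++ (l14 ++ (l15)))))))))))))))) 0 0 0) = true := by decide +kernel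

end Pool.Agent.SignedQ.KE.K57
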