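import Pool.Agent.Lib.MP_cf17a0_co.S1.FD.K72

set_option autoImplicit false
set_option maxRecDepth 100000

namespace Pool.Agent.SignedQ.KE.K68

def l0 : List (Nat × Nat × Nat × Nat × Nat) :=
  [(1, 0, 246, 0, 1)]

def h0 : sheet 68 68 131 3690 27 15 l0 = true := by decide +kernel

def l1 : List (Nat × Nat × Nat × Nat × Nat) :=
  [(1, 246, 321, 0, 1)]

def h1 : sheet 68 68 156 6240 28 15 l1 = true := by decide +kernel

def l2 : List (Nat × Nat × Nat × Nat × Nat) :=
  [(1, 321, 418, 0, 2), (1, 418, 544, 0, 1)]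

def h2 : sheet 68 68 192 13890 29 15 l2 = true := by decide +kernel

def l3 : List (Nat × Nat × Nat × Nat × Nat) :=
  [(1, 418, 544, 1, 2)]

def h3 : sheet 68 68 183 11510 29 15 l3 = true := by decide +kernel

theorem cv : Nat.ble 544 (cov 68 (l0 ++ (l1 ++ (l2 ++ (l3)))) 0 0 0) = true := by decide +kernel

end Pool.Agent.SignedQ.KE.K68
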