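import Pool.Agent.Lib.MP_cf17a0_co.S1.FD.K82

set_option autoImplicit false
set_option maxRecDepth 100000

namespace Pool.Agent.SignedQ.KE.K79

def l0 : List (Nat × Nat × Nat × Nat × Nat) :=
  [(1, 0, 308, 0, 1), (1, 308, 401, 0, 2), (1, 401, 522, 0, 1)]

def h0 : sheet 79 79 209 14320 32 18 l0 = true := by decide +kernel

def l1 : List (Nat × Nat × Nat × Nat × Nat) :=
  [(1, 401, 522, 1, 1)]

def h1 : sheet 79 79 201 11278 32 18 l1 = true := by decide +kernel

def l2 : List (Nat × Nat × Nat × Nat × Nat) :=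
  [(1, 522, 632, 0, 1)]

def h2 : sheet 79 79 231 18704 33 18 l2 = true := by decide +kernel

def l3 : List (Nat × Nat × Nat × Nat × Nat) :=
  [(1, 522, 632, 1, 2)]

def h3 : sheet 79 79 219 15623 32 18 l3 = true := by decide +kernel

theorem cv : Nat.ble 632 (cov 79 (l0 ++ (l1 ++ (l2 ++ (l3)))) 0 0 0) = true := by decide +kernel

end Pool.Agent.SignedQ.KE.K79
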