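import Pool.Agent.Lib.MP_cf17a0_co.S1.FD.K148

set_option autoImplicit false
set_option maxRecDepth 100000

namespace Pool.Agent.SignedQ.KE.K90

def l0 : List (Nat × Nat × Nat × Nat × Nat) :=
  [(1, 0, 290, 0, 1)]

def h0 : sheet 90 90 158 4928 34 21 l0 = true := by decide +kernel

def l1 : List (Nat × Nat × Nat × Nat × Nat) :=
  [(1, 290, 378, 0, 1)]

def h1 : sheet 90 90 194 8843 35 21 l1 = true := by decide +kernel

def l2 : List (Nat × Nat × Nat × Nat × Nat) :=
  [(1, 378, 492, 0, 2)]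

def h2 : sheet 90 90 221 13973 35 21 l2 = true := by decide +kernel

def l3 : List (Nat × Nat × Nat × Nat × Nat) :=
  [(1, 492, 597, 0, 1)]

def h3 : sheet 90 90 240 18698 36 21 l3 = true := by decide +kernel

def l4 : List (Nat × Nat × Nat × Nat × Nat) :=
  [(1, 492, 597, 1, 1)]

def h4 : sheet 90 90 221 14738 35 21 l4 = true := by decide +kernel

def l5 : List (Nat × Nat × Nat × Nat × Nat) :=
  [(1, 597, 666, 0, 2)]

def h5 : sheet 90 90 248 21803 36 21 l5 = true := by decide +kernel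

def l6 : List (Nat × Nat × Nat × Nat × Nat) :=
  [(1, 597, 666, 2, 1)]

def h6 : sheet 90 90 209 13883 35 21 l6 = true := by decide +kernel

def l7 : List (Nat × Nat × Nat × Nat × Nat) :=
  [(1, 666, 720, 0, 2)]

def h7 : sheet 90 90 255 24233 36 21 l7 = true := by decide +kernel

def l8 : List (Nat × Nat × Nat × Nat × Nat) :=
  [(1, 666, 720, 2, 1)]

def h8 : sheet 90 90 223 16088 35 21 l8 = true := by decide +kernel

theorem cv : Nat.ble 720 (cov 90 (l0 ++ (l1 ++ (l2 ++ (l3 ++ (l4 ++ (l5 ++ (l6 ++ (l7 ++ (l8))))))))) 0 0 0) = true := by decide +kernel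

end Pool.Agent.SignedQ.KE.K90
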